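import Mathlib
import Pool.Agent.Helper418.FEDefs

/-! Hardy spaces on the circle and the norm of `I - C_K` on them. -/

set_option autoImplicit false
open MeasureTheory

namespace Pool.Agent.Y112.HP

open Pool.Agent.Helper418.FE

/-- The Hardy space `H^p(𝕋)`: the functions `f ∈ L^p(𝕋)` with `f̂(k) = 0` for all `k < 0`
(`fourierCoeff f k = ∫ f(e^{iθ}) e^{-ikθ} dθ/2π`). -/
def InHardy (p : ENNReal) (f : Circ → ℂ) : Prop :=
  MemLp f p μ ∧ ∀ k : ℤ, k < 0 → fourierCoeff f k = 0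

/-- `N` is the norm on `H^p(𝕋)` of the operator `I - C_K : f ↦ f - K * f`, i.e. `N` is the least
constant `c ≥ 0` with `‖f - K * f‖_p ≤ c ‖f‖_p` for all `f ∈ H^p(𝕋)`. -/
def IsNormIdSubConvHardy (K : Circ → ℂ) (p N : ℝ) : Prop :=
  IsLeast {c : ℝ | 0 ≤ c ∧ ∀ f : Circ → ℂ, InHardy (ENNReal.ofReal p) f →
    eLpNorm (fun x => f x - conv K f x) (ENNReal.ofReal p) μ
      ≤ ENNReal.ofReal c * eLpNorm f (ENNReal.ofReal p) μ} N

end Pool.Agent.Y112.HP
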