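import Mathlib
import Pool.Agent.Helper418.FE7

/-!
The matrices used for the Fejér means of analytic functions. `J n z` is the companion matrix of
`t ^ (n+1) = z`; for `z = e^{i(n+1)x}` the vector `u n x = (e^{-ikx})_k` is an eigenvector of it
(and of its adjoint) with eigenvalue `e^{ix}` (and `e^{-ix}`).
-/

set_option autoImplicit false
open MeasureTheory Filter Topology
open scoped ComplexConjugate Matrix

namespace Pool.Agent.Y112.HP

open Pool.Agent.Helper418.FE

/-- the coherent vector -/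
noncomputable def u (n : ℕ) (x : Circ) : Fin (n+1) → ℂ := fun k => conj (e (k.val : ℤ) x)

/-- companion matrix of `t ^ (n+1) = z` -/
def J (n : ℕ) (z : ℂ) : Matrix (Fin (n+1)) (Fin (n+1)) ℂ :=
  Matrix.of fun i j => if j.val + 1 = i.val then 1 else if (i.val = 0 ∧ j.val = n) then z else 0

lemma e_mul_conj (k : ℤ) (x : Circ) : e k x * conj (e k x) = 1 := by
  rw [← e_neg, ← e_add, add_neg_cancel, e_zero]

lemma J_mulVec_u (n : ℕ) (x : Circ) :
    (J n (e ((n:ℤ)+1) x)) *ᵥ (u n x) = e 1 x • u n x := by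
  funext i
  simp only [Matrix.mulVec, dotProduct, Pi.smul_apply, smul_eq_mul]
  refine Fin.cases ?_ (fun k => ?_) i
  · rw [Finset.sum_eq_single (Fin.last n)]
    · simp only [J, Matrix.of_apply, Fin.val_last, Fin.val_zero, true_and, if_true, u]
      rw [if_neg (by omega)]
      simp only [Nat.cast_zero, e_zero, map_one, mul_one]
      rw [e_add, mul_right_comm, e_mul_conj, one_mul]
    · intro j _ hj
      have : j.val ≠ n := fun h => hj (Fin.ext (by simpa using h))
      simp only [J, Matrix.of_apply, Fin.val_zero, true_and]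
      rw [if_neg (by omega), if_neg this, zero_mul]
    · simp
  · rw [Finset.sum_eq_single k.castSucc]
    · simp only [J, Matrix.of_apply, Fin.val_castSucc, Fin.val_succ, if_true, u, one_mul]
      push_cast
      rw [e_add, map_mul, mul_left_comm, e_mul_conj, mul_one]
    · intro j _ hj
      have : j.val ≠ k.val := fun h => hj (Fin.ext (by simpa using h))
      simp only [J, Matrix.of_apply, Fin.val_succ]
      rw [if_neg (by omega), if_neg (by omega), zero_mul]
    · simp

lemma JH_mulVec_u (n : ℕ) (x : Circ) :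
    (J n (e ((n:ℤ)+1) x))ᴴ *ᵥ (u n x) = conj (e 1 x) • u n x := by
  funext i
  simp only [Matrix.mulVec, dotProduct, Pi.smul_apply, smul_eq_mul, Matrix.conjTranspose_apply]
  refine Fin.lastCases ?_ (fun k => ?_) i
  · rw [Finset.sum_eq_single 0]
    · simp only [J, Matrix.of_apply, Fin.val_last, Fin.val_zero, true_and, if_true, u]
      rw [if_neg (by omega)]
      simp only [Nat.cast_zero, e_zero, map_one, mul_one, RCLike.star_def]
      rw [e_add, map_mul, mul_comm]
    · intro j _ hj
      have : j.val ≠ 0 := fun h => hj (Fin.ext (by simpa using h))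
      have := j.isLt
      simp only [J, Matrix.of_apply, Fin.val_last]
      rw [if_neg (by omega), if_neg (by omega), star_zero, zero_mul]
    · simp
  · rw [Finset.sum_eq_single k.succ]
    · simp only [J, Matrix.of_apply, Fin.val_castSucc, Fin.val_succ, if_true, u, star_one, one_mul]
      push_cast
      rw [e_add, map_mul, mul_comm]
    · intro j _ hj
      have : j.val ≠ k.val + 1 := fun h => hj (Fin.ext (by simpa using h))
      have := k.isLt
      simp only [J, Matrix.of_apply, Fin.val_castSucc]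
      rw [if_neg (by omega), if_neg (by omega), star_zero, zero_mul]
    · simp

/-- entrywise continuity and analyticity of a matrix function -/
def Ana {m : ℕ} (M : ℂ → Matrix (Fin m) (Fin m) ℂ) : Prop := ∀ i j, Differentiable ℂ fun z => M z i j

lemma Ana.const {m : ℕ} (A : Matrix (Fin m) (Fin m) ℂ) : Ana fun _ => A := fun _ _ => by simp

lemma Ana.add {m : ℕ} {M M' : ℂ → Matrix (Fin m) (Fin m) ℂ} (h : Ana M) (h' : Ana M') :
    Ana fun z => M z + M' z := fun i j => (h i j).add (h' i j)

lemma Ana.sub {m : ℕ} {M M' : ℂ → Matrix (Fin m) (Fin m) ℂ} (h : Ana M) (h' : Ana M') :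
    Ana fun z => M z - M' z := fun i j => (h i j).sub (h' i j)

lemma Ana.mul {m : ℕ} {M M' : ℂ → Matrix (Fin m) (Fin m) ℂ} (h : Ana M) (h' : Ana M') :
    Ana fun z => M z * M' z := by
  intro i j
  simp only [Matrix.mul_apply]
  exact Differentiable.fun_sum fun k _ => (h i k).mul (h' k j)

lemma Ana.smul {m : ℕ} {M : ℂ → Matrix (Fin m) (Fin m) ℂ} (c : ℂ) (h : Ana M) :
    Ana fun z => c • M z := by
  intro i j
  exact (h i j).const_mul c

lemma Ana.pow {m : ℕ} {M : ℂ → Matrix (Fin m) (Fin m) ℂ} (h : Ana M) (k : ℕ) :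
    Ana fun z => M z ^ k := by
  induction k with
  | zero => simpa using Ana.const 1
  | succ k ih =>
    simp only [pow_succ]
    exact ih.mul h

lemma Ana.trace {m : ℕ} {M : ℂ → Matrix (Fin m) (Fin m) ℂ} (h : Ana M) :
    Differentiable ℂ fun z => (M z).trace := by
  simp only [Matrix.trace, Matrix.diag]
  exact Differentiable.fun_sum fun k _ => h k k

lemma ana_J (n : ℕ) : Ana (J n) := by
  intro i j
  simp only [J, Matrix.of_apply]
  split_ifs <;> fun_prop

/-- functional calculus: `f(J(z))` -/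
noncomputable def Fm (n : ℕ) (f : Polynomial ℂ) (z : ℂ) : Matrix (Fin (n+1)) (Fin (n+1)) ℂ :=
  Polynomial.aeval (J n z) f

lemma Fm_eq_sum (n : ℕ) (f : Polynomial ℂ) (z : ℂ) :
    Fm n f z = ∑ k ∈ Finset.range (f.natDegree + 1), f.coeff k • J n z ^ k := by
  unfold Fm
  rw [Polynomial.aeval_eq_sum_range]

lemma ana_Fm (n : ℕ) (f : Polynomial ℂ) : Ana (Fm n f) := by
  intro i j
  simp only [Fm_eq_sum, Matrix.sum_apply]
  exact Differentiable.fun_sum fun k _ => ((ana_J n).pow k).smul _ i j

lemma Fm_mul (n : ℕ) (f g : Polynomial ℂ) (z : ℂ) : Fm n (f * g) z = Fm n f z * Fm n g z := by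
  unfold Fm
  rw [map_mul]

lemma pow_mulVec {m : ℕ} (A : Matrix (Fin m) (Fin m) ℂ) (v : Fin m → ℂ) (c : ℂ)
    (h : A *ᵥ v = c • v) (k : ℕ) : (A ^ k) *ᵥ v = c ^ k • v := by
  induction k with
  | zero => simp
  | succ k ih =>
    rw [pow_succ, ← Matrix.mulVec_mulVec, h, Matrix.mulVec_smul, ih, smul_smul, pow_succ, mul_comm]

lemma sum_mulVec' {m : ℕ} {ι : Type} (s : Finset ι) (A : ι → Matrix (Fin m) (Fin m) ℂ) (v : Fin m → ℂ) :
    (∑ i ∈ s, A i) *ᵥ v = ∑ i ∈ s, A i *ᵥ v := by
  classical
  induction s using Finset.induction_on with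
  | empty => simp
  | insert a s ha ih => rw [Finset.sum_insert ha, Finset.sum_insert ha, Matrix.add_mulVec, ih]

lemma Fm_mulVec_u (n : ℕ) (f : Polynomial ℂ) (x : Circ) :
    (Fm n f (e ((n:ℤ)+1) x)) *ᵥ (u n x) = f.eval (e 1 x) • u n x := by
  rw [Fm_eq_sum, sum_mulVec', Polynomial.eval_eq_sum_range, Finset.sum_smul]
  refine Finset.sum_congr rfl fun k _ => ?_
  rw [Matrix.smul_mulVec, pow_mulVec _ _ _ (J_mulVec_u n x), smul_smul]

lemma FmH_mulVec_u (n : ℕ) (f : Polynomial ℂ) (x : Circ) :
    (Fm n f (e ((n:ℤ)+1) x))ᴴ *ᵥ (u n x) = conj (f.eval (e 1 x)) • u n x := by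
  rw [Fm_eq_sum, Matrix.conjTranspose_sum, sum_mulVec', Polynomial.eval_eq_sum_range, map_sum,
    Finset.sum_smul]
  refine Finset.sum_congr rfl fun k _ => ?_
  rw [Matrix.conjTranspose_smul, Matrix.conjTranspose_pow, Matrix.smul_mulVec,
    pow_mulVec _ _ _ (JH_mulVec_u n x), smul_smul, map_mul, map_pow]
  rfl

end Pool.Agent.Y112.HP
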