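import Mathlib
import Pool.Agent.Y112.HP.Mat

/-! Integrals over the circle: mean value property, and averages of `⟨M(z^(n+1)) u, u⟩`. -/

set_option autoImplicit false
open MeasureTheory Filter Topology
open scoped ComplexConjugate Matrix

namespace Pool.Agent.Y112.HP

open Pool.Agent.Helper418.FE

lemma int_circle {E : Type} [NormedAddCommGroup E] [NormedSpace ℝ E] (h : ℂ → E) :
    ∫ y, h (e 1 y) ∂μ = Real.circleAverage h 0 1 := by
  have h1 := AddCircle.integral_haarAddCircle (T := 2 * Real.pi) (f := fun y => h (e 1 y))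
  rw [show (∫ y, h (e 1 y) ∂μ) = ∫ t, h (e 1 t) ∂AddCircle.haarAddCircle from rfl, h1,
    ← AddCircle.intervalIntegral_preimage (2 * Real.pi) 0 (fun y => h (e 1 y))]
  unfold Real.circleAverage
  simp only [zero_add]
  congr 1
  refine intervalIntegral.integral_congr fun θ _ => ?_
  simp only [circleMap, Complex.ofReal_one, one_mul, zero_add]
  rw [e_one_coe]

lemma mv (h : ℂ → ℂ) (hh : DiffContOnCl ℂ h (Metric.ball 0 1)) :
    ∫ y, h (e 1 y) ∂μ = h 0 := by
  rw [int_circle]
  have := DiffContOnCl.circleAverage (c := 0) (R := 1) (f := h) (by simpa using hh)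
  exact this

lemma mv' (h : ℂ → ℂ) (hh : Differentiable ℂ h) : ∫ y, h (e 1 y) ∂μ = h 0 :=
  mv h hh.diffContOnCl

lemma e_nsmul (k : ℤ) (N : ℕ) (x : Circ) : e k (N • x) = e (N * k) x := by
  unfold e
  rw [fourier_apply, fourier_apply]
  congr 2
  rw [mul_comm (N:ℤ) k, mul_smul, natCast_zsmul]

lemma e_N (n : ℕ) (x : Circ) : e ((n:ℤ)+1) x = e 1 ((n+1) • x) := by
  rw [e_nsmul]
  congr 1
  push_cast
  ring

lemma cont_e : Continuous (fun x : Circ => e 1 x) := e_continuous 1

lemma int_nsmul {N : ℕ} (hN : N ≠ 0) {G : Circ → ℂ} (hG : Continuous G) :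
    ∫ y, G (N • y) ∂μ = ∫ y, G y ∂μ := by
  have h := mp_nsmul hN
  have h2 := integral_map (μ := μ) (φ := fun y : Circ => N • y) (f := G) h.measurable.aemeasurable (by
    rw [h.map_eq]; exact hG.aestronglyMeasurable)
  rw [h.map_eq] at h2
  exact h2.symm

lemma integrable_of_cont {E : Type*} [NormedAddCommGroup E] {G : Circ → E} (hG : Continuous G) :
    Integrable G μ :=
  Continuous.integrable_of_hasCompactSupport hG (HasCompactSupport.of_compactSpace _)

/-- matrix functions with continuous entries -/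
def Cont {m : ℕ} (M : ℂ → Matrix (Fin m) (Fin m) ℂ) : Prop := ∀ i j, Continuous fun z => M z i j

lemma Ana.cont {m : ℕ} {M : ℂ → Matrix (Fin m) (Fin m) ℂ} (h : Ana M) : Cont M :=
  fun i j => (h i j).continuous

lemma Cont.mul {m : ℕ} {M M' : ℂ → Matrix (Fin m) (Fin m) ℂ} (h : Cont M) (h' : Cont M') :
    Cont fun z => M z * M' z := by
  intro i j
  simp only [Matrix.mul_apply]
  exact continuous_finsetSum _ fun k _ => (h i k).mul (h' k j)

lemma Cont.sub {m : ℕ} {M M' : ℂ → Matrix (Fin m) (Fin m) ℂ} (h : Cont M) (h' : Cont M') :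
    Cont fun z => M z - M' z := fun i j => (h i j).sub (h' i j)

lemma Cont.add {m : ℕ} {M M' : ℂ → Matrix (Fin m) (Fin m) ℂ} (h : Cont M) (h' : Cont M') :
    Cont fun z => M z + M' z := fun i j => (h i j).add (h' i j)

lemma Cont.const {m : ℕ} (A : Matrix (Fin m) (Fin m) ℂ) : Cont fun _ => A :=
  fun _ _ => continuous_const

lemma Cont.conjTranspose {m : ℕ} {M : ℂ → Matrix (Fin m) (Fin m) ℂ} (h : Cont M) :
    Cont fun z => (M z)ᴴ := fun i j => by
  simp only [Matrix.conjTranspose_apply]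
  exact (h j i).star

lemma Cont.trace {m : ℕ} {M : ℂ → Matrix (Fin m) (Fin m) ℂ} (h : Cont M) :
    Continuous fun z => (M z).trace := by
  simp only [Matrix.trace, Matrix.diag]
  exact continuous_finsetSum _ fun k _ => h k k

/-- the quadratic form -/
noncomputable def qf {m : ℕ} (M : Matrix (Fin m) (Fin m) ℂ) (v : Fin m → ℂ) : ℂ :=
  ∑ i, conj (v i) * (M *ᵥ v) i

lemma qf_expand (n : ℕ) (M : Matrix (Fin (n+1)) (Fin (n+1)) ℂ) (x : Circ) :
    qf M (u n x) = ∑ i : Fin (n+1), ∑ j : Fin (n+1), e ((i.val:ℤ) - j.val) x * M i j := by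
  unfold qf
  refine Finset.sum_congr rfl fun i _ => ?_
  simp only [Matrix.mulVec, dotProduct, Finset.mul_sum]
  refine Finset.sum_congr rfl fun j _ => ?_
  unfold u
  rw [Complex.conj_conj, e_sub]
  ring

/-- the average of `⟨M(z^(n+1)) u, u⟩` over the circle is the average of the trace of `M` -/
lemma int_qf (n : ℕ) {M : ℂ → Matrix (Fin (n+1)) (Fin (n+1)) ℂ} (hM : Cont M) :
    ∫ x, qf (M (e ((n:ℤ)+1) x)) (u n x) ∂μ = ∫ y, (M (e 1 y)).trace ∂μ := by
  simp_rw [qf_expand, e_N]
  have hc : ∀ i j : Fin (n+1), Continuous fun y : Circ => M (e 1 y) i j := fun i j =>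
    (hM i j).comp cont_e
  have hN : Continuous fun x : Circ => (n+1) • x := continuous_nsmul _
  have hint : ∀ i j : Fin (n+1), Integrable (fun x : Circ => e ((i.val:ℤ) - j.val) x *
      M (e 1 ((n+1) • x)) i j) μ := fun i j =>
    integrable_of_cont ((e_continuous _).mul ((hc i j).comp hN))
  rw [integral_finsetSum _ fun i _ => integrable_finsetSum _ fun j _ => hint i j]
  have h1 : ∀ i : Fin (n+1), ∫ x, ∑ j : Fin (n+1), e ((i.val:ℤ) - j.val) x *
      M (e 1 ((n+1) • x)) i j ∂μ = ∫ y, M (e 1 y) i i ∂μ := by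
    intro i
    rw [integral_finsetSum _ fun j _ => hint i j, Finset.sum_eq_single i]
    · simp only [sub_self, e_zero, one_mul]
      exact int_nsmul (Nat.succ_ne_zero n) (hc i i)
    · intro j _ hj
      refine integral_e_gN (Nat.succ_ne_zero n) ?_ (fun y => M (e 1 y) i j)
      intro hd
      have h2 : ((i.val:ℤ) - j.val) ≠ 0 := by
        intro h
        apply hj
        exact Fin.ext (by omega)
      have h3 := Int.le_of_dvd (a := ((n+1:ℕ):ℤ)) (b := |(i.val:ℤ) - j.val|) (abs_pos.mpr h2)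
        ((dvd_abs _ _).mpr hd)
      have h4 := i.isLt
      have h5 := j.isLt
      have h6 : |(i.val:ℤ) - j.val| ≤ n := abs_le.mpr ⟨by omega, by omega⟩
      push_cast at h3
      omega
    · simp
  rw [Finset.sum_congr rfl fun i _ => h1 i, ← integral_finsetSum]
  · rfl
  · intro i _
    exact integrable_of_cont (hc i i)

end Pool.Agent.Y112.HP
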