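import Mathlib
import Pool.Agent.Y112.HP.Int
import Pool.Agent.Y112.HP.Defs

/-! Hardy spaces on the circle; density of polynomials. -/

set_option autoImplicit false
open MeasureTheory Filter Topology
open scoped ComplexConjugate

namespace Pool.Agent.Y112.HP

open Pool.Agent.Helper418.FE

lemma fourierCoeff_eq (f : Circ → ℂ) (k : ℤ) : fourierCoeff f k = ∫ y, e (-k) y * f y ∂μ := rfl

lemma memLp_integrable' {p : ℝ} (hp : 1 ≤ p) {E : Type*} [NormedAddCommGroup E] {f : Circ → E}
    (hf : MemLp f (ENNReal.ofReal p) μ) : Integrable f μ := by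
  refine hf.integrable ?_
  rw [← ENNReal.ofReal_one]
  exact ENNReal.ofReal_le_ofReal hp

/-- Fejér means in terms of the Fourier coefficients -/
lemma conv_fejer_coeff (m : ℕ) {f : Circ → ℂ} (hf : Integrable f μ) (x : Circ) :
    conv (fejer m) f x = ∑ k ∈ Finset.Icc (-(m : ℤ)) (m : ℤ),
      ((1 - |(k : ℝ)| / ((m : ℝ) + 1) : ℝ) : ℂ) * e k x * fourierCoeff f k := by
  unfold conv fejer
  have h1 : ∀ y, (∑ k ∈ Finset.Icc (-(m : ℤ)) (m : ℤ),
      ((1 - |(k : ℝ)| / ((m : ℝ) + 1) : ℝ) : ℂ) * fourier k (x - y)) * f y =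
      ∑ k ∈ Finset.Icc (-(m : ℤ)) (m : ℤ), (((1 - |(k : ℝ)| / ((m : ℝ) + 1) : ℝ) : ℂ) * e k x) *
        (e (-k) y * f y) := by
    intro y
    rw [Finset.sum_mul]
    refine Finset.sum_congr rfl fun k _ => ?_
    have := e_arg_sub k x y
    rw [← e_neg] at this
    unfold e at this ⊢
    rw [this]
    ring
  simp_rw [h1]
  rw [integral_finsetSum]
  · refine Finset.sum_congr rfl fun k _ => ?_
    rw [integral_const_mul, fourierCoeff_eq]
  · intro k _
    refine Integrable.const_mul ?_ _
    refine hf.bdd_mul (c := 1) (e_continuous _).aestronglyMeasurable ?_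
    exact Filter.Eventually.of_forall fun y => (norm_e _ _).le

lemma fourierCoeff_e (j k : ℤ) : fourierCoeff (e j) k = if j = k then 1 else 0 := by
  rw [fourierCoeff_eq]
  simp_rw [← e_add]
  rw [integral_e]
  by_cases h : j = k
  · subst h
    simp
  · rw [if_neg h, if_neg]
    intro h'
    apply h
    omega

lemma conv_fejer_e {m : ℕ} {k : ℤ} (hk : |k| ≤ m) (x : Circ) :
    conv (fejer m) (e k) x = ((1 - |(k : ℝ)| / ((m : ℝ) + 1) : ℝ) : ℂ) * e k x := by
  rw [conv_fejer_coeff m (integrable_of_cont (e_continuous k)), Finset.sum_eq_single k]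
  · rw [fourierCoeff_e, if_pos rfl, mul_one]
  · intro j _ hj
    rw [fourierCoeff_e, if_neg (Ne.symm hj), mul_zero]
  · intro h
    exact absurd (Finset.mem_Icc.mpr (abs_le.mp hk)) h

lemma conv_fejer_add (m : ℕ) {f g : Circ → ℂ} (hf : Integrable f μ) (hg : Integrable g μ) (x : Circ) :
    conv (fejer m) (fun y => f y + g y) x = conv (fejer m) f x + conv (fejer m) g x := by
  simp_rw [conv_fejer]
  rw [← integral_add (conv_integrable (kR_continuous m) hf x) (conv_integrable (kR_continuous m) hg x)]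
  congr 1
  funext y
  rw [smul_add]

lemma conv_fejer_smul (m : ℕ) (c : ℂ) {f : Circ → ℂ} (x : Circ) :
    conv (fejer m) (fun y => c * f y) x = c * conv (fejer m) f x := by
  unfold conv
  rw [← integral_const_mul]
  congr 1
  funext y
  ring

lemma conv_fejer_sub (m : ℕ) {f g : Circ → ℂ} (hf : Integrable f μ) (hg : Integrable g μ) (x : Circ) :
    conv (fejer m) (fun y => f y - g y) x = conv (fejer m) f x - conv (fejer m) g x := by
  simp_rw [conv_fejer]
  rw [← integral_sub (conv_integrable (kR_continuous m) hf x) (conv_integrable (kR_continuous m) hg x)]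
  congr 1
  funext y
  rw [smul_sub]

/-- uniform convergence of the Fejér means of trigonometric polynomials -/
lemma trig_unif (g : C(Circ, ℂ)) (hg : g ∈ Submodule.span ℂ (Set.range (@fourier (2 * Real.pi)))) :
    ∀ ε : ℝ, 0 < ε → ∀ᶠ m : ℕ in atTop, ∀ x, ‖g x - conv (fejer m) g x‖ ≤ ε := by
  induction hg using Submodule.span_induction with
  | mem g hg =>
    obtain ⟨k, rfl⟩ := hg
    intro ε hε
    have h1 : Tendsto (fun m : ℕ => |(k:ℝ)| / ((m:ℝ) + 1)) atTop (𝓝 0) :=
      Tendsto.const_div_atTop (tendsto_atTop_add_const_right _ 1 tendsto_natCast_atTop_atTop) _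
    filter_upwards [h1.eventually (gt_mem_nhds hε), eventually_ge_atTop k.natAbs] with m hm hk x
    have hk' : |k| ≤ m := by
      rw [Int.abs_eq_natAbs]
      exact_mod_cast hk
    have h2 : conv (fejer m) (fourier k) x = ((1 - |(k : ℝ)| / ((m : ℝ) + 1) : ℝ) : ℂ) * e k x :=
      conv_fejer_e hk' x
    have h3 : (fourier k : C(Circ, ℂ)) x = e k x := rfl
    rw [h2, h3]
    have h4 : e k x - ((1 - |(k : ℝ)| / ((m : ℝ) + 1) : ℝ) : ℂ) * e k x =
        ((|(k : ℝ)| / ((m : ℝ) + 1) : ℝ) : ℂ) * e k x := by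
      push_cast
      ring
    rw [h4, norm_mul, norm_e, mul_one, Complex.norm_real, Real.norm_of_nonneg (by positivity)]
    exact hm.le
  | zero =>
    intro ε hε
    refine Filter.Eventually.of_forall fun m x => ?_
    simp only [ContinuousMap.coe_zero, Pi.zero_apply, conv, mul_zero, integral_zero, sub_zero,
      norm_zero]
    exact hε.le
  | add f g _ _ hf hg =>
    intro ε hε
    filter_upwards [hf (ε/2) (by linarith), hg (ε/2) (by linarith)] with m h1 h2 x
    have h3 : conv (fejer m) (f + g : C(Circ, ℂ)) x = conv (fejer m) f x + conv (fejer m) g x :=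
      conv_fejer_add m (integrable_of_cont f.continuous) (integrable_of_cont g.continuous) x
    rw [h3, ContinuousMap.add_apply]
    calc ‖f x + g x - (conv (fejer m) f x + conv (fejer m) g x)‖
        = ‖(f x - conv (fejer m) f x) + (g x - conv (fejer m) g x)‖ := by congr 1; ring
      _ ≤ ‖f x - conv (fejer m) f x‖ + ‖g x - conv (fejer m) g x‖ := norm_add_le _ _
      _ ≤ ε := by linarith [h1 x, h2 x]
  | smul c f _ hf =>
    intro ε hε
    have hc : 0 < ‖c‖ + 1 := by positivity
    filter_upwards [hf (ε / (‖c‖ + 1)) (by positivity)] with m h1 x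
    have h3 : conv (fejer m) (c • f : C(Circ, ℂ)) x = c * conv (fejer m) f x :=
      conv_fejer_smul m c x
    rw [h3, ContinuousMap.smul_apply, smul_eq_mul, ← mul_sub, norm_mul]
    calc ‖c‖ * ‖f x - conv (fejer m) f x‖ ≤ (‖c‖ + 1) * (ε / (‖c‖ + 1)) :=
          mul_le_mul (by linarith) (h1 x) (norm_nonneg _) hc.le
      _ = ε := by field_simp

/-- `L¹` bound -/
lemma conv_fejer_one (n : ℕ) {f : Circ → ℂ} (hf : Integrable f μ) :
    ∫⁻ x, ‖conv (fejer n) f x‖ₑ ∂μ ≤ ∫⁻ x, ‖f x‖ₑ ∂μ := by
  have h1 : ∀ x, ‖conv (fejer n) f x‖ₑ ≤ ∫⁻ y, ENNReal.ofReal (kR n (x - y)) * ‖f y‖ₑ ∂μ := by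
    intro x
    rw [conv_fejer]
    refine (enorm_integral_le_lintegral_enorm _).trans (le_of_eq ?_)
    refine lintegral_congr fun y => ?_
    rw [enorm_smul, Real.enorm_eq_ofReal (kR_nonneg n _)]
  refine (lintegral_mono h1).trans ?_
  rw [lintegral_lintegral_swap]
  · refine le_of_eq (lintegral_congr fun y => ?_)
    rw [lintegral_mul_const' _ _ enorm_ne_top]
    have h2 : ∫⁻ x, ENNReal.ofReal (kR n (x - y)) ∂μ = 1 := by
      have h3 : Integrable (fun x => kR n (x - y)) μ :=
        integrable_of_cont ((kR_continuous n).comp (continuous_id.sub continuous_const))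
      rw [← ofReal_integral_eq_lintegral_ofReal h3 (Filter.Eventually.of_forall fun x => kR_nonneg n _),
        integral_sub_right_eq_self (kR n) y, kR_integral, ENNReal.ofReal_one]
    rw [h2, one_mul]
  · have h3 : Continuous (fun z : Circ × Circ => kR n (z.1 - z.2)) :=
      (kR_continuous n).comp (continuous_fst.sub continuous_snd)
    exact (h3.measurable.ennreal_ofReal.aemeasurable).mul (hf.1.enorm.comp_snd)

/-- the Fejér operators are uniformly bounded -/
lemma fejer_unif {p : ℝ} (hp : 1 ≤ p) : ∃ B : ℝ, 0 ≤ B ∧ ∀ (n : ℕ) (f : Circ → ℂ),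
    MemLp f (ENNReal.ofReal p) μ → eLpNorm (fun x => f x - conv (fejer n) f x) (ENNReal.ofReal p) μ ≤
      ENNReal.ofReal B * eLpNorm f (ENNReal.ofReal p) μ := by
  rcases hp.lt_or_eq with hp' | hp'
  · exact ⟨C p, by linarith [one_le_C hp'], fun n f hf => fejer_upper hp' n f hf⟩
  · subst hp'
    refine ⟨2, by norm_num, fun n f hf => ?_⟩
    have hfi := memLp_integrable' le_rfl hf
    rw [ENNReal.ofReal_one] at hf ⊢
    refine (eLpNorm_sub_le hf.1 (conv_fejer_continuous n hfi).aestronglyMeasurable le_rfl).trans ?_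
    have h1 : eLpNorm (conv (fejer n) f) 1 μ ≤ eLpNorm f 1 μ := by
      rw [eLpNorm_one_eq_lintegral_enorm, eLpNorm_one_eq_lintegral_enorm]
      exact conv_fejer_one n hfi
    calc eLpNorm f 1 μ + eLpNorm (conv (fejer n) f) 1 μ ≤ eLpNorm f 1 μ + eLpNorm f 1 μ := by gcongr
      _ = ENNReal.ofReal 2 * eLpNorm f 1 μ := by
        rw [ENNReal.ofReal_ofNat]
        exact (two_mul _).symm

/-- the Fejér means converge in `L^p` -/
lemma fejer_tendsto {p : ℝ} (hp : 1 ≤ p) {f : Circ → ℂ} (hf : MemLp f (ENNReal.ofReal p) μ)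
    {ε : ENNReal} (hε : ε ≠ 0) :
    ∃ m : ℕ, eLpNorm (fun x => f x - conv (fejer m) f x) (ENNReal.ofReal p) μ ≤ ε := by
  obtain ⟨B, hB0, hB⟩ := fejer_unif hp
  have hp1 : 1 ≤ ENNReal.ofReal p := by
    rw [← ENNReal.ofReal_one]
    exact ENNReal.ofReal_le_ofReal hp
  by_cases htop : ε = ⊤
  · exact ⟨0, by rw [htop]; exact le_top⟩
  obtain ⟨δ, rfl⟩ : ∃ δ : ℝ, ε = ENNReal.ofReal δ := ⟨ε.toReal, (ENNReal.ofReal_toReal htop).symm⟩
  have hδ : 0 < δ := by
    by_contra h
    exact hε (ENNReal.ofReal_eq_zero.mpr (not_lt.mp h))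
  -- continuous approximation
  set η : ℝ := δ / (3 * (B + 1)) with hη
  have hη0 : 0 < η := by positivity
  obtain ⟨g₀, hg₀, -⟩ := hf.exists_boundedContinuous_eLpNorm_sub_le ENNReal.ofReal_ne_top
    (ε := ENNReal.ofReal η) (by simpa using hη0)
  have hcl : g₀.toContinuousMap ∈ closure ((Submodule.span ℂ (Set.range (@fourier (2 * Real.pi))) :
      Submodule ℂ C(Circ, ℂ)) : Set C(Circ, ℂ)) := by
    have h1 := span_fourier_closure_eq_top (T := 2 * Real.pi)
    have h2 : g₀.toContinuousMap ∈ (Submodule.span ℂ (Set.range (@fourier (2 * Real.pi)))).topologicalClosure := by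
      rw [h1]
      trivial
    exact h2
  obtain ⟨g, hg, hd⟩ := Metric.mem_closure_iff.mp hcl η hη0
  obtain ⟨m, hm⟩ := (trig_unif g hg η hη0).exists
  refine ⟨m, ?_⟩
  have hfi := memLp_integrable' hp hf
  have hgc : Continuous g := g.continuous
  have hgm : MemLp g (ENNReal.ofReal p) μ := by
    obtain ⟨M, hM⟩ := (isCompact_univ (X := Circ)).exists_bound_of_continuousOn (f := g) hgc.continuousOn
    exact MemLp.of_bound hgc.aestronglyMeasurable M (Filter.Eventually.of_forall fun x => hM x (Set.mem_univ x))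
  have hg₀c : Continuous g₀ := g₀.continuous
  have hfg : eLpNorm (fun x => f x - g x) (ENNReal.ofReal p) μ ≤ ENNReal.ofReal (2 * η) := by
    have h1 : (fun x => f x - g x) = (f - (g₀ : Circ → ℂ)) + (fun x => g₀ x - g x) := by
      funext x
      simp
    rw [h1]
    refine (eLpNorm_add_le (hf.1.sub hg₀c.aestronglyMeasurable)
      (hg₀c.sub hgc).aestronglyMeasurable hp1).trans ?_
    have h2 : eLpNorm (fun x => g₀ x - g x) (ENNReal.ofReal p) μ ≤ ENNReal.ofReal η := by
      have h3 := eLpNorm_le_of_ae_bound (p := ENNReal.ofReal p) (μ := μ)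
        (f := fun x : Circ => g₀ x - g x) (C := η) (Filter.Eventually.of_forall fun x => by
          rw [← dist_eq_norm]
          exact (ContinuousMap.dist_apply_le_dist (f := g₀.toContinuousMap) (g := g) x).trans hd.le)
      simpa using h3
    calc eLpNorm (f - (g₀ : Circ → ℂ)) (ENNReal.ofReal p) μ + eLpNorm (fun x => g₀ x - g x) (ENNReal.ofReal p) μ
        ≤ ENNReal.ofReal η + ENNReal.ofReal η := add_le_add hg₀ h2
      _ = ENNReal.ofReal (2 * η) := by
        rw [← ENNReal.ofReal_add hη0.le hη0.le]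
        congr 1
        ring
  have hsub : (fun x => f x - conv (fejer m) f x) =
      (fun x => (fun y => f y - g y) x - conv (fejer m) (fun y => f y - g y) x) +
        (fun x => g x - conv (fejer m) g x) := by
    funext x
    simp only [Pi.add_apply]
    rw [conv_fejer_sub m hfi (integrable_of_cont hgc)]
    ring
  have hfgm : MemLp (fun y => f y - g y) (ENNReal.ofReal p) μ := hf.sub hgm
  rw [hsub]
  refine (eLpNorm_add_le ?_ ?_ hp1).trans ?_
  · exact hfgm.1.sub (conv_fejer_continuous m (memLp_integrable' hp hfgm)).aestronglyMeasurable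
  · exact (hgc.sub (conv_fejer_continuous m (integrable_of_cont hgc))).aestronglyMeasurable
  · have h2 := hB m _ hfgm
    have h3 : eLpNorm (fun x => g x - conv (fejer m) g x) (ENNReal.ofReal p) μ ≤ ENNReal.ofReal η := by
      have h3 := eLpNorm_le_of_ae_bound (p := ENNReal.ofReal p) (μ := μ)
        (f := fun x : Circ => g x - conv (fejer m) g x) (C := η) (Filter.Eventually.of_forall hm)
      simpa using h3
    calc _ ≤ ENNReal.ofReal B * ENNReal.ofReal (2 * η) + ENNReal.ofReal η := by
          refine add_le_add (h2.trans ?_) h3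
          gcongr
      _ ≤ ENNReal.ofReal δ := by
          rw [← ENNReal.ofReal_mul hB0, ← ENNReal.ofReal_add (by positivity) hη0.le]
          refine ENNReal.ofReal_le_ofReal ?_
          have h5 : δ = 3 * (B + 1) * η := by
            rw [hη]
            field_simp
          rw [h5]
          nlinarith

/-- polynomials are dense in `H^p` -/
lemma exists_poly {p : ℝ} (hp : 1 ≤ p) {f : Circ → ℂ} (hf : InHardy (ENNReal.ofReal p) f)
    {ε : ENNReal} (hε : ε ≠ 0) :
    ∃ P : Polynomial ℂ, eLpNorm (fun x => f x - P.eval (e 1 x)) (ENNReal.ofReal p) μ ≤ ε := by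
  obtain ⟨m, hm⟩ := fejer_tendsto hp hf.1 hε
  have hfi := memLp_integrable' hp hf.1
  refine ⟨∑ k ∈ Finset.range (m+1), Polynomial.C (((1 - |((k:ℤ) : ℝ)| / ((m : ℝ) + 1) : ℝ) : ℂ) *
    fourierCoeff f k) * Polynomial.X ^ k, ?_⟩
  have h1 : ∀ x, (∑ k ∈ Finset.range (m+1), Polynomial.C (((1 - |((k:ℤ) : ℝ)| / ((m : ℝ) + 1) : ℝ) : ℂ) *
    fourierCoeff f k) * Polynomial.X ^ k).eval (e 1 x) = conv (fejer m) f x := by
    intro x
    rw [conv_fejer_coeff m hfi, Polynomial.eval_finsetSum]
    have hpow : ∀ k : ℕ, (e 1 x) ^ k = e (k:ℤ) x := by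
      intro k
      induction k with
      | zero => simp [e_zero]
      | succ k ih =>
        rw [pow_succ, ih, ← e_add]
        push_cast
        rfl
    have h2 : ∑ k ∈ Finset.Icc (-(m : ℤ)) (m : ℤ),
        ((1 - |(k : ℝ)| / ((m : ℝ) + 1) : ℝ) : ℂ) * e k x * fourierCoeff f k =
        ∑ k ∈ (Finset.range (m+1)).map (Nat.castEmbedding (R := ℤ)),
        ((1 - |(k : ℝ)| / ((m : ℝ) + 1) : ℝ) : ℂ) * e k x * fourierCoeff f k := by
      symm
      refine Finset.sum_subset ?_ ?_
      · intro k hk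
        simp only [Finset.mem_map, Finset.mem_range, Nat.castEmbedding_apply] at hk
        obtain ⟨a, ha, rfl⟩ := hk
        rw [Finset.mem_Icc]
        omega
      · intro k hk hk'
        have : k < 0 := by
          by_contra h
          apply hk'
          simp only [Finset.mem_map, Finset.mem_range, Nat.castEmbedding_apply]
          rw [Finset.mem_Icc] at hk
          exact ⟨k.toNat, by omega, by omega⟩
        rw [hf.2 k this, mul_zero]
    rw [h2, Finset.sum_map]
    refine Finset.sum_congr rfl fun k _ => ?_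
    simp only [Polynomial.eval_mul, Polynomial.eval_C, Polynomial.eval_pow, Polynomial.eval_X,
      Nat.castEmbedding_apply]
    rw [hpow]
    ring
  simp_rw [h1]
  exact hm

end Pool.Agent.Y112.HP
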