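import Mathlib
import Pool.Agent.Y112.HP.Int

/-! Quadratic quantities and the Fejér mean of a polynomial in terms of the matrices. -/

set_option autoImplicit false
open MeasureTheory Filter Topology
open scoped ComplexConjugate Matrix

namespace Pool.Agent.Y112.HP

open Pool.Agent.Helper418.FE

/-- squared norm of a vector -/
noncomputable def sqn {m : ℕ} (v : Fin m → ℂ) : ℝ := ∑ i, ‖v i‖ ^ 2

/-- squared Hilbert-Schmidt norm -/
noncomputable def hs {m : ℕ} (A : Matrix (Fin m) (Fin m) ℂ) : ℝ := ∑ i, ∑ j, ‖A i j‖ ^ 2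

lemma sqn_nonneg {m : ℕ} (v : Fin m → ℂ) : 0 ≤ sqn v := Finset.sum_nonneg fun _ _ => by positivity

lemma hs_nonneg {m : ℕ} (A : Matrix (Fin m) (Fin m) ℂ) : 0 ≤ hs A :=
  Finset.sum_nonneg fun _ _ => Finset.sum_nonneg fun _ _ => by positivity

lemma hs_conjTranspose {m : ℕ} (A : Matrix (Fin m) (Fin m) ℂ) : hs Aᴴ = hs A := by
  unfold hs
  rw [Finset.sum_comm]
  simp [Matrix.conjTranspose_apply]

lemma hs_eq_trace {m : ℕ} (A : Matrix (Fin m) (Fin m) ℂ) : ((hs A : ℝ) : ℂ) = (Aᴴ * A).trace := by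
  unfold hs
  simp only [Matrix.trace, Matrix.diag, Matrix.mul_apply, Matrix.conjTranspose_apply]
  rw [Finset.sum_comm]
  push_cast
  refine Finset.sum_congr rfl fun i _ => Finset.sum_congr rfl fun j _ => ?_
  rw [RCLike.star_def, mul_comm, Complex.mul_conj, Complex.normSq_eq_norm_sq]
  push_cast
  rfl

lemma sqn_eq_qf {m : ℕ} (A : Matrix (Fin m) (Fin m) ℂ) (v : Fin m → ℂ) :
    ((sqn (A *ᵥ v) : ℝ) : ℂ) = qf (Aᴴ * A) v := by
  have h1 : qf (Aᴴ * A) v = star v ⬝ᵥ ((Aᴴ * A) *ᵥ v) := rfl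
  rw [h1, ← Matrix.mulVec_mulVec, Matrix.dotProduct_mulVec, ← Matrix.star_mulVec]
  unfold sqn
  simp only [dotProduct, Pi.star_apply, RCLike.star_def]
  push_cast
  refine Finset.sum_congr rfl fun i _ => ?_
  rw [mul_comm, Complex.mul_conj, Complex.normSq_eq_norm_sq]
  push_cast
  rfl

lemma sqn_smul {m : ℕ} (c : ℂ) (v : Fin m → ℂ) : sqn (c • v) = ‖c‖ ^ 2 * sqn v := by
  unfold sqn
  rw [Finset.mul_sum]
  refine Finset.sum_congr rfl fun i _ => ?_
  rw [Pi.smul_apply, smul_eq_mul, norm_mul, mul_pow]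

lemma sqn_u (n : ℕ) (x : Circ) : sqn (u n x) = (n:ℝ) + 1 := by
  unfold sqn u
  simp [norm_e]

lemma Cont.hs {m : ℕ} {M : ℂ → Matrix (Fin m) (Fin m) ℂ} (h : Cont M) :
    Continuous fun z => hs (M z) := by
  unfold HP.hs
  exact continuous_finsetSum _ fun i _ => continuous_finsetSum _ fun j _ => (h i j).norm.pow 2

lemma u_continuous (n : ℕ) (k : Fin (n+1)) : Continuous fun x => u n x k :=
  Complex.continuous_conj.comp (e_continuous _)

lemma mulVec_continuous (n : ℕ) {M : ℂ → Matrix (Fin (n+1)) (Fin (n+1)) ℂ} (hM : Cont M) (i : Fin (n+1)) :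
    Continuous fun x : Circ => (M (e ((n:ℤ)+1) x) *ᵥ u n x) i := by
  simp only [Matrix.mulVec, dotProduct]
  exact continuous_finsetSum _ fun j _ => ((hM i j).comp (e_continuous _)).mul (u_continuous n j)

lemma sqn_continuous (n : ℕ) {M : ℂ → Matrix (Fin (n+1)) (Fin (n+1)) ℂ} (hM : Cont M) :
    Continuous fun x : Circ => sqn (M (e ((n:ℤ)+1) x) *ᵥ u n x) := by
  unfold sqn
  exact continuous_finsetSum _ fun i _ => (mulVec_continuous n hM i).norm.pow 2

lemma int_sqn (n : ℕ) {M : ℂ → Matrix (Fin (n+1)) (Fin (n+1)) ℂ} (hM : Cont M) :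
    ∫ x, sqn (M (e ((n:ℤ)+1) x) *ᵥ u n x) ∂μ = ∫ y, hs (M (e 1 y)) ∂μ := by
  have h := int_qf n (M := fun z => (M z)ᴴ * M z) (hM.conjTranspose.mul hM)
  simp_rw [← sqn_eq_qf, ← hs_eq_trace] at h
  rw [integral_complex_ofReal, integral_complex_ofReal] at h
  exact_mod_cast h

lemma int_sqnH (n : ℕ) {M : ℂ → Matrix (Fin (n+1)) (Fin (n+1)) ℂ} (hM : Cont M) :
    ∫ x, sqn ((M (e ((n:ℤ)+1) x))ᴴ *ᵥ u n x) ∂μ = ∫ y, hs (M (e 1 y)) ∂μ := by
  have h := int_sqn n (M := fun z => (M z)ᴴ) hM.conjTranspose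
  simp_rw [hs_conjTranspose] at h
  exact h

lemma int_entry {m : ℕ} {M : ℂ → Matrix (Fin m) (Fin m) ℂ} (h : Ana M) (i j : Fin m) :
    ∫ y, M (e 1 y) i j ∂μ = M 0 i j := mv' _ (h i j)

lemma norm_sq_add_smul (a b : ℂ) (s : ℝ) :
    ‖a + s * b‖ ^ 2 = ‖a‖ ^ 2 + s ^ 2 * ‖b‖ ^ 2 + 2 * s * (conj b * a).re := by
  rw [← Complex.normSq_eq_norm_sq, ← Complex.normSq_eq_norm_sq, ← Complex.normSq_eq_norm_sq,
    Complex.normSq_apply, Complex.normSq_apply, Complex.normSq_apply]
  simp only [Complex.add_re, Complex.add_im, Complex.mul_re, Complex.mul_im, Complex.ofReal_re,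
    Complex.ofReal_im, Complex.conj_re, Complex.conj_im]
  ring

/-- `∫ ‖F(z) + s F(0)‖² = ∫ ‖F‖² + (s² + 2s) ‖F(0)‖²` -/
lemma int_hs_add {m : ℕ} {M : ℂ → Matrix (Fin m) (Fin m) ℂ} (h : Ana M) (s : ℝ) :
    ∫ y, hs (M (e 1 y) + (s:ℂ) • M 0) ∂μ = ∫ y, hs (M (e 1 y)) ∂μ + (s ^ 2 + 2 * s) * hs (M 0) := by
  have hc : ∀ i j, Continuous fun y : Circ => M (e 1 y) i j := fun i j => (h.cont i j).comp cont_e
  have h1 : ∀ i j : Fin m, ∫ y, ‖(M (e 1 y) + (s:ℂ) • M 0) i j‖ ^ 2 ∂μ =
      ∫ y, ‖M (e 1 y) i j‖ ^ 2 ∂μ + (s ^ 2 + 2 * s) * ‖M 0 i j‖ ^ 2 := by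
    intro i j
    simp only [Matrix.add_apply, Matrix.smul_apply, smul_eq_mul, norm_sq_add_smul]
    have hre : ∫ y, (conj (M 0 i j) * M (e 1 y) i j).re ∂μ = ‖M 0 i j‖ ^ 2 := by
      have h2 : ∫ y, (conj (M 0 i j) * M (e 1 y) i j) ∂μ = conj (M 0 i j) * M 0 i j := by
        rw [integral_const_mul, int_entry h]
      have h3 := integral_re (μ := μ) (f := fun y => conj (M 0 i j) * M (e 1 y) i j)
        (integrable_of_cont (continuous_const.mul (hc i j)))
      have h4 : ∫ y, (conj (M 0 i j) * M (e 1 y) i j).re ∂μ =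
          (∫ y, (conj (M 0 i j) * M (e 1 y) i j) ∂μ).re := h3
      rw [h4, h2, mul_comm, Complex.mul_conj, Complex.normSq_eq_norm_sq, Complex.ofReal_re]
    rw [integral_add, integral_add, integral_const_mul, integral_const_mul, hre]
    · simp only [integral_const, probReal_univ, smul_eq_mul, one_mul]
      ring
    · exact integrable_of_cont ((hc i j).norm.pow 2)
    · exact integrable_of_cont continuous_const
    · exact integrable_of_cont (((hc i j).norm.pow 2).add continuous_const)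
    · exact integrable_of_cont (continuous_const.mul (Complex.continuous_re.comp
        (continuous_const.mul (hc i j))))
  unfold hs
  have hcs : ∀ i j : Fin m, Integrable (fun y : Circ => ‖(M (e 1 y) + (s:ℂ) • M 0) i j‖ ^ 2) μ := by
    intro i j
    refine integrable_of_cont ?_
    simp only [Matrix.add_apply]
    exact ((hc i j).add continuous_const).norm.pow 2
  have hcs2 : ∀ i j : Fin m, Integrable (fun y : Circ => ‖M (e 1 y) i j‖ ^ 2) μ := fun i j =>
    integrable_of_cont ((hc i j).norm.pow 2)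
  rw [integral_finsetSum _ fun i _ => integrable_finsetSum _ fun j _ => hcs i j,
    integral_finsetSum _ fun i _ => integrable_finsetSum _ fun j _ => hcs2 i j, Finset.mul_sum,
    ← Finset.sum_add_distrib]
  refine Finset.sum_congr rfl fun i _ => ?_
  rw [integral_finsetSum _ fun j _ => hcs i j, integral_finsetSum _ fun j _ => hcs2 i j,
    Finset.mul_sum, ← Finset.sum_add_distrib]
  exact Finset.sum_congr rfl fun j _ => h1 i j

/-- the entries of `f(J(0))` are Fourier coefficients of `f` -/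
lemma Fm_zero_entry (n : ℕ) (f : Polynomial ℂ) (i j : Fin (n+1)) :
    Fm n f 0 i j = ∫ y, e ((j.val:ℤ) - i.val) y * f.eval (e 1 y) ∂μ := by
  have hc : ∀ i j, Continuous fun y : Circ => Fm n f (e 1 y) i j := fun i j =>
    ((ana_Fm n f).cont i j).comp cont_e
  have hN : Continuous fun x : Circ => (n+1) • x := continuous_nsmul _
  have h1 : ∀ y : Circ, e ((j.val:ℤ) - i.val) y * f.eval (e 1 y) =
      ∑ k : Fin (n+1), e ((j.val:ℤ) - k.val) y * Fm n f (e 1 ((n+1) • y)) i k := by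
    intro y
    have h2 := congrFun (Fm_mulVec_u n f y) i
    simp only [Matrix.mulVec, dotProduct, Pi.smul_apply, smul_eq_mul] at h2
    calc e ((j.val:ℤ) - i.val) y * f.eval (e 1 y)
        = e (j.val:ℤ) y * (f.eval (e 1 y) * u n y i) := by
          unfold u
          rw [e_sub]
          ring
      _ = ∑ k : Fin (n+1), e ((j.val:ℤ) - k.val) y * Fm n f (e 1 ((n+1) • y)) i k := by
          rw [← h2, Finset.mul_sum, ← e_N]
          refine Finset.sum_congr rfl fun k _ => ?_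
          unfold u
          rw [e_sub]
          ring
  simp_rw [h1]
  have hint : ∀ k : Fin (n+1), Integrable (fun y : Circ => e ((j.val:ℤ) - k.val) y *
      Fm n f (e 1 ((n+1) • y)) i k) μ := fun k =>
    integrable_of_cont ((e_continuous _).mul ((hc i k).comp hN))
  rw [integral_finsetSum _ fun k _ => hint k, Finset.sum_eq_single j]
  · simp only [sub_self, e_zero, one_mul]
    rw [int_nsmul (Nat.succ_ne_zero n) (hc i j)]
    exact (int_entry (ana_Fm n f) i j).symm
  · intro k _ hk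
    refine integral_e_gN (Nat.succ_ne_zero n) ?_ (fun y => Fm n f (e 1 y) i k)
    intro hd
    have h2 : ((j.val:ℤ) - k.val) ≠ 0 := by
      intro h
      apply hk
      exact Fin.ext (by omega)
    have h3 := Int.le_of_dvd (a := ((n+1:ℕ):ℤ)) (b := |(j.val:ℤ) - k.val|) (abs_pos.mpr h2)
      ((dvd_abs _ _).mpr hd)
    have h4 := k.isLt
    have h5 := j.isLt
    have h6 : |(j.val:ℤ) - k.val| ≤ n := abs_le.mpr ⟨by omega, by omega⟩
    push_cast at h3
    omega
  · simp

lemma poly_continuous (f : Polynomial ℂ) : Continuous fun y : Circ => f.eval (e 1 y) :=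
  f.continuous.comp cont_e

/-- the Fejér mean of a polynomial -/
lemma conv_fejer_poly (n : ℕ) (f : Polynomial ℂ) (x : Circ) :
    ((n:ℂ) + 1) * conv (fejer n) (fun y => f.eval (e 1 y)) x = qf (Fm n f 0) (u n x) := by
  have hn : ((n:ℂ) + 1) ≠ 0 := by exact_mod_cast Nat.succ_ne_zero n
  rw [qf_expand]
  unfold conv
  have h1 : ∀ y, fejer n (x - y) * f.eval (e 1 y) = ((n:ℂ)+1)⁻¹ * ∑ i : Fin (n+1), ∑ j : Fin (n+1),
      e ((i.val:ℤ) - j.val) x * (e ((j.val:ℤ) - i.val) y * f.eval (e 1 y)) := by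
    intro y
    rw [fejer_eq]
    unfold kR
    rw [Complex.ofReal_div, normSq_sum]
    push_cast
    rw [div_eq_mul_inv, mul_comm (∑ j ∈ Finset.range (n+1), _), mul_assoc, Finset.sum_mul]
    congr 1
    rw [Finset.sum_range]
    refine Finset.sum_congr rfl fun i _ => ?_
    rw [Finset.sum_range, Finset.sum_mul]
    refine Finset.sum_congr rfl fun j _ => ?_
    rw [e_arg_sub, ← e_neg]
    rw [neg_sub]
    ring
  simp_rw [h1]
  rw [integral_const_mul, ← mul_assoc, mul_inv_cancel₀ hn, one_mul]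
  have hint : ∀ i j : Fin (n+1), Integrable (fun y : Circ => e ((i.val:ℤ) - j.val) x *
      (e ((j.val:ℤ) - i.val) y * f.eval (e 1 y))) μ := fun i j =>
    integrable_of_cont (continuous_const.mul ((e_continuous _).mul (poly_continuous f)))
  rw [integral_finsetSum _ fun i _ => integrable_finsetSum _ fun j _ => hint i j]
  refine Finset.sum_congr rfl fun i _ => ?_
  rw [integral_finsetSum _ fun j _ => hint i j]
  refine Finset.sum_congr rfl fun j _ => ?_
  rw [integral_const_mul, Fm_zero_entry]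

end Pool.Agent.Y112.HP
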