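import Mathlib
import Pool.Agent.Y112.HP.Quad

/-! The inequality for `p = 1` and products of two polynomials. -/

set_option autoImplicit false
open MeasureTheory Filter Topology
open scoped ComplexConjugate Matrix

namespace Pool.Agent.Y112.HP

open Pool.Agent.Helper418.FE

lemma ip_le {m : ℕ} (a b : Fin m → ℂ) {t : ℝ} (ht : 0 < t) :
    ‖∑ i, conj (b i) * a i‖ ≤ (t * sqn b + sqn a / t) / 2 := by
  have h1 : ‖∑ i, conj (b i) * a i‖ ≤ ∑ i, (t * ‖b i‖ ^ 2 + ‖a i‖ ^ 2 / t) / 2 := by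
    refine (norm_sum_le _ _).trans (Finset.sum_le_sum fun i _ => ?_)
    rw [norm_mul, RCLike.norm_conj]
    have h2 : 0 ≤ (t * ‖b i‖ - ‖a i‖) ^ 2 / t := by positivity
    have h3 : (t * ‖b i‖ - ‖a i‖) ^ 2 / t = t * ‖b i‖ ^ 2 + ‖a i‖ ^ 2 / t - 2 * (‖b i‖ * ‖a i‖) := by
      field_simp
      ring
    linarith
  refine h1.trans (le_of_eq ?_)
  unfold sqn
  rw [Finset.mul_sum, Finset.sum_div, ← Finset.sum_add_distrib, Finset.sum_div]

/-- the four vectors -/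
noncomputable def va (n : ℕ) (q : Polynomial ℂ) (s : ℝ) (x : Circ) : Fin (n+1) → ℂ :=
  (Fm n q (e ((n:ℤ)+1) x) + (s:ℂ) • Fm n q 0) *ᵥ u n x

noncomputable def vb (n : ℕ) (q : Polynomial ℂ) (s : ℝ) (x : Circ) : Fin (n+1) → ℂ :=
  (Fm n q (e ((n:ℤ)+1) x) + (s:ℂ) • Fm n q 0)ᴴ *ᵥ u n x

lemma cont_shift (n : ℕ) (q : Polynomial ℂ) (s : ℝ) :
    Cont fun z => Fm n q z + (s:ℂ) • Fm n q 0 := (ana_Fm n q).cont.add (Cont.const _)

lemma int_poly_sq (n : ℕ) (q : Polynomial ℂ) :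
    ∫ y, hs (Fm n q (e 1 y)) ∂μ = ((n:ℝ) + 1) * ∫ y, ‖q.eval (e 1 y)‖ ^ 2 ∂μ := by
  rw [← int_sqn n (ana_Fm n q).cont]
  simp_rw [Fm_mulVec_u, sqn_smul, sqn_u]
  rw [integral_mul_const, mul_comm]

lemma int_va (n : ℕ) (q : Polynomial ℂ) (s : ℝ) :
    ∫ x, sqn (va n q s x) ∂μ =
      ((n:ℝ) + 1) * ∫ y, ‖q.eval (e 1 y)‖ ^ 2 ∂μ + (s ^ 2 + 2 * s) * hs (Fm n q 0) := by
  unfold va
  rw [int_sqn n (cont_shift n q s), int_hs_add (ana_Fm n q) s, int_poly_sq]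

lemma int_vb (n : ℕ) (q : Polynomial ℂ) (s : ℝ) :
    ∫ x, sqn (vb n q s x) ∂μ =
      ((n:ℝ) + 1) * ∫ y, ‖q.eval (e 1 y)‖ ^ 2 ∂μ + (s ^ 2 + 2 * s) * hs (Fm n q 0) := by
  unfold vb
  rw [int_sqnH n (cont_shift n q s), int_hs_add (ana_Fm n q) s, int_poly_sq]

lemma va_continuous (n : ℕ) (q : Polynomial ℂ) (s : ℝ) : Continuous fun x => sqn (va n q s x) :=
  sqn_continuous n (M := fun z => Fm n q z + (s:ℂ) • Fm n q 0) (cont_shift n q s)

lemma vb_continuous (n : ℕ) (q : Polynomial ℂ) (s : ℝ) : Continuous fun x => sqn (vb n q s x) :=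
  sqn_continuous n (M := fun z => (Fm n q z + (s:ℂ) • Fm n q 0)ᴴ) (cont_shift n q s).conjTranspose

lemma va_eq (n : ℕ) (q : Polynomial ℂ) (s : ℝ) (x : Circ) :
    va n q s x = q.eval (e 1 x) • u n x + (s:ℂ) • (Fm n q 0 *ᵥ u n x) := by
  unfold va
  rw [Matrix.add_mulVec, Fm_mulVec_u, Matrix.smul_mulVec]

lemma vb_eq (n : ℕ) (q : Polynomial ℂ) (s : ℝ) (x : Circ) :
    vb n q s x = conj (q.eval (e 1 x)) • u n x + (s:ℂ) • ((Fm n q 0)ᴴ *ᵥ u n x) := by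
  unfold vb
  rw [Matrix.conjTranspose_add, Matrix.add_mulVec, FmH_mulVec_u, Matrix.conjTranspose_smul,
    Matrix.smul_mulVec, RCLike.star_def, Complex.conj_ofReal]

lemma sum_conj_u (n : ℕ) (x : Circ) : ∑ i, conj (u n x i) * u n x i = (n:ℂ) + 1 := by
  unfold u
  simp only [Complex.conj_conj, e_mul_conj]
  simp

/-- the basic identity -/
lemma diff_identity (n : ℕ) (q₁ q₂ : Polynomial ℂ) (x : Circ) :
    2 * (((n:ℂ) + 1) * ((q₁ * q₂).eval (e 1 x) - conv (fejer n) (fun y => (q₁ * q₂).eval (e 1 y)) x)) =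
      ∑ i, conj (vb n q₁ (-1) x i) * va n q₂ 1 x i + ∑ i, conj (vb n q₁ 1 x i) * va n q₂ (-1) x i := by
  rw [mul_sub, conv_fejer_poly, Fm_mul]
  have h1 : qf (Fm n q₁ 0 * Fm n q₂ 0) (u n x) =
      ∑ i, conj (((Fm n q₁ 0)ᴴ *ᵥ u n x) i) * (Fm n q₂ 0 *ᵥ u n x) i := by
    have h2 : qf (Fm n q₁ 0 * Fm n q₂ 0) (u n x) =
      star (u n x) ⬝ᵥ ((Fm n q₁ 0 * Fm n q₂ 0) *ᵥ u n x) := rfl
    have h3 : ∑ i, conj (((Fm n q₁ 0)ᴴ *ᵥ u n x) i) * (Fm n q₂ 0 *ᵥ u n x) i =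
      star ((Fm n q₁ 0)ᴴ *ᵥ u n x) ⬝ᵥ (Fm n q₂ 0 *ᵥ u n x) := rfl
    rw [h2, h3, ← Matrix.mulVec_mulVec, Matrix.star_mulVec, Matrix.conjTranspose_conjTranspose,
      Matrix.dotProduct_mulVec]
  rw [h1, ← sum_conj_u n x, ← Finset.sum_add_distrib, Polynomial.eval_mul, Finset.sum_mul,
    ← Finset.sum_sub_distrib, Finset.mul_sum]
  refine Finset.sum_congr rfl fun i _ => ?_
  simp only [va_eq, vb_eq, Pi.add_apply, Pi.smul_apply, smul_eq_mul, map_add, map_mul,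
    Complex.conj_conj, Complex.conj_ofReal]
  push_cast
  ring

lemma sqrt3_facts : 0 < Real.sqrt 3 ∧ Real.sqrt 3 * Real.sqrt 3 = 3 :=
  ⟨Real.sqrt_pos.mpr (by norm_num), Real.mul_self_sqrt (by norm_num)⟩

lemma conv_fejer_poly_continuous (n : ℕ) (f : Polynomial ℂ) :
    Continuous (conv (fejer n) (fun y => f.eval (e 1 y))) :=
  conv_fejer_continuous n (integrable_of_cont (poly_continuous f))

/-- the inequality for products of two polynomials -/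
theorem poly_one (n : ℕ) (q₁ q₂ : Polynomial ℂ) :
    ∫ x, ‖(q₁ * q₂).eval (e 1 x) - conv (fejer n) (fun y => (q₁ * q₂).eval (e 1 y)) x‖ ∂μ ≤
      (1 / Real.sqrt 3) * (∫ x, ‖q₁.eval (e 1 x)‖ ^ 2 ∂μ + ∫ x, ‖q₂.eval (e 1 x)‖ ^ 2 ∂μ) := by
  obtain ⟨hs0, hs3⟩ := sqrt3_facts
  set t := Real.sqrt 3 with ht
  have hn : (0:ℝ) < (n:ℝ) + 1 := by positivity
  have hpt : ∀ x, ‖(q₁ * q₂).eval (e 1 x) - conv (fejer n) (fun y => (q₁ * q₂).eval (e 1 y)) x‖ ≤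
      (1 / (4 * ((n:ℝ) + 1))) * ((t * sqn (vb n q₁ (-1) x) + sqn (va n q₂ 1 x) / t) +
        ((1/t) * sqn (vb n q₁ 1 x) + sqn (va n q₂ (-1) x) / (1/t))) := by
    intro x
    set D := (q₁ * q₂).eval (e 1 x) - conv (fejer n) (fun y => (q₁ * q₂).eval (e 1 y)) x with hD
    have h1 := diff_identity n q₁ q₂ x
    rw [← hD] at h1
    have h2 := ip_le (va n q₂ 1 x) (vb n q₁ (-1) x) hs0
    have h3 := ip_le (va n q₂ (-1) x) (vb n q₁ 1 x) (t := 1/t) (by positivity)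
    have h4 : 2 * (((n:ℝ) + 1) * ‖D‖) ≤ ‖∑ i, conj (vb n q₁ (-1) x i) * va n q₂ 1 x i‖ +
        ‖∑ i, conj (vb n q₁ 1 x i) * va n q₂ (-1) x i‖ := by
      refine le_trans (le_of_eq ?_) (norm_add_le _ _)
      rw [← h1, norm_mul, norm_mul]
      have : ‖(n:ℂ) + 1‖ = (n:ℝ) + 1 := by
        rw [show ((n:ℂ) + 1) = (((n:ℝ) + 1 : ℝ) : ℂ) by push_cast; rfl, Complex.norm_real,
          Real.norm_of_nonneg hn.le]
      rw [this]
      simp
    have h5 : ‖D‖ = (1 / (4 * ((n:ℝ) + 1))) * (2 * (2 * (((n:ℝ) + 1) * ‖D‖))) := by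
      field_simp
      ring
    rw [h5]
    refine mul_le_mul_of_nonneg_left ?_ (by positivity)
    linarith
  have hc : ∀ s q, Integrable (fun x => sqn (va n q s x)) μ := fun s q =>
    integrable_of_cont (va_continuous n q s)
  have hc' : ∀ s q, Integrable (fun x => sqn (vb n q s x)) μ := fun s q =>
    integrable_of_cont (vb_continuous n q s)
  refine (integral_mono (integrable_of_cont ?_) ?_ hpt).trans (le_of_eq ?_)
  · exact ((poly_continuous _).sub (conv_fejer_poly_continuous n _)).norm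
  · exact ((((hc' _ _).const_mul _).add ((hc _ _).div_const _)).add
      (((hc' _ _).const_mul _).add ((hc _ _).div_const _))).const_mul _
  · rw [integral_const_mul, integral_add, integral_add, integral_add, integral_const_mul,
      integral_const_mul, integral_div, integral_div, int_va, int_va, int_vb, int_vb]
    · have h3 : t ^ 2 = 3 := by rw [sq, hs3]
      set A := ∫ y, ‖q₁.eval (e 1 y)‖ ^ 2 ∂μ
      set B := ∫ y, ‖q₂.eval (e 1 y)‖ ^ 2 ∂μ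
      set α := hs (Fm n q₁ 0)
      set β := hs (Fm n q₂ 0)
      field_simp
      rw [h3]
      ring
    · exact (hc' _ _).const_mul _
    · exact (hc _ _).div_const _
    · exact (hc' _ _).const_mul _
    · exact (hc _ _).div_const _
    · exact ((hc' _ _).const_mul _).add ((hc _ _).div_const _)
    · exact ((hc' _ _).const_mul _).add ((hc _ _).div_const _)

end Pool.Agent.Y112.HP
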