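import Mathlib
import Pool.Agent.Y112.HP.One

/-! The inequality for `p = 4` and polynomials. -/

set_option autoImplicit false
open MeasureTheory Filter Topology
open scoped ComplexConjugate Matrix

namespace Pool.Agent.Y112.HP

open Pool.Agent.Helper418.FE

variable {m : ℕ}

/-- real inner product of matrices -/
noncomputable def ipm (P Q : Matrix (Fin m) (Fin m) ℂ) : ℝ := ((Pᴴ * Q).trace).re

lemma hs_eq_ipm (P : Matrix (Fin m) (Fin m) ℂ) : hs P = ipm P P := by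
  unfold ipm
  rw [← hs_eq_trace, Complex.ofReal_re]

lemma ipm_add_left (P Q R : Matrix (Fin m) (Fin m) ℂ) : ipm (P + Q) R = ipm P R + ipm Q R := by
  unfold ipm
  rw [Matrix.conjTranspose_add, Matrix.add_mul, Matrix.trace_add, Complex.add_re]

lemma ipm_add_right (P Q R : Matrix (Fin m) (Fin m) ℂ) : ipm P (Q + R) = ipm P Q + ipm P R := by
  unfold ipm
  rw [Matrix.mul_add, Matrix.trace_add, Complex.add_re]

lemma ipm_smul_left (s : ℝ) (P Q : Matrix (Fin m) (Fin m) ℂ) : ipm (s • P) Q = s * ipm P Q := by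
  unfold ipm
  rw [Matrix.conjTranspose_smul, Matrix.smul_mul, Matrix.trace_smul, Complex.smul_re]
  simp

lemma ipm_smul_right (s : ℝ) (P Q : Matrix (Fin m) (Fin m) ℂ) : ipm P (s • Q) = s * ipm P Q := by
  unfold ipm
  rw [Matrix.mul_smul, Matrix.trace_smul, Complex.smul_re]
  simp

lemma ipm_comm (P Q : Matrix (Fin m) (Fin m) ℂ) : ipm P Q = ipm Q P := by
  unfold ipm
  have : (Qᴴ * P).trace = star ((Pᴴ * Q).trace) := by
    rw [← Matrix.trace_conjTranspose, Matrix.conjTranspose_mul, Matrix.conjTranspose_conjTranspose]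
  rw [this, RCLike.star_def, Complex.conj_re]

lemma re_trace_conjTranspose (P : Matrix (Fin m) (Fin m) ℂ) : (Pᴴ.trace).re = P.trace.re := by
  rw [Matrix.trace_conjTranspose, RCLike.star_def, Complex.conj_re]

lemma hs_comb (a b c : Matrix (Fin m) (Fin m) ℂ) (s t : ℝ) :
    hs (a + s • b + t • c) = ipm a a + s ^ 2 * ipm b b + t ^ 2 * ipm c c + 2 * s * ipm a b +
      2 * t * ipm a c + 2 * s * t * ipm b c := by
  rw [hs_eq_ipm]
  simp only [ipm_add_left, ipm_add_right, ipm_smul_left, ipm_smul_right]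
  rw [ipm_comm b a, ipm_comm c a, ipm_comm c b]
  ring

section

variable (F C : Matrix (Fin m) (Fin m) ℂ)

lemma ex1 : ipm (F * Fᴴ) (F * Fᴴ) = ipm (Fᴴ * F) (Fᴴ * F) := by
  unfold ipm
  simp only [Matrix.conjTranspose_mul, Matrix.conjTranspose_conjTranspose]
  congr 1
  rw [Matrix.mul_assoc, Matrix.trace_mul_comm]
  simp only [Matrix.mul_assoc]

/-- `⟪b, b⟫` -/
lemma ex2 : ipm (Cᴴ * F + Fᴴ * C) (Cᴴ * F + Fᴴ * C) =
    2 * ((Cᴴ * F * Cᴴ * F).trace).re + 2 * ipm (F * Fᴴ) (C * Cᴴ) := by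
  unfold ipm
  simp only [Matrix.conjTranspose_mul, Matrix.conjTranspose_conjTranspose, Matrix.conjTranspose_add,
    Matrix.add_mul, Matrix.mul_add, Matrix.trace_add, Complex.add_re]
  have h1 : ((Fᴴ * C * (Fᴴ * C)).trace).re = ((Cᴴ * F * Cᴴ * F).trace).re := by
    rw [← re_trace_conjTranspose]
    simp only [Matrix.conjTranspose_mul, Matrix.conjTranspose_conjTranspose, Matrix.mul_assoc]
  have h2 : ((Fᴴ * C * (Cᴴ * F)).trace).re = ((F * Fᴴ * (C * Cᴴ)).trace).re := by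
    congr 1
    have : Fᴴ * C * (Cᴴ * F) = (Fᴴ * (C * Cᴴ)) * F := by simp only [Matrix.mul_assoc]
    rw [this, Matrix.trace_mul_comm]
    simp only [Matrix.mul_assoc]
  have h3 : ((Cᴴ * F * (Fᴴ * C)).trace).re = ((F * Fᴴ * (C * Cᴴ)).trace).re := by
    congr 1
    have : Cᴴ * F * (Fᴴ * C) = Cᴴ * (F * Fᴴ * C) := by simp only [Matrix.mul_assoc]
    rw [this, Matrix.trace_mul_comm]
    simp only [Matrix.mul_assoc]
  have h4 : ((Cᴴ * F * (Cᴴ * F)).trace).re = ((Cᴴ * F * Cᴴ * F).trace).re := by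
    simp only [Matrix.mul_assoc]
  rw [h1, h2, h3, h4]
  ring

/-- `⟪b', b'⟫` -/
lemma ex3 : ipm (F * Cᴴ + C * Fᴴ) (F * Cᴴ + C * Fᴴ) =
    2 * ((Cᴴ * F * Cᴴ * F).trace).re + 2 * ipm (Fᴴ * F) (Cᴴ * C) := by
  unfold ipm
  simp only [Matrix.conjTranspose_mul, Matrix.conjTranspose_conjTranspose, Matrix.conjTranspose_add,
    Matrix.add_mul, Matrix.mul_add, Matrix.trace_add, Complex.add_re]
  have h1 : ((C * Fᴴ * (C * Fᴴ)).trace).re = ((Cᴴ * F * Cᴴ * F).trace).re := by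
    rw [← re_trace_conjTranspose]
    simp only [Matrix.conjTranspose_mul, Matrix.conjTranspose_conjTranspose, Matrix.mul_assoc]
    rw [Matrix.trace_mul_comm]
    simp only [Matrix.mul_assoc]
  have h2 : ((C * Fᴴ * (F * Cᴴ)).trace).re = ((Fᴴ * F * (Cᴴ * C)).trace).re := by
    congr 1
    have : C * Fᴴ * (F * Cᴴ) = C * (Fᴴ * F * Cᴴ) := by simp only [Matrix.mul_assoc]
    rw [this, Matrix.trace_mul_comm]
    simp only [Matrix.mul_assoc]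
  have h3 : ((F * Cᴴ * (C * Fᴴ)).trace).re = ((Fᴴ * F * (Cᴴ * C)).trace).re := by
    congr 1
    have : F * Cᴴ * (C * Fᴴ) = (F * (Cᴴ * C)) * Fᴴ := by simp only [Matrix.mul_assoc]
    rw [this, Matrix.trace_mul_comm]
    simp only [Matrix.mul_assoc]
  have h4 : ((F * Cᴴ * (F * Cᴴ)).trace).re = ((Cᴴ * F * Cᴴ * F).trace).re := by
    congr 1
    have : F * Cᴴ * (F * Cᴴ) = F * (Cᴴ * F * Cᴴ) := by simp only [Matrix.mul_assoc]
    rw [this, Matrix.trace_mul_comm]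
  rw [h1, h2, h3, h4]
  ring

/-- `⟪a, b⟫ = ⟪a', b'⟫` -/
lemma ex4 : ipm (F * Fᴴ) (F * Cᴴ + C * Fᴴ) = ipm (Fᴴ * F) (Cᴴ * F + Fᴴ * C) := by
  unfold ipm
  simp only [Matrix.conjTranspose_mul, Matrix.conjTranspose_conjTranspose,
    Matrix.mul_add, Matrix.trace_add, Complex.add_re]
  have h1 : ((F * Fᴴ * (F * Cᴴ)).trace).re = ((Fᴴ * F * (Cᴴ * F)).trace).re := by
    congr 1
    have : F * Fᴴ * (F * Cᴴ) = F * (Fᴴ * F * Cᴴ) := by simp only [Matrix.mul_assoc]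
    rw [this, Matrix.trace_mul_comm]
    simp only [Matrix.mul_assoc]
  have h2 : ((F * Fᴴ * (C * Fᴴ)).trace).re = ((Fᴴ * F * (Fᴴ * C)).trace).re := by
    congr 1
    have : F * Fᴴ * (C * Fᴴ) = (F * Fᴴ * C) * Fᴴ := by simp only [Matrix.mul_assoc]
    rw [this, Matrix.trace_mul_comm]
    simp only [Matrix.mul_assoc]
  rw [h1, h2]

/-- `⟪b, c⟫` -/
lemma ex5 : ipm (Cᴴ * F + Fᴴ * C) (Cᴴ * C) = 2 * ((Cᴴ * C * Cᴴ * F).trace).re := by
  unfold ipm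
  simp only [Matrix.conjTranspose_mul, Matrix.conjTranspose_conjTranspose, Matrix.conjTranspose_add,
    Matrix.add_mul, Matrix.trace_add, Complex.add_re]
  have h1 : ((Fᴴ * C * (Cᴴ * C)).trace).re = ((Cᴴ * C * Cᴴ * F).trace).re := by
    rw [← re_trace_conjTranspose]
    simp only [Matrix.conjTranspose_mul, Matrix.conjTranspose_conjTranspose, Matrix.mul_assoc]
  have h2 : ((Cᴴ * F * (Cᴴ * C)).trace).re = ((Cᴴ * C * Cᴴ * F).trace).re := by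
    congr 1
    rw [Matrix.trace_mul_comm]
    simp only [Matrix.mul_assoc]
  rw [h1, h2]
  ring

lemma ex6 : ipm (F * Cᴴ + C * Fᴴ) (C * Cᴴ) = 2 * ((Cᴴ * C * Cᴴ * F).trace).re := by
  unfold ipm
  simp only [Matrix.conjTranspose_mul, Matrix.conjTranspose_conjTranspose, Matrix.conjTranspose_add,
    Matrix.add_mul, Matrix.trace_add, Complex.add_re]
  have h2 : ((F * Cᴴ * (C * Cᴴ)).trace).re = ((Cᴴ * C * Cᴴ * F).trace).re := by
    congr 1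
    have : F * Cᴴ * (C * Cᴴ) = F * (Cᴴ * C * Cᴴ) := by simp only [Matrix.mul_assoc]
    rw [this, Matrix.trace_mul_comm]
  have h1 : ((C * Fᴴ * (C * Cᴴ)).trace).re = ((Cᴴ * C * Cᴴ * F).trace).re := by
    rw [← re_trace_conjTranspose]
    simp only [Matrix.conjTranspose_mul, Matrix.conjTranspose_conjTranspose, Matrix.mul_assoc]
    rw [Matrix.trace_mul_comm]
    simp only [Matrix.mul_assoc]
    rw [Matrix.trace_mul_comm]
    simp only [Matrix.mul_assoc]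
    rw [Matrix.trace_mul_comm]
    simp only [Matrix.mul_assoc]
  rw [h1, h2]
  ring

/-- The matrix inequality. -/
lemma matrix_ineq {φ : ℝ} (hφ0 : 0 < φ) (hφ : φ ^ 2 = φ + 1) :
    hs ((F - C)ᴴ * (F - C)) ≤ φ * hs (Fᴴ * F) - (-(2 * φ ^ 2) * ((Cᴴ * F * Cᴴ * F).trace).re +
      (12 * φ + 8) * ((Cᴴ * C * Cᴴ * F).trace).re - (10 * φ + 6) * hs (Cᴴ * C)) := by
  have e1 : (F - C)ᴴ * (F - C) = Fᴴ * F + (-1:ℝ) • (Cᴴ * F + Fᴴ * C) + (1:ℝ) • (Cᴴ * C) := by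
    rw [Matrix.conjTranspose_sub, Matrix.sub_mul, Matrix.mul_sub, Matrix.mul_sub]
    simp only [neg_smul, one_smul]
    abel
  have h1 := hs_comb (Fᴴ * F) (Cᴴ * F + Fᴴ * C) (Cᴴ * C) (-1) 1
  rw [← e1] at h1
  have h2 := hs_comb (Fᴴ * F) (Cᴴ * F + Fᴴ * C) (Cᴴ * C) φ (-(3 * φ + 1))
  have h3 := hs_comb (F * Fᴴ) (F * Cᴴ + C * Fᴴ) (C * Cᴴ) φ (-(3 * φ + 1))
  have p2 := hs_nonneg (Fᴴ * F + φ • (Cᴴ * F + Fᴴ * C) + (-(3 * φ + 1)) • (Cᴴ * C))
  have p3 := hs_nonneg (F * Fᴴ + φ • (F * Cᴴ + C * Fᴴ) + (-(3 * φ + 1)) • (C * Cᴴ))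
  rw [h2] at p2
  rw [h3] at p3
  rw [ex1, ex3, ex4, ex6, ex1] at p3
  rw [ex2, ex5] at p2
  rw [ex2, ex5] at h1
  rw [h1, hs_eq_ipm (Fᴴ * F), hs_eq_ipm (Cᴴ * C)]
  set aa := ipm (Fᴴ * F) (Fᴴ * F)
  set cc := ipm (Cᴴ * C) (Cᴴ * C)
  set ab := ipm (Fᴴ * F) (Cᴴ * F + Fᴴ * C)
  set ac := ipm (Fᴴ * F) (Cᴴ * C)
  set ac' := ipm (F * Fᴴ) (C * Cᴴ)
  set R := ((Cᴴ * F * Cᴴ * F).trace).re
  set S := ((Cᴴ * C * Cᴴ * F).trace).re
  have h4 : 0 ≤ (φ - 1) / 2 * ((aa + φ ^ 2 * (2 * R + 2 * ac') + (-(3 * φ + 1)) ^ 2 * cc + 2 * φ * ab +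
      2 * (-(3 * φ + 1)) * ac + 2 * φ * (-(3 * φ + 1)) * (2 * S)) +
      (aa + φ ^ 2 * (2 * R + 2 * ac) + (-(3 * φ + 1)) ^ 2 * cc + 2 * φ * ab +
      2 * (-(3 * φ + 1)) * ac' + 2 * φ * (-(3 * φ + 1)) * (2 * S))) := by
    have : 0 ≤ φ - 1 := by nlinarith
    have : 0 ≤ (φ - 1) / 2 := by linarith
    exact mul_nonneg this (add_nonneg p2 p3)
  have hφ3 : φ ^ 3 = 2 * φ + 1 := by
    have : φ ^ 3 = φ * φ ^ 2 := by ring
    rw [this, hφ]
    linear_combination hφ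
  have h5 : (φ - 1) / 2 * ((aa + φ ^ 2 * (2 * R + 2 * ac') + (-(3 * φ + 1)) ^ 2 * cc + 2 * φ * ab +
      2 * (-(3 * φ + 1)) * ac + 2 * φ * (-(3 * φ + 1)) * (2 * S)) +
      (aa + φ ^ 2 * (2 * R + 2 * ac) + (-(3 * φ + 1)) ^ 2 * cc + 2 * φ * ab +
      2 * (-(3 * φ + 1)) * ac' + 2 * φ * (-(3 * φ + 1)) * (2 * S))) =
      φ * aa - (-(2 * φ ^ 2) * R + (12 * φ + 8) * S - (10 * φ + 6) * cc) -
      (aa + (-1) ^ 2 * (2 * R + 2 * ac') + 1 ^ 2 * cc + 2 * (-1) * ab + 2 * 1 * ac +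
        2 * (-1) * 1 * (2 * S)) := by
    linear_combination (2 * R + ac + ac' + 9 * cc - 12 * S) * hφ3 +
      (-4 * R - 4 * ac - 4 * ac' - 3 * cc + 2 * ab + 8 * S) * hφ
  linarith
end

end Pool.Agent.Y112.HP
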