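import Mathlib
import Pool.Agent.Y112.HP.Four

/-! The inequality for `p = 4` and polynomials, integrated form. -/

set_option autoImplicit false
open MeasureTheory Filter Topology
open scoped ComplexConjugate Matrix

namespace Pool.Agent.Y112.HP

open Pool.Agent.Helper418.FE

lemma ip_sq_le {m : ℕ} (a b : Fin m → ℂ) : ‖∑ i, conj (b i) * a i‖ ^ 2 ≤ sqn b * sqn a := by
  have h1 : ‖∑ i, conj (b i) * a i‖ ≤ ∑ i, ‖b i‖ * ‖a i‖ := by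
    refine (norm_sum_le _ _).trans (Finset.sum_le_sum fun i _ => ?_)
    rw [norm_mul, RCLike.norm_conj]
  have h2 := Finset.sum_mul_sq_le_sq_mul_sq (Finset.univ) (fun i => ‖b i‖) (fun i => ‖a i‖)
  calc ‖∑ i, conj (b i) * a i‖ ^ 2 ≤ (∑ i, ‖b i‖ * ‖a i‖) ^ 2 :=
        pow_le_pow_left₀ (norm_nonneg _) h1 2
    _ ≤ sqn b * sqn a := h2

lemma qf_pow_four {n : ℕ} (A : Matrix (Fin (n+1)) (Fin (n+1)) ℂ) (x : Circ) :
    ‖qf A (u n x)‖ ^ 4 ≤ ((n:ℝ) + 1) ^ 3 * sqn ((Aᴴ * A) *ᵥ u n x) := by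
  have hn : (0:ℝ) < (n:ℝ) + 1 := by positivity
  have h1 : ‖qf A (u n x)‖ ^ 2 ≤ ((n:ℝ) + 1) * sqn (A *ᵥ u n x) := by
    have := ip_sq_le (A *ᵥ u n x) (u n x)
    rw [sqn_u] at this
    exact this
  have h2 : sqn (A *ᵥ u n x) ^ 2 ≤ ((n:ℝ) + 1) * sqn ((Aᴴ * A) *ᵥ u n x) := by
    have h3 := ip_sq_le ((Aᴴ * A) *ᵥ u n x) (u n x)
    rw [sqn_u] at h3
    have h4 : ∑ i, conj (u n x i) * ((Aᴴ * A) *ᵥ u n x) i = ((sqn (A *ᵥ u n x) : ℝ) : ℂ) := by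
      rw [sqn_eq_qf]
      rfl
    rw [h4, Complex.norm_real, Real.norm_of_nonneg (sqn_nonneg _)] at h3
    exact h3
  have h5 := sqn_nonneg (A *ᵥ u n x)
  calc ‖qf A (u n x)‖ ^ 4 = (‖qf A (u n x)‖ ^ 2) ^ 2 := by ring
    _ ≤ (((n:ℝ) + 1) * sqn (A *ᵥ u n x)) ^ 2 := pow_le_pow_left₀ (by positivity) h1 2
    _ = ((n:ℝ) + 1) ^ 2 * sqn (A *ᵥ u n x) ^ 2 := by ring
    _ ≤ ((n:ℝ) + 1) ^ 2 * (((n:ℝ) + 1) * sqn ((Aᴴ * A) *ᵥ u n x)) :=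
        mul_le_mul_of_nonneg_left h2 (by positivity)
    _ = ((n:ℝ) + 1) ^ 3 * sqn ((Aᴴ * A) *ᵥ u n x) := by ring

lemma qf_diff (n : ℕ) (f : Polynomial ℂ) (x : Circ) :
    qf (Fm n f (e ((n:ℤ)+1) x) - Fm n f 0) (u n x) =
      ((n:ℂ) + 1) * (f.eval (e 1 x) - conv (fejer n) (fun y => f.eval (e 1 y)) x) := by
  rw [mul_sub, conv_fejer_poly]
  unfold qf
  rw [← sum_conj_u n x, Finset.sum_mul, ← Finset.sum_sub_distrib]
  refine Finset.sum_congr rfl fun i _ => ?_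
  rw [Matrix.sub_mulVec, Pi.sub_apply, Fm_mulVec_u, Pi.smul_apply, smul_eq_mul]
  ring

lemma int_re {G : Circ → ℂ} (hG : Continuous G) : ∫ y, (G y).re ∂μ = (∫ y, G y ∂μ).re :=
  integral_re (integrable_of_cont hG)

theorem poly_four (n : ℕ) (f : Polynomial ℂ) {φ : ℝ} (hφ0 : 0 < φ) (hφ : φ ^ 2 = φ + 1) :
    ∫ x, ‖f.eval (e 1 x) - conv (fejer n) (fun y => f.eval (e 1 y)) x‖ ^ 4 ∂μ ≤
      φ * ∫ x, ‖f.eval (e 1 x)‖ ^ 4 ∂μ := by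
  have hn : (0:ℝ) < (n:ℝ) + 1 := by positivity
  set F : ℂ → Matrix (Fin (n+1)) (Fin (n+1)) ℂ := Fm n f with hF
  set C := Fm n f 0 with hC
  have hA : Ana F := ana_Fm n f
  have hAs : Cont fun z => F z - C := hA.cont.sub (Cont.const C)
  have hcD : Cont fun z => (F z - C)ᴴ * (F z - C) := hAs.conjTranspose.mul hAs
  have hcF : Cont fun z => (F z)ᴴ * F z := hA.cont.conjTranspose.mul hA.cont
  have hR : Ana fun z => Cᴴ * F z * Cᴴ * F z :=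
    (((Ana.const Cᴴ).mul hA).mul (Ana.const Cᴴ)).mul hA
  have hS : Ana fun z => Cᴴ * C * Cᴴ * F z := (Ana.const (Cᴴ * C * Cᴴ)).mul hA
  have hpt : ∀ x, ‖f.eval (e 1 x) - conv (fejer n) (fun y => f.eval (e 1 y)) x‖ ^ 4 ≤
      (1 / ((n:ℝ) + 1)) * sqn (((F (e ((n:ℤ)+1) x) - C)ᴴ * (F (e ((n:ℤ)+1) x) - C)) *ᵥ u n x) := by
    intro x
    have h1 := qf_pow_four (F (e ((n:ℤ)+1) x) - C) x
    rw [qf_diff, norm_mul, mul_pow] at h1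
    have h2 : ‖(n:ℂ) + 1‖ = (n:ℝ) + 1 := by
      rw [show ((n:ℂ) + 1) = (((n:ℝ) + 1 : ℝ) : ℂ) by push_cast; rfl, Complex.norm_real,
        Real.norm_of_nonneg hn.le]
    rw [h2] at h1
    set D := ‖f.eval (e 1 x) - conv (fejer n) (fun y => f.eval (e 1 y)) x‖
    set Q := sqn (((F (e ((n:ℤ)+1) x) - C)ᴴ * (F (e ((n:ℤ)+1) x) - C)) *ᵥ u n x)
    have h3 : ((n:ℝ)+1) ^ 3 * (((n:ℝ)+1) * D ^ 4) ≤ ((n:ℝ)+1) ^ 3 * Q := by
      calc ((n:ℝ)+1) ^ 3 * (((n:ℝ)+1) * D ^ 4) = ((n:ℝ)+1) ^ 4 * D ^ 4 := by ring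
        _ ≤ _ := h1
    have h4 : ((n:ℝ)+1) * D ^ 4 ≤ Q := le_of_mul_le_mul_left h3 (by positivity)
    rw [one_div, ← div_eq_inv_mul, le_div_iff₀ hn, mul_comm]
    exact h4
  have hcont : Continuous fun x : Circ =>
      ‖f.eval (e 1 x) - conv (fejer n) (fun y => f.eval (e 1 y)) x‖ ^ 4 :=
    ((poly_continuous f).sub (conv_fejer_poly_continuous n f)).norm.pow 4
  have hcq : Continuous fun x : Circ =>
      sqn (((F (e ((n:ℤ)+1) x) - C)ᴴ * (F (e ((n:ℤ)+1) x) - C)) *ᵥ u n x) :=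
    sqn_continuous n (M := fun z => (F z - C)ᴴ * (F z - C)) hcD
  have step1 : ∫ x, ‖f.eval (e 1 x) - conv (fejer n) (fun y => f.eval (e 1 y)) x‖ ^ 4 ∂μ ≤
      (1 / ((n:ℝ) + 1)) * ∫ y, hs ((F (e 1 y) - C)ᴴ * (F (e 1 y) - C)) ∂μ := by
    refine (integral_mono (integrable_of_cont hcont)
      ((integrable_of_cont hcq).const_mul _) hpt).trans (le_of_eq ?_)
    rw [integral_const_mul]
    congr 1
    exact int_sqn n (M := fun z => (F z - C)ᴴ * (F z - C)) hcD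
  have step2 : ∫ y, hs ((F (e 1 y))ᴴ * F (e 1 y)) ∂μ = ((n:ℝ)+1) * ∫ x, ‖f.eval (e 1 x)‖ ^ 4 ∂μ := by
    rw [← int_sqn n (M := fun z => (F z)ᴴ * F z) hcF, ← integral_const_mul]
    congr 1
    funext x
    rw [← Matrix.mulVec_mulVec, hF, Fm_mulVec_u, Matrix.mulVec_smul, FmH_mulVec_u, smul_smul,
      sqn_smul, sqn_u, norm_mul, RCLike.norm_conj]
    ring
  have hcR : Continuous fun y : Circ => ((Cᴴ * F (e 1 y) * Cᴴ * F (e 1 y)).trace) :=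
    hR.cont.trace.comp cont_e
  have hcS : Continuous fun y : Circ => ((Cᴴ * C * Cᴴ * F (e 1 y)).trace) :=
    hS.cont.trace.comp cont_e
  have hcc : hs (Cᴴ * C) = ((Cᴴ * C * Cᴴ * C).trace).re := by
    rw [hs_eq_ipm]
    unfold ipm
    simp only [Matrix.conjTranspose_mul, Matrix.conjTranspose_conjTranspose, Matrix.mul_assoc]
  have hIR : ∫ y, ((Cᴴ * F (e 1 y) * Cᴴ * F (e 1 y)).trace).re ∂μ = hs (Cᴴ * C) := by
    rw [int_re hcR, mv' (fun z => (Cᴴ * F z * Cᴴ * F z).trace) hR.trace, hcc]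
  have hIS : ∫ y, ((Cᴴ * C * Cᴴ * F (e 1 y)).trace).re ∂μ = hs (Cᴴ * C) := by
    rw [int_re hcS, mv' (fun z => (Cᴴ * C * Cᴴ * F z).trace) hS.trace, hcc]
  have step3 : ∫ y, hs ((F (e 1 y) - C)ᴴ * (F (e 1 y) - C)) ∂μ ≤
      φ * ∫ y, hs ((F (e 1 y))ᴴ * F (e 1 y)) ∂μ := by
    have i1 : Integrable (fun y : Circ => hs ((F (e 1 y))ᴴ * F (e 1 y))) μ :=
      integrable_of_cont (hcF.hs.comp cont_e)
    have i2 : Integrable (fun y : Circ => ((Cᴴ * F (e 1 y) * Cᴴ * F (e 1 y)).trace).re) μ :=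
      integrable_of_cont (Complex.continuous_re.comp hcR)
    have i3 : Integrable (fun y : Circ => ((Cᴴ * C * Cᴴ * F (e 1 y)).trace).re) μ :=
      integrable_of_cont (Complex.continuous_re.comp hcS)
    have i4 : Integrable (fun _ : Circ => (10 * φ + 6) * hs (Cᴴ * C)) μ := integrable_const _
    have j2 := i2.const_mul (-(2 * φ ^ 2))
    have j3 := i3.const_mul (12 * φ + 8)
    have j23 : Integrable (fun y : Circ => -(2 * φ ^ 2) * ((Cᴴ * F (e 1 y) * Cᴴ * F (e 1 y)).trace).re +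
        (12 * φ + 8) * ((Cᴴ * C * Cᴴ * F (e 1 y)).trace).re) μ := j2.add j3
    have j234 : Integrable (fun y : Circ => -(2 * φ ^ 2) * ((Cᴴ * F (e 1 y) * Cᴴ * F (e 1 y)).trace).re +
        (12 * φ + 8) * ((Cᴴ * C * Cᴴ * F (e 1 y)).trace).re - (10 * φ + 6) * hs (Cᴴ * C)) μ := j23.sub i4
    have h1 : ∫ y, hs ((F (e 1 y) - C)ᴴ * (F (e 1 y) - C)) ∂μ ≤
        ∫ y, (φ * hs ((F (e 1 y))ᴴ * F (e 1 y)) -
          (-(2 * φ ^ 2) * ((Cᴴ * F (e 1 y) * Cᴴ * F (e 1 y)).trace).re +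
          (12 * φ + 8) * ((Cᴴ * C * Cᴴ * F (e 1 y)).trace).re - (10 * φ + 6) * hs (Cᴴ * C))) ∂μ :=
      integral_mono (integrable_of_cont (hcD.hs.comp cont_e)) ((i1.const_mul φ).sub j234)
        (fun y => matrix_ineq (F (e 1 y)) C hφ0 hφ)
    refine h1.trans (le_of_eq ?_)
    have h2 : ∫ y, (φ * hs ((F (e 1 y))ᴴ * F (e 1 y)) -
          (-(2 * φ ^ 2) * ((Cᴴ * F (e 1 y) * Cᴴ * F (e 1 y)).trace).re +
          (12 * φ + 8) * ((Cᴴ * C * Cᴴ * F (e 1 y)).trace).re - (10 * φ + 6) * hs (Cᴴ * C))) ∂μ =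
        φ * ∫ y, hs ((F (e 1 y))ᴴ * F (e 1 y)) ∂μ - (-(2 * φ ^ 2) * hs (Cᴴ * C) +
          (12 * φ + 8) * hs (Cᴴ * C) - (10 * φ + 6) * hs (Cᴴ * C)) := by
      rw [integral_sub (i1.const_mul φ) j234, integral_sub j23 i4, integral_add j2 j3,
        integral_const_mul, integral_const_mul, integral_const_mul, hIR, hIS]
      simp
    rw [h2]
    have h3 : -(2 * φ ^ 2) * hs (Cᴴ * C) + (12 * φ + 8) * hs (Cᴴ * C) - (10 * φ + 6) * hs (Cᴴ * C)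
        = 0 := by
      linear_combination (-2 * hs (Cᴴ * C)) * hφ
    rw [h3, sub_zero]
  refine step1.trans ?_
  calc (1 / ((n:ℝ) + 1)) * ∫ y, hs ((F (e 1 y) - C)ᴴ * (F (e 1 y) - C)) ∂μ
      ≤ (1 / ((n:ℝ) + 1)) * (φ * ∫ y, hs ((F (e 1 y))ᴴ * F (e 1 y)) ∂μ) :=
        mul_le_mul_of_nonneg_left step3 (by positivity)
    _ = φ * ∫ x, ‖f.eval (e 1 x)‖ ^ 4 ∂μ := by
        rw [step2]
        field_simp

end Pool.Agent.Y112.HP
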