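import Mathlib
import Pool.Agent.Y112.HP.Dens
import Pool.Agent.Y112.HP.FourPoly

/-! From polynomials to the Hardy space, and from the Fejér kernels to the Poisson kernels. -/

set_option autoImplicit false
open MeasureTheory Filter Topology
open scoped ComplexConjugate

namespace Pool.Agent.Y112.HP

open Pool.Agent.Helper418.FE

lemma memLp_cont {G : Circ → ℂ} (hG : Continuous G) (p : ENNReal) : MemLp G p μ := by
  obtain ⟨M, hM⟩ := (isCompact_univ (X := Circ)).exists_bound_of_continuousOn (f := G) hG.continuousOn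
  exact MemLp.of_bound hG.aestronglyMeasurable M (Filter.Eventually.of_forall fun x => hM x (Set.mem_univ x))

lemma eLpNorm_cont {p : ℝ} (hp : 0 < p) {G : Circ → ℂ} (hG : Continuous G) :
    eLpNorm G (ENNReal.ofReal p) μ = ENNReal.ofReal ((∫ x, ‖G x‖ ^ p ∂μ) ^ (1 / p)) := by
  rw [(memLp_cont hG _).eLpNorm_eq_integral_rpow_norm (by simpa using hp) ENNReal.ofReal_ne_top,
    ENNReal.toReal_ofReal hp.le, one_div]

lemma eLpNorm_le_of_int {p c : ℝ} (hp : 0 < p) (hc : 0 ≤ c) {F G : Circ → ℂ} (hF : Continuous F)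
    (hG : Continuous G) (h : ∫ x, ‖F x‖ ^ p ∂μ ≤ c ^ p * ∫ x, ‖G x‖ ^ p ∂μ) :
    eLpNorm F (ENNReal.ofReal p) μ ≤ ENNReal.ofReal c * eLpNorm G (ENNReal.ofReal p) μ := by
  rw [eLpNorm_cont hp hF, eLpNorm_cont hp hG, ← ENNReal.ofReal_mul hc]
  refine ENNReal.ofReal_le_ofReal ?_
  have hG0 : 0 ≤ ∫ x, ‖G x‖ ^ p ∂μ := integral_nonneg fun x => Real.rpow_nonneg (norm_nonneg _) _
  have hF0 : 0 ≤ ∫ x, ‖F x‖ ^ p ∂μ := integral_nonneg fun x => Real.rpow_nonneg (norm_nonneg _) _
  calc (∫ x, ‖F x‖ ^ p ∂μ) ^ (1 / p) ≤ (c ^ p * ∫ x, ‖G x‖ ^ p ∂μ) ^ (1 / p) :=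
        Real.rpow_le_rpow hF0 h (by positivity)
    _ = c * (∫ x, ‖G x‖ ^ p ∂μ) ^ (1 / p) := by
        rw [Real.mul_rpow (Real.rpow_nonneg hc _) hG0, ← Real.rpow_mul hc, mul_one_div_cancel hp.ne',
          Real.rpow_one]

lemma one_le_ofReal {p : ℝ} (hp : 1 ≤ p) : 1 ≤ ENNReal.ofReal p := by
  rw [← ENNReal.ofReal_one]
  exact ENNReal.ofReal_le_ofReal hp

/-- It suffices to prove the inequality for polynomials. -/
theorem upper_of_poly {p c : ℝ} (hp : 1 ≤ p) (hc : 0 ≤ c) (n : ℕ)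
    (h : ∀ P : Polynomial ℂ, eLpNorm (fun x => P.eval (e 1 x) - conv (fejer n) (fun y => P.eval (e 1 y)) x)
      (ENNReal.ofReal p) μ ≤ ENNReal.ofReal c * eLpNorm (fun x => P.eval (e 1 x)) (ENNReal.ofReal p) μ)
    {f : Circ → ℂ} (hf : InHardy (ENNReal.ofReal p) f) :
    eLpNorm (fun x => f x - conv (fejer n) f x) (ENNReal.ofReal p) μ ≤
      ENNReal.ofReal c * eLpNorm f (ENNReal.ofReal p) μ := by
  obtain ⟨B, hB0, hB⟩ := fejer_unif hp
  have hp1 := one_le_ofReal hp
  have hfi := memLp_integrable' hp hf.1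
  refine ENNReal.le_of_forall_pos_le_add fun ε hε _ => ?_
  set δ : ENNReal := ε / (ENNReal.ofReal c + ENNReal.ofReal B + 1) with hδ
  have hden0 : ENNReal.ofReal c + ENNReal.ofReal B + 1 ≠ 0 := by simp
  have hdent : ENNReal.ofReal c + ENNReal.ofReal B + 1 ≠ ⊤ := by simp
  have hδ0 : δ ≠ 0 := by
    rw [hδ]
    exact (ENNReal.div_pos (by exact_mod_cast hε.ne') hdent).ne'
  obtain ⟨P, hP⟩ := exists_poly hp hf hδ0
  have hPc : Continuous fun x : Circ => P.eval (e 1 x) := poly_continuous P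
  have hPm := memLp_cont hPc (ENNReal.ofReal p)
  have hgm : MemLp (fun x => f x - P.eval (e 1 x)) (ENNReal.ofReal p) μ := hf.1.sub hPm
  have hsub : (fun x => f x - conv (fejer n) f x) =
      (fun x => (fun y => f y - P.eval (e 1 y)) x - conv (fejer n) (fun y => f y - P.eval (e 1 y)) x) +
        (fun x => P.eval (e 1 x) - conv (fejer n) (fun y => P.eval (e 1 y)) x) := by
    funext x
    simp only [Pi.add_apply]
    rw [conv_fejer_sub n hfi (integrable_of_cont hPc)]
    ring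
  rw [hsub]
  refine (eLpNorm_add_le ?_ ?_ hp1).trans ?_
  · exact hgm.1.sub (conv_fejer_continuous n (memLp_integrable' hp hgm)).aestronglyMeasurable
  · exact (hPc.sub (conv_fejer_poly_continuous n P)).aestronglyMeasurable
  have h1 := hB n _ hgm
  have h2 := h P
  have h3 : eLpNorm (fun x => P.eval (e 1 x)) (ENNReal.ofReal p) μ ≤
      eLpNorm f (ENNReal.ofReal p) μ + δ := by
    have h4 : (fun x : Circ => P.eval (e 1 x)) = f - (fun x => f x - P.eval (e 1 x)) := by
      funext x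
      simp
    rw [h4]
    refine (eLpNorm_sub_le hf.1.1 hgm.1 hp1).trans ?_
    gcongr
  calc _ ≤ ENNReal.ofReal B * δ + ENNReal.ofReal c * (eLpNorm f (ENNReal.ofReal p) μ + δ) := by
        refine add_le_add (h1.trans ?_) (h2.trans ?_)
        · gcongr
        · gcongr
    _ = ENNReal.ofReal c * eLpNorm f (ENNReal.ofReal p) μ +
        (ENNReal.ofReal c + ENNReal.ofReal B) * δ := by ring
    _ ≤ ENNReal.ofReal c * eLpNorm f (ENNReal.ofReal p) μ + ε := by
        gcongr
        calc (ENNReal.ofReal c + ENNReal.ofReal B) * δ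
            ≤ (ENNReal.ofReal c + ENNReal.ofReal B + 1) * δ := mul_le_mul' le_self_add le_rfl
          _ = ε := by rw [hδ, ENNReal.mul_div_cancel hden0 hdent]

/-- The Poisson operators are averages of the Fejér operators. -/
theorem poisson_of_fejer {p c : ℝ} (hp : 1 ≤ p) {r : ℝ} (h0 : 0 ≤ r) (h1 : r < 1)
    (f : Circ → ℂ) (hf : MemLp f (ENNReal.ofReal p) μ)
    (h : ∀ n : ℕ, eLpNorm (fun x => f x - conv (fejer n) f x) (ENNReal.ofReal p) μ ≤
      ENNReal.ofReal c * eLpNorm f (ENNReal.ofReal p) μ) :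
    eLpNorm (fun x => f x - conv (poisson r) f x) (ENNReal.ofReal p) μ ≤
      ENNReal.ofReal c * eLpNorm f (ENNReal.ofReal p) μ := by
  have hfi := memLp_integrable' hp hf
  have hp1 := one_le_ofReal hp
  set T : ℕ → Circ → ℂ := fun n x => f x - conv (fejer n) f x with hT
  have hTm : ∀ n, AEStronglyMeasurable (T n) μ := fun n =>
    hf.1.sub (conv_fejer_continuous n hfi).aestronglyMeasurable
  set F : ℕ → Circ → ℂ := fun N => ∑ n ∈ Finset.range N, cn r n • T n with hF
  have hFm : ∀ N, AEStronglyMeasurable (F N) μ := fun N =>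
    Finset.aestronglyMeasurable_sum _ fun n _ => (hTm n).const_smul _
  have hlim : ∀ᵐ x ∂μ, Tendsto (fun N => F N x) atTop (𝓝 (f x - conv (poisson r) f x)) := by
    refine Filter.Eventually.of_forall fun x => ?_
    have h2 : HasSum (fun n => cn r n • T n x) (f x - conv (poisson r) f x) := by
      have h3 := ((cn_hasSum h0 h1).smul_const (f x)).sub (conv_poisson_hasSum h0 h1 hfi x)
      rw [one_smul] at h3
      refine h3.congr_fun fun n => ?_
      simp only [hT]
      rw [smul_sub]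
    have h4 := h2.tendsto_sum_nat
    refine h4.congr fun N => ?_
    simp [hF, Finset.sum_apply]
  refine (Lp.eLpNorm_lim_le_liminf_eLpNorm hFm _ hlim).trans ?_
  have hbd : ∀ N, eLpNorm (F N) (ENNReal.ofReal p) μ ≤ ENNReal.ofReal c * eLpNorm f (ENNReal.ofReal p) μ := by
    intro N
    calc eLpNorm (F N) (ENNReal.ofReal p) μ
        ≤ ∑ n ∈ Finset.range N, eLpNorm (cn r n • T n) (ENNReal.ofReal p) μ :=
          eLpNorm_sum_le (fun n _ => (hTm n).const_smul _) hp1
      _ ≤ ∑ n ∈ Finset.range N, ENNReal.ofReal (cn r n) * (ENNReal.ofReal c * eLpNorm f (ENNReal.ofReal p) μ) := by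
          refine Finset.sum_le_sum fun n _ => ?_
          rw [eLpNorm_const_smul]
          have : ‖cn r n‖ₑ = ENNReal.ofReal (cn r n) := by
            rw [← ofReal_norm, Real.norm_of_nonneg (cn_nonneg h0 n)]
          rw [this]
          exact mul_le_mul_right (h n) _
      _ = ENNReal.ofReal (∑ n ∈ Finset.range N, cn r n) * (ENNReal.ofReal c * eLpNorm f (ENNReal.ofReal p) μ) := by
          rw [ENNReal.ofReal_sum_of_nonneg (fun n _ => cn_nonneg h0 n), Finset.sum_mul]
      _ ≤ 1 * (ENNReal.ofReal c * eLpNorm f (ENNReal.ofReal p) μ) := by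
          refine mul_le_mul_left ?_ _
          rw [← ENNReal.ofReal_one]
          refine ENNReal.ofReal_le_ofReal ?_
          exact sum_le_hasSum _ (fun n _ => cn_nonneg h0 n) (cn_hasSum h0 h1)
      _ = _ := one_mul _
  exact liminf_le_of_frequently_le' (Filter.Frequently.of_forall hbd)

/-- upper bound, `p = 4` -/
theorem upper_four (n : ℕ) {φ : ℝ} (hφ0 : 0 < φ) (hφ : φ ^ 2 = φ + 1) {f : Circ → ℂ}
    (hf : InHardy (ENNReal.ofReal 4) f) :
    eLpNorm (fun x => f x - conv (fejer n) f x) (ENNReal.ofReal 4) μ ≤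
      ENNReal.ofReal (φ ^ (1 / 4 : ℝ)) * eLpNorm f (ENNReal.ofReal 4) μ := by
  refine upper_of_poly (by norm_num) (Real.rpow_nonneg hφ0.le _) n (fun P => ?_) hf
  refine eLpNorm_le_of_int (by norm_num) (Real.rpow_nonneg hφ0.le _)
    ((poly_continuous P).sub (conv_fejer_poly_continuous n P)) (poly_continuous P) ?_
  have h1 := poly_four n P hφ0 hφ
  rw [← Real.rpow_mul hφ0.le, one_div_mul_cancel (by norm_num), Real.rpow_one]
  have h2 : ∀ a : ℝ, a ^ (4:ℝ) = a ^ 4 := fun a => by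
    rw [show (4:ℝ) = ((4:ℕ):ℝ) by norm_num, Real.rpow_natCast]
  simp_rw [h2]
  exact h1

end Pool.Agent.Y112.HP
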