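import Mathlib
import Pool.Agent.Y112.HP.Upper

/-! Lower bounds: functions `h(z^N)`. -/

set_option autoImplicit false
open MeasureTheory Filter Topology
open scoped ComplexConjugate

namespace Pool.Agent.Y112.HP

open Pool.Agent.Helper418.FE

lemma e_mem_closedBall (y : Circ) : e 1 y ∈ Metric.closedBall (0:ℂ) 1 := by
  rw [mem_closedBall_zero_iff, norm_e]

lemma comp_cont {h : ℂ → ℂ} (hh : DiffContOnCl ℂ h (Metric.ball 0 1)) : Continuous fun y : Circ => h (e 1 y) := by
  have h1 : ContinuousOn h (Metric.closedBall 0 1) := by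
    have := hh.continuousOn
    rwa [closure_ball (0:ℂ) one_ne_zero] at this
  exact h1.comp_continuous cont_e e_mem_closedBall

lemma e_pow (j : ℕ) (y : Circ) : e (j:ℤ) y = (e 1 y) ^ j := by
  induction j with
  | zero => simp [e_zero]
  | succ k ih =>
    rw [pow_succ, ← ih, ← e_add]
    push_cast
    rfl

lemma coeff_pos {h : ℂ → ℂ} (hh : DiffContOnCl ℂ h (Metric.ball 0 1)) {j : ℕ} (hj : j ≠ 0) :
    ∫ y, e (j:ℤ) y * h (e 1 y) ∂μ = 0 := by
  have h1 : DiffContOnCl ℂ (fun z => z ^ j * h z) (Metric.ball 0 1) :=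
    ((differentiable_id.pow j).diffContOnCl).smul hh
  have h2 := mv _ h1
  simp only [zero_pow hj, zero_mul] at h2
  rw [← h2]
  congr 1
  funext y
  rw [e_pow]

/-- `h(z^N)` belongs to every `H^p` -/
lemma inHardy_comp {h : ℂ → ℂ} (hh : DiffContOnCl ℂ h (Metric.ball 0 1)) {N : ℕ} (hN : N ≠ 0)
    (p : ENNReal) : InHardy p (fun x => h (e 1 (N • x))) := by
  have hc := comp_cont hh
  refine ⟨memLp_cont (hc.comp (continuous_nsmul N)) p, fun k hk => ?_⟩
  rw [fourierCoeff_eq]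
  by_cases hd : (N:ℤ) ∣ -k
  · obtain ⟨j, hj⟩ := hd
    have hN' : (0:ℤ) < N := by exact_mod_cast Nat.pos_of_ne_zero hN
    have hj0 : 0 < j := by
      by_contra hcon
      have : (N:ℤ) * j ≤ 0 := mul_nonpos_of_nonneg_of_nonpos hN'.le (not_lt.mp hcon)
      omega
    obtain ⟨i, rfl⟩ : ∃ i : ℕ, j = i := ⟨j.toNat, by omega⟩
    have hi : i ≠ 0 := by
      rintro rfl
      simp at hj0
    have h1 : ∀ y : Circ, e (-k) y * h (e 1 (N • y)) = (fun z => e (i:ℤ) z * h (e 1 z)) (N • y) := by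
      intro y
      simp only
      rw [hj, ← e_nsmul]
    simp_rw [h1]
    exact (int_nsmul hN (G := fun z => e (i:ℤ) z * h (e 1 z)) ((e_continuous _).mul hc)).trans
      (coeff_pos hh hi)
  · exact integral_e_gN hN hd (fun y => h (e 1 y))

lemma eLpNorm_comp_N {G : Circ → ℂ} (hG : Continuous G) {N : ℕ} (hN : N ≠ 0) (p : ENNReal) :
    eLpNorm (fun x : Circ => G (N • x)) p μ = eLpNorm G p μ :=
  eLpNorm_comp_measurePreserving (p := p) (g := G) (f := fun x : Circ => N • x)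
    (μ := μ) (ν := μ) hG.aestronglyMeasurable (mp_nsmul hN)

lemma poisson_near {r : ℝ} (h0 : 0 ≤ r) (h1 : r < 1) {N : ℕ} (hN : N ≠ 0) {G : Circ → ℂ}
    (hG : Continuous G) {M : ℝ} (hM : ∀ x, ‖G x‖ ≤ M) (x : Circ) :
    ‖conv (poisson r) (fun y : Circ => G (N • y)) x - ∫ y, G y ∂μ‖ ≤
      2 * M * (1 - ∑ n ∈ Finset.range N, cn r n) := by
  set m : ℂ := ∫ y, G y ∂μ with hm
  have hfN : Integrable (fun y : Circ => G (N • y)) μ :=
    integrable_of_cont (hG.comp (continuous_nsmul N))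
  have hmM : ‖m‖ ≤ M := by
    rw [hm]
    have := norm_integral_le_of_norm_le_const (μ := μ) (f := G) (C := M)
      (Filter.Eventually.of_forall hM)
    simpa using this
  have h2 : HasSum (fun n => cn r n • (conv (fejer n) (fun y : Circ => G (N • y)) x - m))
      (conv (poisson r) (fun y : Circ => G (N • y)) x - m) := by
    have h3 := (conv_poisson_hasSum h0 h1 hfN x).sub ((cn_hasSum h0 h1).smul_const m)
    rw [one_smul] at h3
    refine h3.congr_fun fun n => ?_
    rw [smul_sub]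
  have h3 := (hasSum_nat_add_iff' N).mpr h2
  have h4 : ∑ i ∈ Finset.range N, cn r i • (conv (fejer i) (fun y : Circ => G (N • y)) x - m) = 0 := by
    refine Finset.sum_eq_zero fun i hi => ?_
    rw [conv_fejer_gN (Finset.mem_range.mp hi) (integrable_of_cont hG) x, sub_self, smul_zero]
  rw [h4, sub_zero] at h3
  have h5 : HasSum (fun n => cn r (n + N) * (2 * M)) ((1 - ∑ n ∈ Finset.range N, cn r n) * (2 * M)) :=
    ((hasSum_nat_add_iff' N).mpr (cn_hasSum h0 h1)).mul_right _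
  have h6 := tsum_of_norm_bounded h5 (f := fun n => cn r (n + N) • (conv (fejer (n + N)) (fun y : Circ => G (N • y)) x - m)) ?_
  · rw [h3.tsum_eq] at h6
    refine h6.trans (le_of_eq ?_)
    ring
  · intro n
    rw [norm_smul, Real.norm_of_nonneg (cn_nonneg h0 _)]
    refine mul_le_mul_of_nonneg_left ?_ (cn_nonneg h0 _)
    refine (norm_sub_le _ _).trans ?_
    have := conv_fejer_bound (n + N) (f := fun y : Circ => G (N • y)) (M := M) (fun y => hM _) x
    linarith

/-- lower bound for the Fejér kernels -/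
theorem fejer_lower_hardy {p c N₀ : ℝ} (n : ℕ) (hc : 0 ≤ c)
    (hb : ∀ f : Circ → ℂ, InHardy (ENNReal.ofReal p) f →
      eLpNorm (fun x => f x - conv (fejer n) f x) (ENNReal.ofReal p) μ
        ≤ ENNReal.ofReal c * eLpNorm f (ENNReal.ofReal p) μ)
    {h : ℂ → ℂ} (hh : DiffContOnCl ℂ h (Metric.ball 0 1))
    (h0 : eLpNorm (fun x => h (e 1 x)) (ENNReal.ofReal p) μ ≠ 0)
    (hE : ENNReal.ofReal N₀ * eLpNorm (fun x => h (e 1 x)) (ENNReal.ofReal p) μ ≤
      eLpNorm (fun x => h (e 1 x) - h 0) (ENNReal.ofReal p) μ) :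
    N₀ ≤ c := by
  have hcG := comp_cont hh
  have hN : n + 1 ≠ 0 := Nat.succ_ne_zero n
  have h2 := hb _ (inHardy_comp hh hN _)
  have h3 : (fun x : Circ => h (e 1 ((n+1) • x)) - conv (fejer n) (fun x : Circ => h (e 1 ((n+1) • x))) x) =
      fun x : Circ => (fun y => h (e 1 y) - h 0) ((n+1) • x) := by
    funext x
    rw [conv_fejer_gN (G := fun y => h (e 1 y)) (Nat.lt_succ_self n) (integrable_of_cont hcG) x, mv h hh]
  rw [h3, eLpNorm_comp_N (G := fun y => h (e 1 y) - h 0) (hcG.sub continuous_const) hN,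
    eLpNorm_comp_N hcG hN] at h2
  exact le_of_ofReal hc h0 (memLp_cont hcG _).2.ne (hE.trans h2)

/-- lower bound for the Poisson kernels -/
theorem poisson_lower_hardy {p c N₀ : ℝ} (hp : 1 ≤ p) {r : ℝ} (hr0 : 0 ≤ r) (hr1 : r < 1) (hc : 0 ≤ c)
    (hb : ∀ f : Circ → ℂ, InHardy (ENNReal.ofReal p) f →
      eLpNorm (fun x => f x - conv (poisson r) f x) (ENNReal.ofReal p) μ
        ≤ ENNReal.ofReal c * eLpNorm f (ENNReal.ofReal p) μ)
    {h : ℂ → ℂ} (hh : DiffContOnCl ℂ h (Metric.ball 0 1))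
    (h0 : eLpNorm (fun x => h (e 1 x)) (ENNReal.ofReal p) μ ≠ 0)
    (hE : ENNReal.ofReal N₀ * eLpNorm (fun x => h (e 1 x)) (ENNReal.ofReal p) μ ≤
      eLpNorm (fun x => h (e 1 x) - h 0) (ENNReal.ofReal p) μ) :
    N₀ ≤ c := by
  have hp1 := one_le_ofReal hp
  have hcG := comp_cont hh
  set G : Circ → ℂ := fun x => h (e 1 x) with hG
  set Y := eLpNorm G (ENNReal.ofReal p) μ with hY
  obtain ⟨M, hM⟩ := (isCompact_univ (X := Circ)).exists_bound_of_continuousOn (f := G) hcG.continuousOn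
  have hM' : ∀ x, ‖G x‖ ≤ M := fun x => hM x (Set.mem_univ x)
  have hint : ∫ y, G y ∂μ = h 0 := mv h hh
  have key : ∀ N : ℕ, N ≠ 0 → ENNReal.ofReal N₀ * Y ≤ ENNReal.ofReal c * Y +
      ENNReal.ofReal (2 * M * (1 - ∑ n ∈ Finset.range N, cn r n)) := by
    intro N hN
    have hGN : Continuous fun x : Circ => G (N • x) := hcG.comp (continuous_nsmul N)
    have hfi : Integrable (fun x : Circ => G (N • x)) μ := integrable_of_cont hGN
    have h2 := hb _ (inHardy_comp hh hN _)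
    have h2' : eLpNorm (fun x => G (N • x) - conv (poisson r) (fun x => G (N • x)) x) (ENNReal.ofReal p) μ
        ≤ ENNReal.ofReal c * Y := by
      refine h2.trans (le_of_eq ?_)
      rw [hY, ← eLpNorm_comp_N hcG hN]
    have h3 : ENNReal.ofReal N₀ * Y ≤ eLpNorm (fun x : Circ => (fun y => G y - h 0) (N • x)) (ENNReal.ofReal p) μ := by
      rw [eLpNorm_comp_N (G := fun y => G y - h 0) (hcG.sub continuous_const) hN]
      exact hE
    refine h3.trans ?_
    have h4 : (fun x : Circ => (fun y => G y - h 0) (N • x)) =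
        (fun x : Circ => G (N • x) - conv (poisson r) (fun x : Circ => G (N • x)) x) +
        (fun x : Circ => conv (poisson r) (fun x : Circ => G (N • x)) x - h 0) := by
      funext x
      simp only [Pi.add_apply]
      ring
    rw [h4]
    refine (eLpNorm_add_le ?_ ?_ hp1).trans (add_le_add h2' ?_)
    · exact (hGN.sub (conv_poisson_aesm hr0 hr1 hfi)).aestronglyMeasurable
    · exact ((conv_poisson_aesm hr0 hr1 hfi).sub continuous_const).aestronglyMeasurable
    · have h5 := eLpNorm_le_of_ae_bound (p := ENNReal.ofReal p) (μ := μ)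
        (f := fun x : Circ => conv (poisson r) (fun x : Circ => G (N • x)) x - h 0)
        (C := 2 * M * (1 - ∑ n ∈ Finset.range N, cn r n))
        (Filter.Eventually.of_forall fun x => by
          have := poisson_near hr0 hr1 hN hcG hM' x
          rwa [hint] at this)
      simpa using h5
  have hlim : Tendsto (fun N : ℕ => ENNReal.ofReal c * Y +
      ENNReal.ofReal (2 * M * (1 - ∑ n ∈ Finset.range N, cn r n))) atTop
      (𝓝 (ENNReal.ofReal c * Y + ENNReal.ofReal (2 * M * (1 - 1)))) := by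
    refine Tendsto.const_add _ ?_
    refine (ENNReal.continuous_ofReal.tendsto _).comp ?_
    refine Tendsto.const_mul _ (Tendsto.const_sub _ ?_)
    exact (cn_hasSum hr0 hr1).tendsto_sum_nat
  rw [sub_self, mul_zero, ENNReal.ofReal_zero, add_zero] at hlim
  have h6 : ENNReal.ofReal N₀ * Y ≤ ENNReal.ofReal c * Y := by
    refine ge_of_tendsto hlim ?_
    filter_upwards [eventually_ge_atTop 1] with N hN
    exact key N (by omega)
  exact le_of_ofReal hc h0 (memLp_cont hcG _).2.ne h6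

lemma le_eLpNorm_of_int {p c : ℝ} (hp : 0 < p) (hc : 0 ≤ c) {F G : Circ → ℂ} (hF : Continuous F)
    (hG : Continuous G) (h : c ^ p * ∫ x, ‖G x‖ ^ p ∂μ ≤ ∫ x, ‖F x‖ ^ p ∂μ) :
    ENNReal.ofReal c * eLpNorm G (ENNReal.ofReal p) μ ≤ eLpNorm F (ENNReal.ofReal p) μ := by
  rw [eLpNorm_cont hp hF, eLpNorm_cont hp hG, ← ENNReal.ofReal_mul hc]
  refine ENNReal.ofReal_le_ofReal ?_
  have hG0 : 0 ≤ ∫ x, ‖G x‖ ^ p ∂μ := integral_nonneg fun x => Real.rpow_nonneg (norm_nonneg _) _
  calc c * (∫ x, ‖G x‖ ^ p ∂μ) ^ (1 / p) = (c ^ p * ∫ x, ‖G x‖ ^ p ∂μ) ^ (1 / p) := by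
        rw [Real.mul_rpow (Real.rpow_nonneg hc _) hG0, ← Real.rpow_mul hc, mul_one_div_cancel hp.ne',
          Real.rpow_one]
    _ ≤ (∫ x, ‖F x‖ ^ p ∂μ) ^ (1 / p) :=
        Real.rpow_le_rpow (mul_nonneg (Real.rpow_nonneg hc _) hG0) h (by positivity)

lemma eLpNorm_ne_zero {p : ℝ} (hp : 0 < p) {h : ℂ → ℂ} (hh : DiffContOnCl ℂ h (Metric.ball 0 1))
    (h0 : h 0 ≠ 0) : eLpNorm (fun x => h (e 1 x)) (ENNReal.ofReal p) μ ≠ 0 := by
  intro hz
  rw [eLpNorm_eq_zero_iff (comp_cont hh).aestronglyMeasurable (by simpa using hp)] at hz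
  have h1 := mv h hh
  rw [integral_congr_ae hz] at h1
  simp at h1
  exact h0 h1.symm

lemma diffContOnCl_of_closedBall {h : ℂ → ℂ} (hd : ∀ z : ℂ, ‖z‖ ≤ 1 → DifferentiableAt ℂ h z) :
    DiffContOnCl ℂ h (Metric.ball 0 1) := by
  refine DifferentiableOn.diffContOnCl ?_
  rw [closure_ball (0:ℂ) one_ne_zero]
  intro z hz
  exact (hd z (by simpa using hz)).differentiableWithinAt

lemma re_mv {h : ℂ → ℂ} (hh : DiffContOnCl ℂ h (Metric.ball 0 1)) : ∫ y, (h (e 1 y)).re ∂μ = (h 0).re := by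
  rw [int_re (comp_cont hh), mv h hh]

end Pool.Agent.Y112.HP
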