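import Mathlib
import Pool.Agent.Y112.HP.Lower

/-! The extremal functions for `p = 4` and `p = 1`. -/

set_option autoImplicit false
open MeasureTheory Filter Topology
open scoped ComplexConjugate

namespace Pool.Agent.Y112.HP

open Pool.Agent.Helper418.FE

lemma den_ne {lam : ℝ} (h1 : |lam| < 1) {z : ℂ} (hz : ‖z‖ ≤ 1) : 1 + (lam:ℂ) * z ≠ 0 := by
  intro h
  have h2 : ‖(lam:ℂ) * z‖ = 1 := by
    have : (lam:ℂ) * z = -1 := by linear_combination h
    rw [this, norm_neg, norm_one]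
  rw [norm_mul, Complex.norm_real, Real.norm_eq_abs] at h2
  nlinarith [norm_nonneg z, abs_nonneg lam]

/-- the function `(λ/φ) z / (1 + λ z)` -/
noncomputable def g4 (lam φ : ℝ) (z : ℂ) : ℂ := ((lam / φ : ℝ) : ℂ) * z / (1 + (lam:ℂ) * z)

lemma g4_diff {lam φ : ℝ} (h1 : |lam| < 1) {z : ℂ} (hz : ‖z‖ ≤ 1) : DifferentiableAt ℂ (g4 lam φ) z := by
  have := den_ne h1 hz
  unfold g4
  fun_prop (disch := assumption)

lemma norm_e_sq (z : ℂ) (hz : ‖z‖ = 1) : z.re ^ 2 + z.im ^ 2 = 1 := by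
  have := Complex.sq_norm z
  rw [hz, Complex.normSq_apply] at this
  linarith

lemma g4_circle {lam φ : ℝ} (h1 : |lam| < 1) (hφ0 : 0 < φ) (hφ : φ ^ 2 = φ + 1)
    (hl : lam ^ 2 = φ / 2) {z : ℂ} (hz : ‖z‖ = 1) :
    Complex.normSq (g4 lam φ z) + 2 * φ ^ 2 * (g4 lam φ z).re - φ = 0 := by
  have hd := den_ne h1 hz.le
  have hD : 0 < Complex.normSq (1 + (lam:ℂ) * z) := Complex.normSq_pos.mpr hd
  have hxy := norm_e_sq z hz
  have hN : Complex.normSq (1 + (lam:ℂ) * z) = 1 + 2 * lam * z.re + lam ^ 2 := by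
    rw [Complex.normSq_apply]
    simp only [Complex.add_re, Complex.one_re, Complex.mul_re, Complex.ofReal_re, Complex.ofReal_im,
      zero_mul, sub_zero, Complex.add_im, Complex.one_im, Complex.mul_im, add_zero, zero_add]
    linear_combination lam ^ 2 * hxy
  have e1 : Complex.normSq (g4 lam φ z) = (lam / φ) ^ 2 / Complex.normSq (1 + (lam:ℂ) * z) := by
    unfold g4
    rw [Complex.normSq_div, Complex.normSq_mul, Complex.normSq_ofReal, Complex.normSq_apply z]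
    rw [show z.re * z.re + z.im * z.im = 1 by linear_combination hxy]
    ring
  have e2 : (g4 lam φ z).re = (lam / φ) * (z.re + lam) / Complex.normSq (1 + (lam:ℂ) * z) := by
    unfold g4
    rw [Complex.div_re]
    simp only [Complex.add_re, Complex.one_re, Complex.mul_re, Complex.ofReal_re, Complex.ofReal_im,
      zero_mul, sub_zero, Complex.add_im, Complex.one_im, Complex.mul_im, add_zero, zero_add]
    rw [← add_div]
    congr 1
    linear_combination (lam / φ * lam) * hxy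
  rw [e1, e2]
  set D := Complex.normSq (1 + (lam:ℂ) * z) with hDdef
  have hφ' : φ ≠ 0 := hφ0.ne'
  have key : lam ^ 2 + 2 * φ ^ 3 * lam * (z.re + lam) - φ ^ 3 * D = 0 := by
    rw [hN]
    linear_combination (1 + φ ^ 3) * hl + (φ * (φ - 1) / 2) * hφ
  have h2 : (lam / φ) ^ 2 / D + 2 * φ ^ 2 * (lam / φ * (z.re + lam) / D) - φ =
      (lam ^ 2 + 2 * φ ^ 3 * lam * (z.re + lam) - φ ^ 3 * D) / (φ ^ 2 * D) := by
    have hD' : D ≠ 0 := hD.ne'
    field_simp
  rw [h2, key, zero_div]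

lemma pow_four_norm (w : ℂ) : ‖w‖ ^ 4 = Complex.normSq w ^ 2 := by
  rw [Complex.normSq_eq_norm_sq]
  ring

/-- pointwise identity on the extremal circle -/
lemma pointwise_four {φ : ℝ} (hφ : φ ^ 2 = φ + 1) (w : ℂ)
    (hw : Complex.normSq w + 2 * φ ^ 2 * w.re - φ = 0) :
    φ * ‖1 + w‖ ^ 4 - ‖w‖ ^ 4 = 4 * φ ^ 3 * w.re - 2 * φ ^ 2 * (w ^ 2).re := by
  rw [pow_four_norm, pow_four_norm]
  have e1 : Complex.normSq (1 + w) = Complex.normSq w + 2 * w.re + 1 := by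
    rw [Complex.normSq_apply, Complex.normSq_apply]
    simp only [Complex.add_re, Complex.one_re, Complex.add_im, Complex.one_im, zero_add]
    ring
  have e2 : (w ^ 2).re = 2 * w.re ^ 2 - Complex.normSq w := by
    rw [sq, Complex.mul_re, Complex.normSq_apply]
    ring
  rw [e1, e2]
  set s := Complex.normSq w
  have hs : s = φ - 2 * φ ^ 2 * w.re := by linarith
  rw [hs]
  have hφ3 : φ ^ 3 = 2 * φ + 1 := by linear_combination (φ + 1) * hφ
  have hφ4 : φ ^ 4 = 3 * φ + 2 := by linear_combination (φ ^ 2 + φ + 2) * hφ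
  have hφ5 : φ ^ 5 = 5 * φ + 3 := by linear_combination (φ ^ 3 + φ ^ 2 + 2 * φ + 3) * hφ
  ring_nf
  rw [hφ5, hφ4, hφ3, hφ]
  ring

lemma int_four {lam φ : ℝ} (h1 : |lam| < 1) (hφ0 : 0 < φ) (hφ : φ ^ 2 = φ + 1)
    (hl : lam ^ 2 = φ / 2) :
    φ * ∫ y : Circ, ‖1 + g4 lam φ (e 1 y)‖ ^ 4 ∂μ = ∫ y : Circ, ‖g4 lam φ (e 1 y)‖ ^ 4 ∂μ := by
  have hg := diffContOnCl_of_closedBall (h := g4 lam φ) (fun z hz => g4_diff h1 hz)
  have hg2 := diffContOnCl_of_closedBall (h := fun z => g4 lam φ z ^ 2) (fun z hz => (g4_diff h1 hz).pow 2)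
  have hc := comp_cont hg
  have hc2 := comp_cont hg2
  have i1 : Integrable (fun y : Circ => φ * ‖1 + g4 lam φ (e 1 y)‖ ^ 4) μ :=
    integrable_of_cont (continuous_const.mul ((continuous_const.add hc).norm.pow 4))
  have i2 : Integrable (fun y : Circ => ‖g4 lam φ (e 1 y)‖ ^ 4) μ :=
    integrable_of_cont (hc.norm.pow 4)
  have i3 : Integrable (fun y : Circ => 4 * φ ^ 3 * (g4 lam φ (e 1 y)).re) μ :=
    integrable_of_cont (continuous_const.mul (Complex.continuous_re.comp hc))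
  have i4 : Integrable (fun y : Circ => 2 * φ ^ 2 * (g4 lam φ (e 1 y) ^ 2).re) μ :=
    integrable_of_cont (continuous_const.mul (Complex.continuous_re.comp hc2))
  have h2 : ∫ y : Circ, (φ * ‖1 + g4 lam φ (e 1 y)‖ ^ 4 - ‖g4 lam φ (e 1 y)‖ ^ 4) ∂μ =
      ∫ y : Circ, (4 * φ ^ 3 * (g4 lam φ (e 1 y)).re - 2 * φ ^ 2 * (g4 lam φ (e 1 y) ^ 2).re) ∂μ := by
    congr 1
    funext y
    exact pointwise_four hφ _ (g4_circle h1 hφ0 hφ hl (norm_e 1 y))
  rw [integral_sub i1 i2, integral_sub i3 i4, integral_const_mul, integral_const_mul, integral_const_mul,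
    re_mv hg, re_mv hg2] at h2
  have h3 : g4 lam φ 0 = 0 := by simp [g4]
  rw [h3] at h2
  simp only [Complex.zero_re, mul_zero, ne_eq, OfNat.ofNat_ne_zero, not_false_eq_true, zero_pow,
    sub_zero] at h2
  linarith

/-- **The case `p = 4`.** -/
theorem main_four {φ : ℝ} (hφ0 : 0 < φ) (hφ : φ ^ 2 = φ + 1) :
    (∀ n : ℕ, IsNormIdSubConvHardy (fejer n) 4 (φ ^ (1 / 4 : ℝ))) ∧
    (∀ r : ℝ, 0 ≤ r → r < 1 → IsNormIdSubConvHardy (poisson r) 4 (φ ^ (1 / 4 : ℝ))) := by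
  have hφ2 : φ < 2 := by nlinarith
  set lam := Real.sqrt (φ / 2) with hlam
  have hl : lam ^ 2 = φ / 2 := Real.sq_sqrt (by positivity)
  have hl0 : 0 ≤ lam := Real.sqrt_nonneg _
  have h1 : |lam| < 1 := by
    rw [abs_of_nonneg hl0]
    nlinarith
  set h : ℂ → ℂ := fun z => 1 + g4 lam φ z with hh
  have hdiff : DiffContOnCl ℂ h (Metric.ball 0 1) := diffContOnCl_of_closedBall (fun z hz =>
    (differentiableAt_const _).add (g4_diff h1 hz))
  have hz : h 0 = 1 := by simp [hh, g4]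
  have hc := comp_cont hdiff
  have hne : eLpNorm (fun x => h (e 1 x)) (ENNReal.ofReal 4) μ ≠ 0 :=
    eLpNorm_ne_zero (by norm_num) hdiff (by rw [hz]; exact one_ne_zero)
  have h2 : ∀ a : ℝ, a ^ (4:ℝ) = a ^ 4 := fun a => by
    rw [show (4:ℝ) = ((4:ℕ):ℝ) by norm_num, Real.rpow_natCast]
  have hE : ENNReal.ofReal (φ ^ (1 / 4 : ℝ)) * eLpNorm (fun x => h (e 1 x)) (ENNReal.ofReal 4) μ ≤
      eLpNorm (fun x => h (e 1 x) - h 0) (ENNReal.ofReal 4) μ := by
    refine le_eLpNorm_of_int (by norm_num) (Real.rpow_nonneg hφ0.le _) (hc.sub continuous_const) hc ?_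
    rw [← Real.rpow_mul hφ0.le, one_div_mul_cancel (by norm_num), Real.rpow_one]
    simp_rw [h2, hz]
    have h3 := int_four h1 hφ0 hφ hl
    have h4 : ∀ y : Circ, h (e 1 y) - 1 = g4 lam φ (e 1 y) := fun y => by
      simp [hh]
    simp_rw [h4]
    exact h3.le
  constructor
  · intro n
    refine ⟨⟨Real.rpow_nonneg hφ0.le _, fun f hf => upper_four n hφ0 hφ hf⟩, ?_⟩
    rintro c ⟨hc0, hb⟩
    exact fejer_lower_hardy n hc0 hb hdiff hne hE
  · intro r hr0 hr1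
    refine ⟨⟨Real.rpow_nonneg hφ0.le _, fun f hf => poisson_of_fejer (by norm_num) hr0 hr1 f hf.1
      (fun n => upper_four n hφ0 hφ hf)⟩, ?_⟩
    rintro c ⟨hc0, hb⟩
    exact poisson_lower_hardy (by norm_num) hr0 hr1 hc0 hb hdiff hne hE

end Pool.Agent.Y112.HP
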