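import Mathlib
import Pool.Agent.Y112.HP.Lower

/-! Approximate factorisation `P ≈ q₁ q₂` with `|q_i|² ≈ |P|` on the unit circle, by polynomials. -/

set_option autoImplicit false
open MeasureTheory Filter Topology
open scoped ComplexConjugate

namespace Pool.Agent.Y112.HP

open Polynomial in
/-- functions holomorphic on a larger disc are uniform limits of polynomials on the unit disc -/
lemma approx_poly {g : ℂ → ℂ} {R : ℝ} (hR : 1 < R) (hg : DifferentiableOn ℂ g (Metric.closedBall 0 R))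
    {δ : ℝ} (hδ : 0 < δ) : ∃ p : ℂ[X], ∀ z : ℂ, ‖z‖ ≤ 1 → ‖g z - p.eval z‖ ≤ δ := by
  have hR0 : 0 < R := by linarith
  lift R to NNReal using hR0.le
  have h1 := DifferentiableOn.hasFPowerSeriesOnBall (c := (0:ℂ)) (R := R) hg (by exact_mod_cast hR0)
  obtain ⟨r', hr1, hr2⟩ := exists_between (show (1:NNReal) < R by exact_mod_cast hR)
  have h2 := h1.tendstoUniformlyOn (r' := r') (by exact_mod_cast hr2)
  rw [Metric.tendstoUniformlyOn_iff] at h2
  obtain ⟨N, hN⟩ := (h2 δ hδ).exists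
  refine ⟨∑ k ∈ Finset.range N, C ((cauchyPowerSeries g 0 R).coeff k) * X ^ k, fun z hz => ?_⟩
  have h3 := hN z (by
    rw [mem_ball_zero_iff]
    exact lt_of_le_of_lt hz (by exact_mod_cast hr1))
  rw [dist_eq_norm, zero_add] at h3
  have h4 : (cauchyPowerSeries g 0 R).partialSum N z =
      (∑ k ∈ Finset.range N, C ((cauchyPowerSeries g 0 R).coeff k) * X ^ k).eval z := by
    rw [eval_finsetSum]
    unfold FormalMultilinearSeries.partialSum
    refine Finset.sum_congr rfl fun k _ => ?_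
    rw [FormalMultilinearSeries.apply_eq_pow_smul_coeff, eval_mul, eval_C, eval_pow, eval_X,
      smul_eq_mul, mul_comm]
  rw [← h4]
  exact h3.le

/-- square root of `1 - c z` -/
lemma exists_root {c : ℂ} (hc : ‖c‖ < 1) : ∃ (g : ℂ → ℂ) (R : ℝ), 1 < R ∧
    DifferentiableOn ℂ g (Metric.closedBall 0 R) ∧ ∀ z ∈ Metric.closedBall (0:ℂ) R,
      g z ^ 2 = 1 - c * z ∧ g z ≠ 0 := by
  refine ⟨fun z => Complex.exp (Complex.log (1 - c * z) / 2), 2 / (1 + ‖c‖), ?_, ?_, ?_⟩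
  · rw [lt_div_iff₀ (by positivity)]
    linarith
  · intro z hz
    have hs : 1 - c * z ∈ Complex.slitPlane := by
      left
      have h1 : ‖c * z‖ < 1 := by
        rw [norm_mul]
        have hz' : ‖z‖ ≤ 2 / (1 + ‖c‖) := by simpa using hz
        calc ‖c‖ * ‖z‖ ≤ ‖c‖ * (2 / (1 + ‖c‖)) := mul_le_mul_of_nonneg_left hz' (norm_nonneg _)
          _ < 1 := by
            rw [mul_div_assoc', div_lt_one (by positivity)]
            linarith
      have h2 := (Complex.re_le_norm (c * z)).trans_lt h1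
      simp only [Complex.sub_re, Complex.one_re]
      linarith
    have h3 : DifferentiableAt ℂ (fun z => Complex.exp (Complex.log (1 - c * z) / 2)) z := by
      have h4 : DifferentiableAt ℂ (fun z => 1 - c * z) z := by fun_prop
      exact ((h4.clog hs).div_const 2).cexp
    exact h3.differentiableWithinAt
  · intro z hz
    refine ⟨?_, Complex.exp_ne_zero _⟩
    have h0 : 1 - c * z ≠ 0 := by
      intro h
      have h1 : ‖c * z‖ < 1 := by
        rw [norm_mul]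
        have hz' : ‖z‖ ≤ 2 / (1 + ‖c‖) := by simpa using hz
        calc ‖c‖ * ‖z‖ ≤ ‖c‖ * (2 / (1 + ‖c‖)) := mul_le_mul_of_nonneg_left hz' (norm_nonneg _)
          _ < 1 := by
            rw [mul_div_assoc', div_lt_one (by positivity)]
            linarith
      have h2 : c * z = 1 := by linear_combination -h
      rw [h2, norm_one] at h1
      exact lt_irrefl _ h1
    rw [← Complex.exp_nat_mul]
    have : ((2:ℕ):ℂ) * (Complex.log (1 - c * z) / 2) = Complex.log (1 - c * z) := by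
      push_cast
      ring
    rw [this, Complex.exp_log h0]

open Polynomial

/-- approximate factorisation on the circle -/
def Fac (P : ℂ[X]) : Prop := ∀ ε : ℝ, 0 < ε → ∃ q₁ q₂ : ℂ[X], ∀ z : ℂ, ‖z‖ = 1 →
  ‖P.eval z - (q₁ * q₂).eval z‖ ≤ ε ∧ ‖q₁.eval z‖ ^ 2 ≤ ‖P.eval z‖ + ε ∧
    ‖q₂.eval z‖ ^ 2 ≤ ‖P.eval z‖ + ε

lemma poly_bdd (P : ℂ[X]) : ∃ M : ℝ, 0 < M ∧ ∀ z : ℂ, ‖z‖ ≤ 1 → ‖P.eval z‖ ≤ M := by
  obtain ⟨M, hM⟩ := (isCompact_closedBall (0:ℂ) 1).exists_bound_of_continuousOn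
    (f := fun z => P.eval z) P.continuous.continuousOn
  exact ⟨max M 1, by positivity, fun z hz => (hM z (by simpa using hz)).trans (le_max_left _ _)⟩

lemma Fac.const (c : ℂ) : Fac (C c) := by
  intro ε hε
  obtain ⟨s, hs⟩ := IsAlgClosed.exists_pow_nat_eq c (n := 2) (by norm_num)
  refine ⟨C s, C s, fun z _ => ?_⟩
  have h1 : ‖s‖ ^ 2 = ‖c‖ := by rw [← norm_pow, hs]
  refine ⟨?_, ?_, ?_⟩
  · rw [← C_mul, eval_C, eval_C, ← sq, hs, sub_self, norm_zero]
    exact hε.le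
  · rw [eval_C, eval_C, h1]; linarith
  · rw [eval_C, eval_C, h1]; linarith

lemma Fac.mul {P Q : ℂ[X]} (hP : Fac P) (hQ : Fac Q) : Fac (P * Q) := by
  intro ε hε
  obtain ⟨M, hM0, hM⟩ := poly_bdd P
  obtain ⟨L, hL0, hL⟩ := poly_bdd Q
  set δ : ℝ := min 1 (ε / (M + L + 1)) with hδ
  have hδ0 : 0 < δ := by positivity
  have hδ1 : δ ≤ 1 := min_le_left _ _
  have hδ2 : δ * (M + L + 1) ≤ ε := by
    have : δ ≤ ε / (M + L + 1) := min_le_right _ _
    calc δ * (M + L + 1) ≤ ε / (M + L + 1) * (M + L + 1) :=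
          mul_le_mul_of_nonneg_right this (by positivity)
      _ = ε := by field_simp
  obtain ⟨q₁, q₂, hq⟩ := hP δ hδ0
  obtain ⟨r₁, r₂, hr⟩ := hQ δ hδ0
  refine ⟨q₁ * r₁, q₂ * r₂, fun z hz => ?_⟩
  obtain ⟨a1, a2, a3⟩ := hq z hz
  obtain ⟨b1, b2, b3⟩ := hr z hz
  have hMz := hM z hz.le
  have hLz := hL z hz.le
  have key : ∀ x y : ℝ, 0 ≤ x → 0 ≤ y → x ≤ ‖P.eval z‖ + δ → y ≤ ‖Q.eval z‖ + δ →
      x * y ≤ ‖(P * Q).eval z‖ + ε := by
    intro x y hx hy h1 h2
    rw [eval_mul, norm_mul]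
    have hP0 := norm_nonneg (P.eval z)
    have hQ0 := norm_nonneg (Q.eval z)
    calc x * y ≤ (‖P.eval z‖ + δ) * (‖Q.eval z‖ + δ) := mul_le_mul h1 h2 hy (by linarith)
      _ = ‖P.eval z‖ * ‖Q.eval z‖ + δ * (‖P.eval z‖ + ‖Q.eval z‖ + δ) := by ring
      _ ≤ ‖P.eval z‖ * ‖Q.eval z‖ + δ * (M + L + 1) := by
          gcongr
      _ ≤ _ := by linarith
  refine ⟨?_, ?_, ?_⟩
  · have e1 : (P * Q).eval z - (q₁ * r₁ * (q₂ * r₂)).eval z =
        (P.eval z - (q₁ * q₂).eval z) * Q.eval z +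
          (q₁ * q₂).eval z * (Q.eval z - (r₁ * r₂).eval z) := by
      simp only [eval_mul]
      ring
    rw [e1]
    have h3 : ‖(q₁ * q₂).eval z‖ ≤ M + 1 := by
      have : (q₁ * q₂).eval z = P.eval z - (P.eval z - (q₁ * q₂).eval z) := by ring
      rw [this]
      exact (norm_sub_le _ _).trans (by linarith)
    calc _ ≤ ‖(P.eval z - (q₁ * q₂).eval z) * Q.eval z‖ +
          ‖(q₁ * q₂).eval z * (Q.eval z - (r₁ * r₂).eval z)‖ := norm_add_le _ _
      _ ≤ δ * L + (M + 1) * δ := by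
          rw [norm_mul, norm_mul]
          gcongr
      _ = δ * (M + L + 1) := by ring
      _ ≤ ε := hδ2
  · have e5 : ‖(q₁ * r₁).eval z‖ ^ 2 = ‖q₁.eval z‖ ^ 2 * ‖r₁.eval z‖ ^ 2 := by
      rw [eval_mul, norm_mul, mul_pow]
    rw [e5]
    exact key _ _ (by positivity) (by positivity) a2 b2
  · have e5 : ‖(q₂ * r₂).eval z‖ ^ 2 = ‖q₂.eval z‖ ^ 2 * ‖r₂.eval z‖ ^ 2 := by
      rw [eval_mul, norm_mul, mul_pow]
    rw [e5]
    exact key _ _ (by positivity) (by positivity) a3 b3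

/-- approximating analytic factorisations by polynomials -/
lemma Fac.of_analytic {P : ℂ[X]} {g₁ g₂ : ℂ → ℂ} {R : ℝ} (hR : 1 < R)
    (h₁ : DifferentiableOn ℂ g₁ (Metric.closedBall 0 R)) (h₂ : DifferentiableOn ℂ g₂ (Metric.closedBall 0 R))
    (hP : ∀ z : ℂ, ‖z‖ = 1 → P.eval z = g₁ z * g₂ z ∧ ‖g₁ z‖ ^ 2 = ‖P.eval z‖ ∧
      ‖g₂ z‖ ^ 2 = ‖P.eval z‖) : Fac P := by
  intro ε hε
  obtain ⟨M, hM0, hM⟩ := poly_bdd P
  -- bound for g_i
  set K : ℝ := M + 1 with hK
  have hK1 : 1 ≤ K := by linarith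
  have hgK : ∀ x : ℝ, 0 ≤ x → x ^ 2 ≤ M → x ≤ K := by
    intro x hx h
    by_contra hcon
    push Not at hcon
    nlinarith
  set δ : ℝ := min 1 (ε / (2 * K + 1)) with hδ
  have hδ0 : 0 < δ := by positivity
  have hδ1 : δ ≤ 1 := min_le_left _ _
  have hδ2 : δ * (2 * K + 1) ≤ ε := by
    have : δ ≤ ε / (2 * K + 1) := min_le_right _ _
    calc δ * (2 * K + 1) ≤ ε / (2 * K + 1) * (2 * K + 1) :=
          mul_le_mul_of_nonneg_right this (by positivity)
      _ = ε := by field_simp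
  obtain ⟨q₁, hq₁⟩ := approx_poly hR h₁ hδ0
  obtain ⟨q₂, hq₂⟩ := approx_poly hR h₂ hδ0
  refine ⟨q₁, q₂, fun z hz => ?_⟩
  obtain ⟨e0, e1, e2⟩ := hP z hz
  have hMz := hM z hz.le
  have n1 : ‖g₁ z‖ ≤ K := hgK _ (norm_nonneg _) (e1.le.trans hMz)
  have n2 : ‖g₂ z‖ ≤ K := hgK _ (norm_nonneg _) (e2.le.trans hMz)
  have d1 := hq₁ z hz.le
  have d2 := hq₂ z hz.le
  have m1 : ‖q₁.eval z‖ ≤ ‖g₁ z‖ + δ := by
    have : q₁.eval z = g₁ z - (g₁ z - q₁.eval z) := by ring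
    rw [this]
    exact (norm_sub_le _ _).trans (by linarith)
  have m2 : ‖q₂.eval z‖ ≤ ‖g₂ z‖ + δ := by
    have : q₂.eval z = g₂ z - (g₂ z - q₂.eval z) := by ring
    rw [this]
    exact (norm_sub_le _ _).trans (by linarith)
  have key : ∀ x y : ℝ, 0 ≤ x → x ≤ y + δ → 0 ≤ y → y ≤ K → x ^ 2 ≤ y ^ 2 + ε := by
    intro x y hx h1 hy h2
    calc x ^ 2 ≤ (y + δ) ^ 2 := pow_le_pow_left₀ hx h1 2
      _ = y ^ 2 + δ * (2 * y + δ) := by ring
      _ ≤ y ^ 2 + δ * (2 * K + 1) := by gcongr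
      _ ≤ _ := by linarith
  refine ⟨?_, ?_, ?_⟩
  · rw [e0, eval_mul]
    have e3 : g₁ z * g₂ z - q₁.eval z * q₂.eval z =
        (g₁ z - q₁.eval z) * g₂ z + q₁.eval z * (g₂ z - q₂.eval z) := by ring
    rw [e3]
    calc _ ≤ ‖(g₁ z - q₁.eval z) * g₂ z‖ + ‖q₁.eval z * (g₂ z - q₂.eval z)‖ := norm_add_le _ _
      _ ≤ δ * K + (K + 1) * δ := by
          rw [norm_mul, norm_mul]
          have : ‖q₁.eval z‖ ≤ K + 1 := by linarith
          gcongr
      _ = δ * (2 * K + 1) := by ring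
      _ ≤ ε := hδ2
  · rw [← e1]
    exact key _ _ (norm_nonneg _) m1 (norm_nonneg _) n1
  · rw [← e2]
    exact key _ _ (norm_nonneg _) m2 (norm_nonneg _) n2

lemma exists_sqrt (c : ℂ) : ∃ s : ℂ, s ^ 2 = c := IsAlgClosed.exists_pow_nat_eq c (by norm_num)

/-- a zero outside the closed disc -/
lemma Fac.outside {a : ℂ} (ha : 1 < ‖a‖) : Fac (X - C a) := by
  have ha0 : a ≠ 0 := by
    rintro rfl
    rw [norm_zero] at ha
    linarith
  have hc : ‖a⁻¹‖ < 1 := by
    rw [norm_inv]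
    exact inv_lt_one_of_one_lt₀ ha
  obtain ⟨g, R, hR, hg, hz⟩ := exists_root hc
  obtain ⟨s, hs⟩ := exists_sqrt (-a)
  refine Fac.of_analytic (g₁ := fun z => s * g z) (g₂ := fun z => s * g z) hR
    ((differentiableOn_const _).mul hg) ((differentiableOn_const _).mul hg) (fun z h1 => ?_)
  have h2 := (hz z (by simp [h1, hR.le])).1
  have h3 : (X - C a).eval z = (s * g z) ^ 2 := by
    rw [mul_pow, hs, h2, eval_sub, eval_X, eval_C]
    field_simp
    ring
  refine ⟨by rw [h3, sq], ?_, ?_⟩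
  · rw [h3, norm_pow]
  · rw [h3, norm_pow]

/-- a zero inside the open disc -/
lemma Fac.inside {a : ℂ} (ha : ‖a‖ < 1) : Fac (X - C a) := by
  have hc : ‖conj a‖ < 1 := by rwa [RCLike.norm_conj]
  obtain ⟨g, R, hR, hg, hz⟩ := exists_root hc
  refine Fac.of_analytic (g₁ := fun z => (z - a) / g z) (g₂ := g) hR
    (((differentiableOn_id).sub (differentiableOn_const _)).div hg (fun z h => (hz z h).2)) hg
    (fun z h1 => ?_)
  obtain ⟨h2, h3⟩ := hz z (by simp [h1, hR.le])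
  have h4 : ‖1 - conj a * z‖ = ‖z - a‖ := by
    have h5 : conj z * z = 1 := by
      rw [mul_comm, Complex.mul_conj, Complex.normSq_eq_norm_sq, h1]
      simp
    have h6 : 1 - conj a * z = conj (z - a) * z := by
      rw [map_sub, sub_mul, h5]
    rw [h6, norm_mul, h1, mul_one, RCLike.norm_conj]
  have h7 : ‖g z‖ ^ 2 = ‖z - a‖ := by rw [← norm_pow, h2, h4]
  have h8 : ‖g z‖ ≠ 0 := norm_ne_zero_iff.mpr h3
  refine ⟨?_, ?_, ?_⟩
  · rw [eval_sub, eval_X, eval_C]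
    field_simp
  · rw [eval_sub, eval_X, eval_C, norm_div, div_pow, h7, sq]
    have : ‖z - a‖ ≠ 0 := by
      rw [← h7]
      exact pow_ne_zero 2 h8
    field_simp
  · rw [eval_sub, eval_X, eval_C, h7]

lemma Fac.linear (a : ℂ) : Fac (X - C a) := by
  rcases lt_trichotomy ‖a‖ 1 with h | h | h
  · exact Fac.inside h
  · -- approximate by a zero inside
    intro ε hε
    set ρ : ℝ := max 0 (1 - ε / 2) with hρ
    have hρ0 : 0 ≤ ρ := le_max_left _ _
    have hρ1 : ρ < 1 := by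
      rw [hρ]
      exact max_lt one_pos (by linarith)
    have hρ2 : 1 - ρ ≤ ε / 2 := by
      have : 1 - ε / 2 ≤ ρ := le_max_right _ _
      linarith
    have hb : ‖(ρ:ℂ) * a‖ < 1 := by
      rw [norm_mul, h, mul_one, Complex.norm_real, Real.norm_of_nonneg hρ0]
      exact hρ1
    obtain ⟨q₁, q₂, hq⟩ := Fac.inside hb (ε / 2) (by linarith)
    refine ⟨q₁, q₂, fun z hz => ?_⟩
    obtain ⟨a1, a2, a3⟩ := hq z hz
    have d : ‖(X - C a).eval z - (X - C ((ρ:ℂ) * a)).eval z‖ ≤ ε / 2 := by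
      simp only [eval_sub, eval_X, eval_C]
      have : z - a - (z - (ρ:ℂ) * a) = -(((1 - ρ : ℝ) : ℂ) * a) := by
        push_cast
        ring
      rw [this, norm_neg, norm_mul, h, mul_one, Complex.norm_real, Real.norm_of_nonneg (by linarith)]
      exact hρ2
    have d' : ‖(X - C ((ρ:ℂ) * a)).eval z‖ ≤ ‖(X - C a).eval z‖ + ε / 2 := by
      have : (X - C ((ρ:ℂ) * a)).eval z = (X - C a).eval z -
        ((X - C a).eval z - (X - C ((ρ:ℂ) * a)).eval z) := by ring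
      rw [this]
      exact (norm_sub_le _ _).trans (by linarith)
    refine ⟨?_, by linarith, by linarith⟩
    have : (X - C a).eval z - (q₁ * q₂).eval z = ((X - C a).eval z - (X - C ((ρ:ℂ) * a)).eval z) +
      ((X - C ((ρ:ℂ) * a)).eval z - (q₁ * q₂).eval z) := by ring
    rw [this]
    exact (norm_add_le _ _).trans (by linarith)
  · exact Fac.outside h

lemma Fac.multiset (s : Multiset ℂ) : Fac ((s.map fun a => X - C a).prod) := by
  induction s using Multiset.induction_on with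
  | empty =>
    simpa using Fac.const 1
  | cons a s ih =>
    rw [Multiset.map_cons, Multiset.prod_cons]
    exact (Fac.linear a).mul ih

/-- every polynomial has approximate factorisations -/
theorem fac (P : ℂ[X]) : Fac P := by
  have h := IsAlgClosed.splits P
  have h2 := h.eq_prod_roots
  rw [h2]
  exact (Fac.const _).mul (Fac.multiset _)

end Pool.Agent.Y112.HP
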