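import Mathlib
import Pool.Agent.Y112.HP.Fact
import Pool.Agent.Y112.HP.Ext

/-! The case `p = 1`. -/

set_option autoImplicit false
open MeasureTheory Filter Topology
open scoped ComplexConjugate

namespace Pool.Agent.Y112.HP

open Pool.Agent.Helper418.FE

lemma poly_one_gen (n : ℕ) (P : Polynomial ℂ) :
    ∫ x, ‖P.eval (e 1 x) - conv (fejer n) (fun y => P.eval (e 1 y)) x‖ ∂μ ≤
      (2 / Real.sqrt 3) * ∫ x, ‖P.eval (e 1 x)‖ ∂μ := by
  obtain ⟨hs0, -⟩ := sqrt3_facts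
  refine le_of_forall_pos_le_add fun η hη => ?_
  set ε : ℝ := η / (2 / Real.sqrt 3 + 2) with hε
  have hε0 : 0 < ε := by positivity
  obtain ⟨q₁, q₂, hq⟩ := fac P ε hε0
  have hPc := poly_continuous P
  have hQc := poly_continuous (q₁ * q₂)
  have h1 := poly_one n q₁ q₂
  have i1 : Integrable (fun x : Circ => ‖P.eval (e 1 x)‖ + ε) μ :=
    (integrable_of_cont hPc.norm).add (integrable_const _)
  have h2 : ∀ q : Polynomial ℂ, (∀ z : ℂ, ‖z‖ = 1 → ‖q.eval z‖ ^ 2 ≤ ‖P.eval z‖ + ε) →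
      ∫ x, ‖q.eval (e 1 x)‖ ^ 2 ∂μ ≤ ∫ x, ‖P.eval (e 1 x)‖ ∂μ + ε := by
    intro q hqq
    have h3 : ∫ x : Circ, ‖q.eval (e 1 x)‖ ^ 2 ∂μ ≤ ∫ x : Circ, (‖P.eval (e 1 x)‖ + ε) ∂μ :=
      integral_mono (integrable_of_cont ((poly_continuous q).norm.pow 2)) i1
        (fun x => hqq _ (norm_e 1 x))
    rw [integral_add (integrable_of_cont hPc.norm) (integrable_const _)] at h3
    simpa using h3
  have h3 : ∫ x, ‖P.eval (e 1 x) - conv (fejer n) (fun y => P.eval (e 1 y)) x‖ ∂μ ≤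
      ∫ x, ‖(q₁ * q₂).eval (e 1 x) - conv (fejer n) (fun y => (q₁ * q₂).eval (e 1 y)) x‖ ∂μ + 2 * ε := by
    have i2 : Integrable (fun x : Circ => ‖(q₁ * q₂).eval (e 1 x) -
        conv (fejer n) (fun y => (q₁ * q₂).eval (e 1 y)) x‖) μ :=
      integrable_of_cont (hQc.sub (conv_fejer_poly_continuous n _)).norm
    have h4 : ∫ x, ‖P.eval (e 1 x) - conv (fejer n) (fun y => P.eval (e 1 y)) x‖ ∂μ ≤
        ∫ x, (‖(q₁ * q₂).eval (e 1 x) - conv (fejer n) (fun y => (q₁ * q₂).eval (e 1 y)) x‖ + 2 * ε) ∂μ := by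
      refine integral_mono (integrable_of_cont (hPc.sub (conv_fejer_poly_continuous n _)).norm)
        (i2.add (integrable_const _)) (fun x => ?_)
      have h5 : ∀ y : Circ, ‖P.eval (e 1 y) - (q₁ * q₂).eval (e 1 y)‖ ≤ ε := fun y =>
        (hq _ (norm_e 1 y)).1
      have h6 := conv_fejer_bound n (f := fun y : Circ => P.eval (e 1 y) - (q₁ * q₂).eval (e 1 y)) h5 x
      rw [conv_fejer_sub n (integrable_of_cont hPc) (integrable_of_cont hQc)] at h6
      have h7 : P.eval (e 1 x) - conv (fejer n) (fun y => P.eval (e 1 y)) x =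
          ((q₁ * q₂).eval (e 1 x) - conv (fejer n) (fun y => (q₁ * q₂).eval (e 1 y)) x) +
          ((P.eval (e 1 x) - (q₁ * q₂).eval (e 1 x)) -
            (conv (fejer n) (fun y => P.eval (e 1 y)) x - conv (fejer n) (fun y => (q₁ * q₂).eval (e 1 y)) x)) := by
        ring
      simp only
      rw [h7]
      refine (norm_add_le _ _).trans ?_
      have h8 := norm_sub_le (P.eval (e 1 x) - (q₁ * q₂).eval (e 1 x))
        (conv (fejer n) (fun y => P.eval (e 1 y)) x - conv (fejer n) (fun y => (q₁ * q₂).eval (e 1 y)) x)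
      linarith [h5 x]
    rw [integral_add i2 (integrable_const _)] at h4
    simpa using h4
  have h4 := h2 q₁ (fun z hz => (hq z hz).2.1)
  have h5 := h2 q₂ (fun z hz => (hq z hz).2.2)
  calc _ ≤ (1 / Real.sqrt 3) * (∫ x, ‖q₁.eval (e 1 x)‖ ^ 2 ∂μ + ∫ x, ‖q₂.eval (e 1 x)‖ ^ 2 ∂μ) + 2 * ε := by
        linarith
    _ ≤ (1 / Real.sqrt 3) * ((∫ x, ‖P.eval (e 1 x)‖ ∂μ + ε) + (∫ x, ‖P.eval (e 1 x)‖ ∂μ + ε)) + 2 * ε := by
        gcongr
    _ = (2 / Real.sqrt 3) * ∫ x, ‖P.eval (e 1 x)‖ ∂μ + ε * (2 / Real.sqrt 3 + 2) := by ring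
    _ = _ := by
        rw [hε]
        congr 1
        field_simp

/-- upper bound, `p = 1` -/
theorem upper_one (n : ℕ) {f : Circ → ℂ} (hf : InHardy (ENNReal.ofReal 1) f) :
    eLpNorm (fun x => f x - conv (fejer n) f x) (ENNReal.ofReal 1) μ ≤
      ENNReal.ofReal (2 / Real.sqrt 3) * eLpNorm f (ENNReal.ofReal 1) μ := by
  refine upper_of_poly le_rfl (by positivity) n (fun P => ?_) hf
  refine eLpNorm_le_of_int one_pos (by positivity)
    ((poly_continuous P).sub (conv_fejer_poly_continuous n P)) (poly_continuous P) ?_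
  simp only [Real.rpow_one]
  exact poly_one_gen n P

/-- `(1 + s z) / (1 - s z)` -/
noncomputable def u1 (s : ℝ) (z : ℂ) : ℂ := (1 + (s:ℂ) * z) / (1 + ((-s : ℝ):ℂ) * z)

lemma u1_diff {s : ℝ} (h1 : |s| < 1) {z : ℂ} (hz : ‖z‖ ≤ 1) : DifferentiableAt ℂ (u1 s) z := by
  have := den_ne (lam := -s) (by rwa [abs_neg]) hz
  unfold u1
  fun_prop (disch := assumption)

lemma u1_circle {s : ℝ} (h1 : |s| < 1) (hs : s ^ 2 = 1 / 3) {z : ℂ} (hz : ‖z‖ = 1) :
    Complex.normSq (u1 s z) + 1 = 4 * (u1 s z).re := by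
  have hd := den_ne (lam := -s) (by rwa [abs_neg]) hz.le
  have hD : 0 < Complex.normSq (1 + ((-s : ℝ):ℂ) * z) := Complex.normSq_pos.mpr hd
  have hxy := norm_e_sq z hz
  have hN : Complex.normSq (1 + ((-s : ℝ):ℂ) * z) = 1 - 2 * s * z.re + s ^ 2 := by
    rw [Complex.normSq_apply]
    simp only [Complex.add_re, Complex.one_re, Complex.mul_re, Complex.ofReal_re, Complex.ofReal_im,
      zero_mul, sub_zero, Complex.add_im, Complex.one_im, Complex.mul_im, add_zero, zero_add]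
    linear_combination s ^ 2 * hxy
  have hN2 : Complex.normSq (1 + (s:ℂ) * z) = 1 + 2 * s * z.re + s ^ 2 := by
    rw [Complex.normSq_apply]
    simp only [Complex.add_re, Complex.one_re, Complex.mul_re, Complex.ofReal_re, Complex.ofReal_im,
      zero_mul, sub_zero, Complex.add_im, Complex.one_im, Complex.mul_im, add_zero, zero_add]
    linear_combination s ^ 2 * hxy
  have e1 : Complex.normSq (u1 s z) = (1 + 2 * s * z.re + s ^ 2) / Complex.normSq (1 + ((-s : ℝ):ℂ) * z) := by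
    unfold u1
    rw [Complex.normSq_div, hN2]
  have e2 : (u1 s z).re = (1 - s ^ 2) / Complex.normSq (1 + ((-s : ℝ):ℂ) * z) := by
    unfold u1
    rw [Complex.div_re]
    simp only [Complex.add_re, Complex.one_re, Complex.mul_re, Complex.ofReal_re, Complex.ofReal_im,
      zero_mul, sub_zero, Complex.add_im, Complex.one_im, Complex.mul_im, add_zero, zero_add]
    rw [← add_div]
    congr 1
    linear_combination (-s ^ 2) * hxy
  rw [e1, e2]
  set D := Complex.normSq (1 + ((-s : ℝ):ℂ) * z) with hDdef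
  have hD' : D ≠ 0 := hD.ne'
  have key : 1 + 2 * s * z.re + s ^ 2 + D = 4 * (1 - s ^ 2) := by
    rw [hN]
    linear_combination 6 * hs
  field_simp
  linarith

lemma norm_sq_sub_one (w : ℂ) : ‖w ^ 2 - 1‖ ^ 2 = (Complex.normSq w + 1) ^ 2 - 4 * w.re ^ 2 := by
  rw [← Complex.normSq_eq_norm_sq, Complex.normSq_apply, Complex.normSq_apply]
  simp only [sq, Complex.sub_re, Complex.one_re, Complex.sub_im, Complex.one_im, Complex.mul_re,
    Complex.mul_im, sub_zero]
  ring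

lemma pointwise_one {s : ℝ} (h1 : |s| < 1) (hs : s ^ 2 = 1 / 3) {z : ℂ} (hz : ‖z‖ = 1) :
    ‖u1 s z ^ 2 - 1‖ = (2 / Real.sqrt 3) * (‖u1 s z ^ 2‖ + 1 - (u1 s z).re) := by
  obtain ⟨t0, t3⟩ := sqrt3_facts
  have h2 := u1_circle h1 hs hz
  have hx : 0 < (u1 s z).re := by
    have := Complex.normSq_nonneg (u1 s z)
    linarith
  have h3 : ‖u1 s z ^ 2‖ = Complex.normSq (u1 s z) := by
    rw [norm_pow, Complex.normSq_eq_norm_sq]
  have h4 : ‖u1 s z ^ 2 - 1‖ = 2 * Real.sqrt 3 * (u1 s z).re := by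
    have h5 : ‖u1 s z ^ 2 - 1‖ ^ 2 = (2 * Real.sqrt 3 * (u1 s z).re) ^ 2 := by
      rw [norm_sq_sub_one, h2]
      linear_combination (-4 * (u1 s z).re ^ 2) * t3
    exact (sq_eq_sq₀ (norm_nonneg _) (by positivity)).mp h5
  rw [h3, h4]
  have h5 : Complex.normSq (u1 s z) + 1 - (u1 s z).re = 3 * (u1 s z).re := by linarith
  rw [h5]
  field_simp
  linear_combination t3

/-- **The case `p = 1`.** -/
theorem main_one :
    (∀ n : ℕ, IsNormIdSubConvHardy (fejer n) 1 (2 / Real.sqrt 3)) ∧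
    (∀ r : ℝ, 0 ≤ r → r < 1 → IsNormIdSubConvHardy (poisson r) 1 (2 / Real.sqrt 3)) := by
  obtain ⟨t0, t3⟩ := sqrt3_facts
  set s : ℝ := 1 / Real.sqrt 3 with hsdef
  have hs : s ^ 2 = 1 / 3 := by
    rw [hsdef, div_pow, one_pow, sq, t3]
  have hs0 : 0 ≤ s := by positivity
  have h1 : |s| < 1 := by
    rw [abs_of_nonneg hs0]
    nlinarith
  set h : ℂ → ℂ := fun z => u1 s z ^ 2 with hh
  have hdu : DiffContOnCl ℂ (u1 s) (Metric.ball 0 1) := diffContOnCl_of_closedBall (fun z hz => u1_diff h1 hz)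
  have hdiff : DiffContOnCl ℂ h (Metric.ball 0 1) := diffContOnCl_of_closedBall (fun z hz =>
    (u1_diff h1 hz).pow 2)
  have hu0 : u1 s 0 = 1 := by simp [u1]
  have hz : h 0 = 1 := by simp [hh, hu0]
  have hc := comp_cont hdiff
  have hcu := comp_cont hdu
  have hne : eLpNorm (fun x => h (e 1 x)) (ENNReal.ofReal 1) μ ≠ 0 :=
    eLpNorm_ne_zero one_pos hdiff (by rw [hz]; exact one_ne_zero)
  have hE : ENNReal.ofReal (2 / Real.sqrt 3) * eLpNorm (fun x => h (e 1 x)) (ENNReal.ofReal 1) μ ≤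
      eLpNorm (fun x => h (e 1 x) - h 0) (ENNReal.ofReal 1) μ := by
    refine le_eLpNorm_of_int one_pos (by positivity) (hc.sub continuous_const) hc ?_
    simp only [Real.rpow_one]
    rw [hz]
    have h2 : ∀ y : Circ, ‖h (e 1 y) - 1‖ = (2 / Real.sqrt 3) * (‖h (e 1 y)‖ + 1 - (u1 s (e 1 y)).re) :=
      fun y => pointwise_one h1 hs (norm_e 1 y)
    simp_rw [h2]
    rw [integral_const_mul]
    have i1 : Integrable (fun y : Circ => ‖h (e 1 y)‖) μ := integrable_of_cont hc.norm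
    have i2 : Integrable (fun y : Circ => (u1 s (e 1 y)).re) μ :=
      integrable_of_cont (Complex.continuous_re.comp hcu)
    have i3 : Integrable (fun y : Circ => ‖h (e 1 y)‖ + 1) μ := i1.add (integrable_const _)
    rw [integral_sub i3 i2, integral_add i1 (integrable_const _), re_mv hdu, hu0]
    simp
  constructor
  · intro n
    refine ⟨⟨by positivity, fun f hf => upper_one n hf⟩, ?_⟩
    rintro c ⟨hc0, hb⟩
    exact fejer_lower_hardy n hc0 hb hdiff hne hE
  · intro r hr0 hr1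
    refine ⟨⟨by positivity, fun f hf => poisson_of_fejer le_rfl hr0 hr1 f hf.1
      (fun n => upper_one n hf)⟩, ?_⟩
    rintro c ⟨hc0, hb⟩
    exact poisson_lower_hardy le_rfl hr0 hr1 hc0 hb hdiff hne hE

end Pool.Agent.Y112.HP
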