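import Mathlib
import Pool.Agent.Y112.HP.Lower

/-! The Poisson kernel and Möbius maps. -/

set_option autoImplicit false
open MeasureTheory Filter Topology
open scoped ComplexConjugate

namespace Pool.Agent.Y112.HP

open Pool.Agent.Helper418.FE

/-- Poisson kernel -/
noncomputable def Pk (w : ℂ) (y : Circ) : ℝ := (1 - ‖w‖ ^ 2) / ‖e 1 y - w‖ ^ 2

lemma Pk_eq (w : ℂ) (y : Circ) : Pk w y = poissonKernel 0 w (e 1 y) := by
  unfold Pk
  rw [poissonKernel_def]
  simp [norm_e]

lemma e_sub_ne {w : ℂ} (hw : ‖w‖ < 1) (y : Circ) : e 1 y - w ≠ 0 := by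
  intro h
  have : e 1 y = w := sub_eq_zero.mp h
  rw [← this, norm_e] at hw
  exact lt_irrefl _ hw

lemma Pk_nonneg {w : ℂ} (hw : ‖w‖ < 1) (y : Circ) : 0 ≤ Pk w y := by
  unfold Pk
  have : ‖w‖ ^ 2 ≤ 1 := pow_le_one₀ (norm_nonneg _) hw.le
  have : 0 ≤ 1 - ‖w‖ ^ 2 := by linarith
  positivity

lemma Pk_continuous {w : ℂ} (hw : ‖w‖ < 1) : Continuous (Pk w) := by
  unfold Pk
  refine Continuous.div continuous_const ((cont_e.sub continuous_const).norm.pow 2) fun y => ?_
  exact pow_ne_zero 2 (norm_ne_zero_iff.mpr (e_sub_ne hw y))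

lemma Pk_int {w : ℂ} (hw : ‖w‖ < 1) {h : ℂ → ℂ} (hh : DiffContOnCl ℂ h (Metric.ball 0 1)) :
    ∫ y, (Pk w y : ℂ) * h (e 1 y) ∂μ = h w := by
  have h1 := int_circle (poissonKernel 0 w • h)
  have h2 := DiffContOnCl.circleAverage_poissonKernel_smul (c := 0) (R := 1) (w := w) hh (by simpa using hw)
  rw [h2] at h1
  rw [← h1]
  congr 1
  funext y
  rw [Pk_eq]
  simp [Pi.smul_apply']

lemma Pk_int_one {w : ℂ} (hw : ‖w‖ < 1) : ∫ y, Pk w y ∂μ = 1 := by
  have h := Pk_int hw (h := fun _ => 1) diffContOnCl_const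
  simp only [mul_one] at h
  rw [integral_complex_ofReal] at h
  exact_mod_cast h

/-- relation with the Poisson kernel `P_r` -/
lemma Pk_smul {r : ℝ} (h0 : 0 ≤ r) (x y : Circ) : Pk (r * e 1 x) y = pR r (x - y) := by
  unfold Pk pR
  have h1 : ‖(r:ℂ) * e 1 x‖ = r := by
    rw [norm_mul, norm_e, mul_one, Complex.norm_real, Real.norm_of_nonneg h0]
  rw [h1]
  congr 1
  have h2 : e 1 y - r * e 1 x = e 1 y * (1 - r * e 1 (x - y)) := by
    rw [e_arg_sub]
    have := e_mul_conj 1 y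
    linear_combination (r * e 1 x) * this
  rw [h2, norm_mul, norm_e, one_mul, ← Complex.normSq_eq_norm_sq, normSq_one_sub]

lemma norm_smul_e {r : ℝ} (h0 : 0 ≤ r) (x : Circ) : ‖(r:ℂ) * e 1 x‖ = r := by
  rw [norm_mul, norm_e, mul_one, Complex.norm_real, Real.norm_of_nonneg h0]

lemma conv_poisson_hol {r : ℝ} (h0 : 0 ≤ r) (h1 : r < 1) {h : ℂ → ℂ}
    (hh : DiffContOnCl ℂ h (Metric.ball 0 1)) (x : Circ) :
    conv (poisson r) (fun y => h (e 1 y)) x = h (r * e 1 x) := by
  rw [← Pk_int (w := r * e 1 x) (by rw [norm_smul_e h0]; exact h1) hh]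
  unfold conv
  congr 1
  funext y
  rw [poisson_eq, Pk_smul h0]

/-- Möbius map -/
noncomputable def mob (a z : ℂ) : ℂ := (z + a) / (1 + conj a * z)

lemma mob_den {a z : ℂ} (ha : ‖a‖ < 1) (hz : ‖z‖ ≤ 1) : 1 + conj a * z ≠ 0 := by
  intro h
  have h2 : ‖conj a * z‖ = 1 := by
    have : conj a * z = -1 := by linear_combination h
    rw [this, norm_neg, norm_one]
  rw [norm_mul, RCLike.norm_conj] at h2
  nlinarith [norm_nonneg z, norm_nonneg a]

lemma mob_norm_sq {a z : ℂ} : Complex.normSq (1 + conj a * z) - Complex.normSq (z + a) =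
    (1 - Complex.normSq a) * (1 - Complex.normSq z) := by
  simp only [Complex.normSq_apply, Complex.add_re, Complex.add_im, Complex.mul_re, Complex.mul_im,
    Complex.conj_re, Complex.conj_im, Complex.one_re, Complex.one_im]
  ring

lemma mob_norm_le {a z : ℂ} (ha : ‖a‖ < 1) (hz : ‖z‖ ≤ 1) : ‖mob a z‖ ≤ 1 := by
  unfold mob
  have hd := mob_den ha hz
  rw [norm_div, div_le_one (norm_pos_iff.mpr hd)]
  have h1 := mob_norm_sq (a := a) (z := z)
  rw [Complex.normSq_eq_norm_sq, Complex.normSq_eq_norm_sq, Complex.normSq_eq_norm_sq,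
    Complex.normSq_eq_norm_sq] at h1
  have h2 : 0 ≤ (1 - ‖a‖ ^ 2) * (1 - ‖z‖ ^ 2) := by
    refine mul_nonneg ?_ ?_
    · have := pow_le_one₀ (n := 2) (norm_nonneg a) ha.le
      linarith
    · have := pow_le_one₀ (n := 2) (norm_nonneg z) hz
      linarith
  exact (sq_le_sq₀ (norm_nonneg _) (norm_nonneg _)).mp (by linarith)

lemma mob_norm_eq {a z : ℂ} (ha : ‖a‖ < 1) (hz : ‖z‖ = 1) : ‖mob a z‖ = 1 := by
  unfold mob
  have hd := mob_den ha hz.le
  rw [norm_div, div_eq_one_iff_eq (norm_ne_zero_iff.mpr hd)]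
  have h1 := mob_norm_sq (a := a) (z := z)
  rw [Complex.normSq_eq_norm_sq, Complex.normSq_eq_norm_sq, Complex.normSq_eq_norm_sq,
    Complex.normSq_eq_norm_sq, hz] at h1
  have h2 : ‖z + a‖ ^ 2 = ‖1 + conj a * z‖ ^ 2 := by
    linear_combination -h1
  exact (sq_eq_sq₀ (norm_nonneg _) (norm_nonneg _)).mp h2

lemma mob_diff {a : ℂ} (ha : ‖a‖ < 1) {z : ℂ} (hz : ‖z‖ ≤ 1) : DifferentiableAt ℂ (mob a) z := by
  have := mob_den ha hz
  unfold mob
  fun_prop (disch := assumption)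

lemma mob_zero (a : ℂ) : mob a 0 = a := by simp [mob]

lemma two_pi_ne : (2 * Real.pi : ℝ) ≠ 0 := Real.two_pi_pos.ne'

/-- the point of the circle with a given value of `e^{iθ}` -/
noncomputable def arg' (z : Circle) : Circ := (AddCircle.homeomorphCircle two_pi_ne).symm z

lemma e_arg' (z : Circle) : e 1 (arg' z) = z := by
  unfold e arg'
  rw [fourier_one]
  have := (AddCircle.homeomorphCircle two_pi_ne).apply_symm_apply z
  rw [AddCircle.homeomorphCircle_apply] at this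
  rw [this]

/-- the Möbius map of the circle -/
noncomputable def tau (a : ℂ) (ha : ‖a‖ < 1) (y : Circ) : Circ :=
  arg' ⟨mob a (e 1 y), mem_sphere_zero_iff_norm.mpr (mob_norm_eq ha (norm_e 1 y))⟩

lemma e_tau {a : ℂ} (ha : ‖a‖ < 1) (y : Circ) : e 1 (tau a ha y) = mob a (e 1 y) := by
  exact e_arg' ⟨mob a (e 1 y), mem_sphere_zero_iff_norm.mpr (mob_norm_eq ha (norm_e 1 y))⟩

lemma mob_continuous {a : ℂ} (ha : ‖a‖ < 1) : Continuous fun y : Circ => mob a (e 1 y) :=
  comp_cont (diffContOnCl_of_closedBall fun _ hz => mob_diff ha hz)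

lemma tau_continuous {a : ℂ} (ha : ‖a‖ < 1) : Continuous (tau a ha) := by
  unfold tau arg'
  refine (AddCircle.homeomorphCircle two_pi_ne).symm.continuous.comp ?_
  exact Continuous.subtype_mk (mob_continuous ha) _

lemma mobpow_diff {a : ℂ} (ha : ‖a‖ < 1) (j : ℕ) :
    DiffContOnCl ℂ (fun z => mob a z ^ j) (Metric.ball 0 1) :=
  diffContOnCl_of_closedBall fun _ hz => (mob_diff ha hz).pow j

/-- change of variables, for `e_j` -/
lemma cov_pow {a : ℂ} (ha : ‖a‖ < 1) (j : ℕ) :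
    ∫ y, e (j:ℤ) (tau a ha y) ∂μ = ∫ y, (Pk a y : ℂ) * e (j:ℤ) y ∂μ := by
  have h1 : ∀ y, e (j:ℤ) (tau a ha y) = (fun z => mob a z ^ j) (e 1 y) := fun y => by
    simp only
    rw [e_pow, e_tau]
  simp_rw [h1]
  rw [mv (fun z => mob a z ^ j) (mobpow_diff ha j), mob_zero]
  have h2 := Pk_int ha (h := fun z => z ^ j) ((differentiable_id.pow j).diffContOnCl)
  rw [← h2]
  congr 1
  funext y
  rw [e_pow]

lemma cov_e {a : ℂ} (ha : ‖a‖ < 1) (k : ℤ) :
    ∫ y, e k (tau a ha y) ∂μ = ∫ y, (Pk a y : ℂ) * e k y ∂μ := by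
  rcases le_total 0 k with hk | hk
  · obtain ⟨j, rfl⟩ := Int.eq_ofNat_of_zero_le hk
    exact cov_pow ha j
  · obtain ⟨j, hj⟩ := Int.eq_ofNat_of_zero_le (neg_nonneg.mpr hk)
    have hk' : k = -(j:ℤ) := by omega
    have h1 := congrArg conj (cov_pow ha j)
    rw [← integral_conj, ← integral_conj] at h1
    simp only [map_mul, Complex.conj_ofReal, ← e_neg, ← hk'] at h1
    exact h1

/-- change of variables for continuous functions -/
lemma cov {a : ℂ} (ha : ‖a‖ < 1) (g : C(Circ, ℂ)) :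
    ∫ y, g (tau a ha y) ∂μ = ∫ y, (Pk a y : ℂ) * g y ∂μ := by
  have hτ := tau_continuous ha
  have hP := Pk_continuous ha
  have hPc : Continuous fun y => (Pk a y : ℂ) := Complex.continuous_ofReal.comp hP
  have hspan : ∀ g ∈ Submodule.span ℂ (Set.range (@fourier (2 * Real.pi))),
      ∫ y, g (tau a ha y) ∂μ = ∫ y, (Pk a y : ℂ) * g y ∂μ := by
    intro g hg
    induction hg using Submodule.span_induction with
    | mem g hg =>
      obtain ⟨k, rfl⟩ := hg
      exact cov_e ha k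
    | zero => simp
    | add f g _ _ hf hg =>
      simp only [ContinuousMap.add_apply, mul_add]
      rw [integral_add, integral_add, hf, hg]
      · exact integrable_of_cont (hPc.mul f.continuous)
      · exact integrable_of_cont (hPc.mul g.continuous)
      · exact integrable_of_cont (f.continuous.comp hτ)
      · exact integrable_of_cont (g.continuous.comp hτ)
    | smul c f _ hf =>
      simp only [ContinuousMap.smul_apply, smul_eq_mul]
      rw [integral_const_mul, hf, ← integral_const_mul]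
      congr 1
      funext y
      ring
  have hcl : g ∈ closure ((Submodule.span ℂ (Set.range (@fourier (2 * Real.pi))) :
      Submodule ℂ C(Circ, ℂ)) : Set C(Circ, ℂ)) := by
    have h1 := span_fourier_closure_eq_top (T := 2 * Real.pi)
    have h2 : g ∈ (Submodule.span ℂ (Set.range (@fourier (2 * Real.pi)))).topologicalClosure := by
      rw [h1]
      trivial
    exact h2
  rw [← sub_eq_zero, ← norm_le_zero_iff]
  refine le_of_forall_pos_le_add fun ε hε => ?_
  obtain ⟨g', hg', hd⟩ := Metric.mem_closure_iff.mp hcl (ε / 2) (by linarith)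
  have hdy : ∀ y, ‖g y - g' y‖ ≤ ε / 2 := fun y => by
    rw [← dist_eq_norm]
    exact (ContinuousMap.dist_apply_le_dist y).trans hd.le
  have e1 : ∫ y, g (tau a ha y) ∂μ - ∫ y, g' (tau a ha y) ∂μ = ∫ y, (g (tau a ha y) - g' (tau a ha y)) ∂μ :=
    (integral_sub (integrable_of_cont (g.continuous.comp hτ))
      (integrable_of_cont (g'.continuous.comp hτ))).symm
  have e2 : ∫ y, (Pk a y : ℂ) * g y ∂μ - ∫ y, (Pk a y : ℂ) * g' y ∂μ =
      ∫ y, (Pk a y : ℂ) * (g y - g' y) ∂μ := by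
    have j1 : Integrable (fun y : Circ => (Pk a y : ℂ) * g y) μ := integrable_of_cont (hPc.mul g.continuous)
    have j2 : Integrable (fun y : Circ => (Pk a y : ℂ) * g' y) μ := integrable_of_cont (hPc.mul g'.continuous)
    rw [← integral_sub j1 j2]
    congr 1
    funext y
    ring
  have b1 : ‖∫ y, (g (tau a ha y) - g' (tau a ha y)) ∂μ‖ ≤ ε / 2 := by
    have := norm_integral_le_of_norm_le_const (μ := μ) (f := fun y => g (tau a ha y) - g' (tau a ha y))
      (C := ε / 2) (Filter.Eventually.of_forall fun y => hdy _)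
    simpa using this
  have b2 : ‖∫ y, (Pk a y : ℂ) * (g y - g' y) ∂μ‖ ≤ ε / 2 := by
    have h3 := norm_integral_le_of_norm_le (μ := μ) (f := fun y => (Pk a y : ℂ) * (g y - g' y))
      (g := fun y => Pk a y * (ε / 2)) (integrable_of_cont (hP.mul continuous_const))
      (Filter.Eventually.of_forall fun y => by
        rw [norm_mul, Complex.norm_real, Real.norm_of_nonneg (Pk_nonneg ha y)]
        exact mul_le_mul_of_nonneg_left (hdy y) (Pk_nonneg ha y))
    rw [integral_mul_const, Pk_int_one ha, one_mul] at h3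
    exact h3
  have e3 := hspan g' hg'
  have e4 : ∫ y, g (tau a ha y) ∂μ - ∫ y, (Pk a y : ℂ) * g y ∂μ =
      ∫ y, (g (tau a ha y) - g' (tau a ha y)) ∂μ - ∫ y, (Pk a y : ℂ) * (g y - g' y) ∂μ := by
    rw [← e1, ← e2, e3]
    ring
  rw [e4]
  refine (norm_sub_le _ _).trans ?_
  linarith

/-- change of variables for real functions -/
lemma cov_real {a : ℂ} (ha : ‖a‖ < 1) {G : ℂ → ℝ} (hG : Continuous G) :
    ∫ y, G (mob a (e 1 y)) ∂μ = ∫ y, Pk a y * G (e 1 y) ∂μ := by
  have hc : Continuous fun y : Circ => ((G (e 1 y) : ℝ) : ℂ) :=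
    Complex.continuous_ofReal.comp (hG.comp cont_e)
  have h1 := cov ha ⟨fun y : Circ => ((G (e 1 y) : ℝ) : ℂ), hc⟩
  simp only [ContinuousMap.coe_mk] at h1
  have h2 : ∫ y : Circ, ((G (e 1 (tau a ha y)) : ℝ) : ℂ) ∂μ = ((∫ y : Circ, G (mob a (e 1 y)) ∂μ : ℝ) : ℂ) := by
    simp_rw [e_tau]
    rw [integral_complex_ofReal]
  have h3 : ∫ y : Circ, (Pk a y : ℂ) * ((G (e 1 y) : ℝ) : ℂ) ∂μ = ((∫ y : Circ, Pk a y * G (e 1 y) ∂μ : ℝ) : ℂ) := by
    rw [← integral_complex_ofReal]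
    congr 1
    funext y
    push_cast
    rfl
  rw [h2, h3] at h1
  exact_mod_cast h1

end Pool.Agent.Y112.HP
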