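import Mathlib
import Pool.Agent.Y112.HP.Pois

/-! The norm of `I - P_r` on `H^p` does not depend on `r`. -/

set_option autoImplicit false
open MeasureTheory Filter Topology
open scoped ComplexConjugate

namespace Pool.Agent.Y112.HP

open Pool.Agent.Helper418.FE

lemma tangent {p : ℝ} (hp : 1 ≤ p) {m t : ℝ} (hm : 0 < m) (ht : 0 ≤ t) :
    m ^ p + p * m ^ (p - 1) * (t - m) ≤ t ^ p := by
  have h1 := one_add_mul_self_le_rpow_one_add (s := (t - m) / m) (by
    rw [le_div_iff₀ hm]; linarith) hp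
  have h2 : 1 + (t - m) / m = t / m := by field_simp; ring
  rw [h2, Real.div_rpow ht hm.le] at h1
  have hmp : 0 < m ^ p := Real.rpow_pos_of_pos hm p
  rw [le_div_iff₀ hmp] at h1
  have h3 : m ^ p = m ^ (p - 1) * m := by
    rw [← Real.rpow_add_one hm.ne']
    ring_nf
  calc m ^ p + p * m ^ (p - 1) * (t - m) = (1 + p * ((t - m) / m)) * m ^ p := by
        rw [h3]
        field_simp
    _ ≤ t ^ p := h1

lemma jensen {p : ℝ} (hp : 1 ≤ p) {w : Circ → ℝ} (hw : Continuous w) (hw0 : ∀ y, 0 ≤ w y)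
    (hw1 : ∫ y, w y ∂μ = 1) {g : Circ → ℂ} (hg : Continuous g) :
    ‖∫ y, (w y : ℂ) * g y ∂μ‖ ^ p ≤ ∫ y, w y * ‖g y‖ ^ p ∂μ := by
  have hp0 : 0 ≤ p := by linarith
  set m : ℝ := ∫ y, w y * ‖g y‖ ∂μ with hm
  have i1 : Integrable (fun y => w y * ‖g y‖) μ := integrable_of_cont (hw.mul hg.norm)
  have i2 : Integrable w μ := integrable_of_cont hw
  have i3 : Integrable (fun y => w y * ‖g y‖ ^ p) μ :=
    integrable_of_cont (hw.mul (hg.norm.rpow_const fun _ => Or.inr hp0))
  have hm0 : 0 ≤ m := integral_nonneg fun y => mul_nonneg (hw0 y) (norm_nonneg _)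
  have h1 : ‖∫ y, (w y : ℂ) * g y ∂μ‖ ≤ m := by
    refine norm_integral_le_of_norm_le i1 (Filter.Eventually.of_forall fun y => ?_)
    rw [norm_mul, Complex.norm_real, Real.norm_of_nonneg (hw0 y)]
  have h2 : m ^ p ≤ ∫ y, w y * ‖g y‖ ^ p ∂μ := by
    rcases hm0.lt_or_eq with hpos | hzero
    · have i4 : Integrable (fun y => w y * ‖g y‖ - m * w y) μ := i1.sub (i2.const_mul m)
      have i5 : Integrable (fun y => p * m ^ (p - 1) * (w y * ‖g y‖ - m * w y)) μ := i4.const_mul _
      have i6 : Integrable (fun y => m ^ p * w y) μ := i2.const_mul _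
      have i7 : Integrable (fun y => m ^ p * w y + p * m ^ (p - 1) * (w y * ‖g y‖ - m * w y)) μ :=
        i6.add i5
      have h3 : ∫ y, (m ^ p * w y + p * m ^ (p - 1) * (w y * ‖g y‖ - m * w y)) ∂μ ≤
          ∫ y, w y * ‖g y‖ ^ p ∂μ := by
        refine integral_mono i7 i3 fun y => ?_
        have h4 := mul_le_mul_of_nonneg_left (tangent hp hpos (norm_nonneg (g y))) (hw0 y)
        simp only
        linarith
      have h5 : ∫ y, (m ^ p * w y + p * m ^ (p - 1) * (w y * ‖g y‖ - m * w y)) ∂μ = m ^ p := by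
        rw [integral_add i6 i5, integral_const_mul, integral_const_mul, integral_sub i1 (i2.const_mul m),
          integral_const_mul, hw1, ← hm]
        ring
      rw [h5] at h3
      exact h3
    · rw [← hzero, Real.zero_rpow (by linarith)]
      exact integral_nonneg fun y => mul_nonneg (hw0 y) (Real.rpow_nonneg (norm_nonneg _) _)
  exact (Real.rpow_le_rpow (norm_nonneg _) h1 hp0).trans h2

lemma pR_neg (r : ℝ) (x : Circ) : pR r (-x) = pR r x := by
  unfold pR
  rw [e_arg_neg, e_neg, Complex.conj_re]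

lemma pR_nonneg {r : ℝ} (h0 : 0 ≤ r) (h1 : r < 1) (x : Circ) : 0 ≤ pR r x := by
  unfold pR
  have := pden_pos h0 h1 x
  have h2 : 0 ≤ 1 - r ^ 2 := by nlinarith
  positivity

/-- the hypothesis on the case `r = 0` -/
def H0 (p c : ℝ) : Prop := ∀ h : ℂ → ℂ, DiffContOnCl ℂ h (Metric.ball 0 1) →
  ∫ y, ‖h (e 1 y) - h 0‖ ^ p ∂μ ≤ c ^ p * ∫ y, ‖h (e 1 y)‖ ^ p ∂μ

lemma claimB {p c : ℝ} (hp : 1 ≤ p) (H : H0 p c) (P : Polynomial ℂ) {a : ℂ} (ha : ‖a‖ < 1) :
    ∫ y, Pk a y * ‖P.eval (e 1 y) - P.eval a‖ ^ p ∂μ ≤ c ^ p * ∫ y, Pk a y * ‖P.eval (e 1 y)‖ ^ p ∂μ := by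
  have hp0 : 0 ≤ p := by linarith
  have hd : DiffContOnCl ℂ (fun z => P.eval (mob a z)) (Metric.ball 0 1) :=
    diffContOnCl_of_closedBall fun z hz => by
      have h1 : DifferentiableAt ℂ (fun w : ℂ => P.eval w) (mob a z) := P.differentiable.differentiableAt
      exact h1.comp z (mob_diff ha hz)
  have h1 := H _ hd
  simp only [mob_zero] at h1
  have hc1 : Continuous fun z : ℂ => ‖P.eval z - P.eval a‖ ^ p :=
    (P.continuous.sub continuous_const).norm.rpow_const fun _ => Or.inr hp0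
  have hc2 : Continuous fun z : ℂ => ‖P.eval z‖ ^ p :=
    P.continuous.norm.rpow_const fun _ => Or.inr hp0
  rw [cov_real ha hc1, cov_real ha hc2] at h1
  exact h1

/-- the inequality for `P_r` and polynomials -/
lemma poisson_poly {p c : ℝ} (hp : 1 ≤ p) (H : H0 p c) {r : ℝ} (h0 : 0 ≤ r) (h1 : r < 1)
    (P : Polynomial ℂ) :
    ∫ x, ‖P.eval (e 1 x) - conv (poisson r) (fun y => P.eval (e 1 y)) x‖ ^ p ∂μ ≤
      c ^ p * ∫ x, ‖P.eval (e 1 x)‖ ^ p ∂μ := by
  have hp0 : 0 ≤ p := by linarith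
  set s := Real.sqrt r with hs
  have hs0 : 0 ≤ s := Real.sqrt_nonneg r
  have hss : s * s = r := Real.mul_self_sqrt h0
  have hs1 : s < 1 := by nlinarith
  have hPdiff : ∀ t : ℝ, DiffContOnCl ℂ (fun z => P.eval ((t:ℂ) * z)) (Metric.ball 0 1) := fun t => by
    refine Differentiable.diffContOnCl ?_
    exact P.differentiable.comp (differentiable_id.const_mul _)
  have hval : ∀ x, conv (poisson r) (fun y => P.eval (e 1 y)) x =
      ∫ θ, (pR s (x - θ) : ℂ) * P.eval (s * e 1 θ) ∂μ := by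
    intro x
    have h2 := conv_poisson_hol h0 h1 (h := fun z => P.eval z) (P.differentiable.diffContOnCl) x
    have h3 := conv_poisson_hol hs0 hs1 (hPdiff s) x
    rw [h2]
    have h4 : (s:ℂ) * (s * e 1 x) = r * e 1 x := by
      rw [← mul_assoc, ← Complex.ofReal_mul, hss]
    rw [h4] at h3
    rw [← h3]
    rfl
  have hpRc := pR_continuous hs0 hs1
  have hone : ∀ x, ∫ θ, pR s (x - θ) ∂μ = 1 := by
    intro x
    have h2 : ∀ θ, pR s (x - θ) = Pk (s * e 1 x) θ := fun θ => (Pk_smul hs0 x θ).symm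
    simp_rw [h2]
    exact Pk_int_one (by rw [norm_smul_e hs0]; exact hs1)
  have hcP : Continuous fun x : Circ => P.eval (e 1 x) := poly_continuous P
  have hcPs : Continuous fun θ : Circ => P.eval ((s:ℂ) * e 1 θ) :=
    P.continuous.comp (continuous_const.mul cont_e)
  -- pointwise Jensen
  have hpt : ∀ x, ‖P.eval (e 1 x) - conv (poisson r) (fun y => P.eval (e 1 y)) x‖ ^ p ≤
      ∫ θ, pR s (x - θ) * ‖P.eval (e 1 x) - P.eval (s * e 1 θ)‖ ^ p ∂μ := by
    intro x
    have hcw : Continuous fun θ => pR s (x - θ) := hpRc.comp (continuous_const.sub continuous_id)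
    have h2 := jensen hp hcw (fun θ => pR_nonneg hs0 hs1 _) (hone x)
      (g := fun θ => P.eval (e 1 x) - P.eval (s * e 1 θ)) (continuous_const.sub hcPs)
    have h3 : ∫ θ, (pR s (x - θ) : ℂ) * (P.eval (e 1 x) - P.eval (s * e 1 θ)) ∂μ =
        P.eval (e 1 x) - conv (poisson r) (fun y => P.eval (e 1 y)) x := by
      rw [hval x]
      have j1 : Integrable (fun θ : Circ => (pR s (x - θ) : ℂ) * P.eval (e 1 x)) μ :=
        integrable_of_cont ((Complex.continuous_ofReal.comp hcw).mul continuous_const)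
      have j2 : Integrable (fun θ : Circ => (pR s (x - θ) : ℂ) * P.eval (s * e 1 θ)) μ :=
        integrable_of_cont ((Complex.continuous_ofReal.comp hcw).mul hcPs)
      simp_rw [mul_sub]
      rw [integral_sub j1 j2, integral_mul_const, integral_complex_ofReal, hone x]
      simp
    rw [h3] at h2
    exact h2
  -- Fubini
  have hK : Continuous fun z : Circ × Circ =>
      pR s (z.1 - z.2) * ‖P.eval (e 1 z.1) - P.eval (s * e 1 z.2)‖ ^ p := by
    refine (hpRc.comp (continuous_fst.sub continuous_snd)).mul ?_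
    exact ((hcP.comp continuous_fst).sub (hcPs.comp continuous_snd)).norm.rpow_const fun _ => Or.inr hp0
  have hKi : Integrable (Function.uncurry fun x θ : Circ =>
      pR s (x - θ) * ‖P.eval (e 1 x) - P.eval (s * e 1 θ)‖ ^ p) (μ.prod μ) :=
    Continuous.integrable_of_hasCompactSupport hK (HasCompactSupport.of_compactSpace _)
  have hL : Continuous fun z : Circ × Circ => pR s (z.1 - z.2) * ‖P.eval (e 1 z.1)‖ ^ p := by
    refine (hpRc.comp (continuous_fst.sub continuous_snd)).mul ?_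
    exact (hcP.comp continuous_fst).norm.rpow_const fun _ => Or.inr hp0
  have hLi : Integrable (Function.uncurry fun x θ : Circ =>
      pR s (x - θ) * ‖P.eval (e 1 x)‖ ^ p) (μ.prod μ) :=
    Continuous.integrable_of_hasCompactSupport hL (HasCompactSupport.of_compactSpace _)
  have hcontc : Continuous (conv (poisson r) (fun y => P.eval (e 1 y))) :=
    conv_poisson_aesm h0 h1 (integrable_of_cont hcP)
  have hpk : ∀ θ x : Circ, pR s (x - θ) = Pk (s * e 1 θ) x := by
    intro θ x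
    rw [Pk_smul hs0, ← pR_neg, neg_sub]
  calc ∫ x, ‖P.eval (e 1 x) - conv (poisson r) (fun y => P.eval (e 1 y)) x‖ ^ p ∂μ
      ≤ ∫ x, ∫ θ, pR s (x - θ) * ‖P.eval (e 1 x) - P.eval (s * e 1 θ)‖ ^ p ∂μ ∂μ := by
        refine integral_mono (integrable_of_cont
          ((hcP.sub hcontc).norm.rpow_const fun _ => Or.inr hp0)) hKi.integral_prod_left hpt
    _ = ∫ θ, ∫ x, pR s (x - θ) * ‖P.eval (e 1 x) - P.eval (s * e 1 θ)‖ ^ p ∂μ ∂μ :=
        integral_integral_swap hKi
    _ ≤ ∫ θ, c ^ p * ∫ x, pR s (x - θ) * ‖P.eval (e 1 x)‖ ^ p ∂μ ∂μ := by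
        refine integral_mono hKi.integral_prod_right (hLi.integral_prod_right.const_mul _) fun θ => ?_
        have h2 := claimB hp H P (a := s * e 1 θ) (by rw [norm_smul_e hs0]; exact hs1)
        simp only [hpk]
        exact h2
    _ = c ^ p * ∫ θ, ∫ x, pR s (x - θ) * ‖P.eval (e 1 x)‖ ^ p ∂μ ∂μ := integral_const_mul _ _
    _ = c ^ p * ∫ x, ∫ θ, pR s (x - θ) * ‖P.eval (e 1 x)‖ ^ p ∂μ ∂μ := by
        rw [integral_integral_swap hLi]
    _ = c ^ p * ∫ x, ‖P.eval (e 1 x)‖ ^ p ∂μ := by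
        congr 1
        congr 1
        funext x
        rw [integral_mul_const, hone x, one_mul]

lemma conv_poisson_sub {r : ℝ} (h0 : 0 ≤ r) (h1 : r < 1) {f g : Circ → ℂ} (hf : Integrable f μ)
    (hg : Integrable g μ) (x : Circ) :
    conv (poisson r) (fun y => f y - g y) x = conv (poisson r) f x - conv (poisson r) g x := by
  have h2 : ∀ F : Circ → ℂ, conv (poisson r) F x = ∫ y, pR r (x - y) • F y ∂μ := fun F => rfl
  rw [h2, h2, h2, ← integral_sub (conv_integrable (pR_continuous h0 h1) hf x)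
    (conv_integrable (pR_continuous h0 h1) hg x)]
  congr 1
  funext y
  rw [smul_sub]

/-- It suffices to prove the inequality for polynomials. -/
theorem poisson_upper_of_poly {p c : ℝ} (hp : 1 ≤ p) {r : ℝ} (hr0 : 0 ≤ r) (hr1 : r < 1)
    (h : ∀ P : Polynomial ℂ, eLpNorm (fun x => P.eval (e 1 x) - conv (poisson r) (fun y => P.eval (e 1 y)) x)
      (ENNReal.ofReal p) μ ≤ ENNReal.ofReal c * eLpNorm (fun x => P.eval (e 1 x)) (ENNReal.ofReal p) μ)
    {f : Circ → ℂ} (hf : InHardy (ENNReal.ofReal p) f) :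
    eLpNorm (fun x => f x - conv (poisson r) f x) (ENNReal.ofReal p) μ ≤
      ENNReal.ofReal c * eLpNorm f (ENNReal.ofReal p) μ := by
  obtain ⟨B, hB0, hB⟩ := fejer_unif hp
  have hp1 := one_le_ofReal hp
  have hfi := memLp_integrable' hp hf.1
  refine ENNReal.le_of_forall_pos_le_add fun ε hε _ => ?_
  set δ : ENNReal := ε / (ENNReal.ofReal c + ENNReal.ofReal B + 1) with hδ
  have hden0 : ENNReal.ofReal c + ENNReal.ofReal B + 1 ≠ 0 := by simp
  have hdent : ENNReal.ofReal c + ENNReal.ofReal B + 1 ≠ ⊤ := by simp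
  have hδ0 : δ ≠ 0 := by
    rw [hδ]
    exact (ENNReal.div_pos (by exact_mod_cast hε.ne') hdent).ne'
  obtain ⟨P, hP⟩ := exists_poly hp hf hδ0
  have hPc : Continuous fun x : Circ => P.eval (e 1 x) := poly_continuous P
  have hPm := memLp_cont hPc (ENNReal.ofReal p)
  have hgm : MemLp (fun x => f x - P.eval (e 1 x)) (ENNReal.ofReal p) μ := hf.1.sub hPm
  have hsub : (fun x => f x - conv (poisson r) f x) =
      (fun x => (fun y => f y - P.eval (e 1 y)) x - conv (poisson r) (fun y => f y - P.eval (e 1 y)) x) +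
        (fun x => P.eval (e 1 x) - conv (poisson r) (fun y => P.eval (e 1 y)) x) := by
    funext x
    simp only [Pi.add_apply]
    rw [conv_poisson_sub hr0 hr1 hfi (integrable_of_cont hPc)]
    ring
  rw [hsub]
  refine (eLpNorm_add_le ?_ ?_ hp1).trans ?_
  · exact hgm.1.sub (conv_poisson_aesm hr0 hr1 (memLp_integrable' hp hgm)).aestronglyMeasurable
  · exact (hPc.sub (conv_poisson_aesm hr0 hr1 (integrable_of_cont hPc))).aestronglyMeasurable
  have h1 := poisson_of_fejer hp hr0 hr1 _ hgm (fun n => hB n _ hgm)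
  have h2 := h P
  have h3 : eLpNorm (fun x => P.eval (e 1 x)) (ENNReal.ofReal p) μ ≤
      eLpNorm f (ENNReal.ofReal p) μ + δ := by
    have h4 : (fun x : Circ => P.eval (e 1 x)) = f - (fun x => f x - P.eval (e 1 x)) := by
      funext x
      simp
    rw [h4]
    refine (eLpNorm_sub_le hf.1.1 hgm.1 hp1).trans ?_
    gcongr
  calc _ ≤ ENNReal.ofReal B * δ + ENNReal.ofReal c * (eLpNorm f (ENNReal.ofReal p) μ + δ) := by
        refine add_le_add (h1.trans ?_) (h2.trans ?_)
        · gcongr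
        · gcongr
    _ = ENNReal.ofReal c * eLpNorm f (ENNReal.ofReal p) μ +
        (ENNReal.ofReal c + ENNReal.ofReal B) * δ := by ring
    _ ≤ ENNReal.ofReal c * eLpNorm f (ENNReal.ofReal p) μ + ε := by
        gcongr
        calc (ENNReal.ofReal c + ENNReal.ofReal B) * δ
            ≤ (ENNReal.ofReal c + ENNReal.ofReal B + 1) * δ := mul_le_mul' le_self_add le_rfl
          _ = ε := by rw [hδ, ENNReal.mul_div_cancel hden0 hdent]

lemma conv_fejer_zero {h : ℂ → ℂ} (hh : DiffContOnCl ℂ h (Metric.ball 0 1)) (x : Circ) :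
    conv (fejer 0) (fun y => h (e 1 y)) x = h 0 := by
  have h1 := conv_fejer_gN (N := 1) (n := 0) one_pos (integrable_of_cont (comp_cont hh)) x
  simp only [one_smul] at h1
  rw [h1, mv h hh]

lemma inHardy_one {h : ℂ → ℂ} (hh : DiffContOnCl ℂ h (Metric.ball 0 1)) (p : ENNReal) :
    InHardy p (fun x => h (e 1 x)) := by
  have := inHardy_comp hh one_ne_zero p
  simpa only [one_smul] using this

lemma le_of_eLpNorm {p c : ℝ} (hp : 0 < p) (hc : 0 ≤ c) {F G : Circ → ℂ} (hF : Continuous F)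
    (hG : Continuous G)
    (h : eLpNorm F (ENNReal.ofReal p) μ ≤ ENNReal.ofReal c * eLpNorm G (ENNReal.ofReal p) μ) :
    ∫ x, ‖F x‖ ^ p ∂μ ≤ c ^ p * ∫ x, ‖G x‖ ^ p ∂μ := by
  have hG0 : 0 ≤ ∫ x, ‖G x‖ ^ p ∂μ := integral_nonneg fun x => Real.rpow_nonneg (norm_nonneg _) _
  have hF0 : 0 ≤ ∫ x, ‖F x‖ ^ p ∂μ := integral_nonneg fun x => Real.rpow_nonneg (norm_nonneg _) _
  rw [eLpNorm_cont hp hF, eLpNorm_cont hp hG, ← ENNReal.ofReal_mul hc,
    ENNReal.ofReal_le_ofReal_iff (mul_nonneg hc (Real.rpow_nonneg hG0 _))] at h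
  have h2 := Real.rpow_le_rpow (Real.rpow_nonneg hF0 _) h hp.le
  rw [Real.mul_rpow hc (Real.rpow_nonneg hG0 _), ← Real.rpow_mul hF0, ← Real.rpow_mul hG0,
    one_div_mul_cancel hp.ne', Real.rpow_one, Real.rpow_one] at h2
  exact h2

/-- **The norm of `I - P_r` on `H^p` does not depend on `r`.** -/
theorem main_poisson {p : ℝ} (hp : 1 ≤ p) {r : ℝ} (hr0 : 0 ≤ r) (hr1 : r < 1) (N : ℝ) :
    IsNormIdSubConvHardy (poisson r) p N ↔ IsNormIdSubConvHardy (fejer 0) p N := by
  have hp0 : 0 < p := by linarith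
  unfold IsNormIdSubConvHardy
  suffices hset : {c : ℝ | 0 ≤ c ∧ ∀ f : Circ → ℂ, InHardy (ENNReal.ofReal p) f →
      eLpNorm (fun x => f x - conv (poisson r) f x) (ENNReal.ofReal p) μ
        ≤ ENNReal.ofReal c * eLpNorm f (ENNReal.ofReal p) μ} =
      {c : ℝ | 0 ≤ c ∧ ∀ f : Circ → ℂ, InHardy (ENNReal.ofReal p) f →
      eLpNorm (fun x => f x - conv (fejer 0) f x) (ENNReal.ofReal p) μ
        ≤ ENNReal.ofReal c * eLpNorm f (ENNReal.ofReal p) μ} by
    rw [hset]
  ext c
  simp only [Set.mem_setOf_eq]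
  constructor
  · rintro ⟨hc, hb⟩
    refine ⟨hc, fun f hf => upper_of_poly hp hc 0 (fun P => ?_) hf⟩
    have hd : DiffContOnCl ℂ (fun z => P.eval z) (Metric.ball 0 1) := P.differentiable.diffContOnCl
    have hPc := poly_continuous P
    have h1 : (fun x : Circ => P.eval (e 1 x) - conv (fejer 0) (fun y => P.eval (e 1 y)) x) =
        fun x : Circ => P.eval (e 1 x) - P.eval 0 := by
      funext x
      rw [conv_fejer_zero hd]
    rw [h1]
    by_cases hz : eLpNorm (fun x : Circ => P.eval (e 1 x)) (ENNReal.ofReal p) μ = 0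
    · have h2 := (eLpNorm_eq_zero_iff hPc.aestronglyMeasurable (by simpa using hp0)).mp hz
      have h3 : P.eval 0 = 0 := by
        have h4 := mv _ hd
        rw [integral_congr_ae h2] at h4
        simpa using h4.symm
      rw [h3]
      simp only [sub_zero]
      rw [hz, mul_zero]
    · -- the ratio of the norms
      set A := eLpNorm (fun x : Circ => P.eval (e 1 x) - P.eval 0) (ENNReal.ofReal p) μ with hA
      set B := eLpNorm (fun x : Circ => P.eval (e 1 x)) (ENNReal.ofReal p) μ with hB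
      have hAt : A ≠ ⊤ := (memLp_cont (hPc.sub continuous_const) _).2.ne
      have hBt : B ≠ ⊤ := (memLp_cont hPc _).2.ne
      have h5 : ENNReal.ofReal (A / B).toReal = A / B :=
        ENNReal.ofReal_toReal (ENNReal.div_ne_top hAt hz)
      have h6 : (A / B).toReal ≤ c := by
        refine poisson_lower_hardy hp hr0 hr1 hc hb hd hz ?_
        rw [h5, ENNReal.div_mul_cancel hz hBt]
      have h7 : A / B ≤ ENNReal.ofReal c := by
        rw [← h5]
        exact ENNReal.ofReal_le_ofReal h6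
      calc A = A / B * B := (ENNReal.div_mul_cancel hz hBt).symm
        _ ≤ ENNReal.ofReal c * B := mul_le_mul' h7 le_rfl
  · rintro ⟨hc, hb⟩
    have H : H0 p c := by
      intro h hh
      have h1 := hb _ (inHardy_one hh _)
      have h2 : (fun x : Circ => h (e 1 x) - conv (fejer 0) (fun y => h (e 1 y)) x) =
          fun x : Circ => h (e 1 x) - h 0 := by
        funext x
        rw [conv_fejer_zero hh]
      rw [h2] at h1
      exact le_of_eLpNorm hp0 hc ((comp_cont hh).sub continuous_const) (comp_cont hh) h1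
    refine ⟨hc, fun f hf => poisson_upper_of_poly hp hr0 hr1 (fun P => ?_) hf⟩
    exact eLpNorm_le_of_int hp0 hc ((poly_continuous P).sub
      (conv_poisson_aesm hr0 hr1 (integrable_of_cont (poly_continuous P)))) (poly_continuous P)
      (poisson_poly hp H hr0 hr1 P)

end Pool.Agent.Y112.HP
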